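import Mathlib

set_option autoImplicit false

/-! # Arc length measure on the circle and the density of sums -/

open MeasureTheory Set Real
open scoped ENNReal

namespace Run7.h896

/-- a point of the circle -/
noncomputable def E (θ : ℝ) : ℂ := Complex.exp (θ * Complex.I)

theorem E_cont : Continuous E := by unfold E; fun_prop

theorem E_meas : Measurable E := E_cont.measurable

theorem E_add (a b : ℝ) : E (a + b) = E a * E b := by
  unfold E; rw [← Complex.exp_add]; push_cast; ring_nf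

theorem E_per (a : ℝ) : E (a + 2 * π) = E a := by
  rw [E_add]
  have : E (2 * π) = 1 := by
    unfold E; push_cast; exact Complex.exp_two_pi_mul_I
  rw [this, mul_one]

theorem E_pi (a : ℝ) : E (a + π) = - E a := by
  rw [E_add]
  have : E π = -1 := by
    unfold E; exact Complex.exp_pi_mul_I
  rw [this, mul_neg_one]

theorem norm_E (a : ℝ) : ‖E a‖ = 1 := Complex.norm_exp_ofReal_mul_I a

theorem E_eq (a : ℝ) : E a = ⟨Real.cos a, Real.sin a⟩ := by
  unfold E
  apply Complex.ext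
  · simp [Complex.exp_ofReal_mul_I_re]
  · simp [Complex.exp_ofReal_mul_I_im]

theorem E_zero : E 0 = 1 := by unfold E; simp

theorem E_neg (a : ℝ) : E (-a) = star (E a) := by
  rw [E_eq, E_eq]
  apply Complex.ext <;> simp

theorem E_arg {z : ℂ} (h : ‖z‖ = 1) : E (Complex.arg z) = z := by
  have := Complex.norm_mul_exp_arg_mul_I z
  rw [h] at this
  simpa [E] using this

/-- arc length measure -/
noncomputable def ν : Measure ℂ := (volume.restrict (Icc 0 (2 * π))).map E

theorem lint_ν {Ψ : ℂ → ℝ≥0∞} (h : Measurable Ψ) :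
    ∫⁻ x, Ψ x ∂ν = ∫⁻ θ in Icc 0 (2 * π), Ψ (E θ) := lintegral_map h E_meas

theorem lint_per {g : ℝ → ℝ≥0∞} (hg : Function.Periodic g (2 * π)) (t s : ℝ) :
    ∫⁻ a in Ioc t (t + 2 * π), g a = ∫⁻ a in Ioc s (s + 2 * π), g a := by
  have : Fact (0 < 2 * π) := ⟨Real.two_pi_pos⟩
  have h1 := AddCircle.lintegral_preimage (2 * π) t hg.lift
  have h2 := AddCircle.lintegral_preimage (2 * π) s hg.lift
  simp only [Function.Periodic.lift_coe] at h1 h2
  rw [h1, h2]

theorem lint_ν_Ioc {Ψ : ℂ → ℝ≥0∞} (h : Measurable Ψ) (t : ℝ) :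
    ∫⁻ x, Ψ x ∂ν = ∫⁻ θ in Ioc t (t + 2 * π), Ψ (E θ) := by
  rw [lint_ν h, setLIntegral_congr Ioc_ae_eq_Icc.symm]
  have : Function.Periodic (fun θ => Ψ (E θ)) (2 * π) := fun θ => by
    beta_reduce
    rw [E_per]
  rw [lint_per this t 0, zero_add]

theorem lint_rot {Ψ : ℂ → ℝ≥0∞} (h : Measurable Ψ) (s : ℝ) :
    ∫⁻ x, Ψ (E s * x) ∂ν = ∫⁻ x, Ψ x ∂ν := by
  rw [lint_ν_Ioc (Ψ := fun x => Ψ (E s * x)) (h.comp (measurable_const_mul _)) 0,
    lint_ν_Ioc h s]
  simp only [← E_add, zero_add]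
  have hmp := measurePreserving_add_left (volume : Measure ℝ) s
  rw [← (hmp.setLIntegral_comp_preimage_emb (measurableEmbedding_addLeft s)
    (fun θ => Ψ (E θ)) (Ioc s (s + 2 * π)))]
  congr 2
  ext x
  simp

theorem rot_mp (s : ℝ) : MeasurePreserving (fun x => E s * x) ν ν := by
  refine ⟨measurable_const_mul _, ?_⟩
  ext S hS
  rw [Measure.map_apply (measurable_const_mul _) hS]
  have := lint_rot (Ψ := S.indicator 1) (measurable_one.indicator hS) s
  rw [lintegral_indicator_one hS] at this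
  rw [← this, ← lintegral_indicator_one (measurable_const_mul _ hS)]
  rfl

theorem neg_mp : MeasurePreserving (fun x : ℂ => -x) ν ν := by
  have := rot_mp π
  have e : E π = -1 := by
    unfold E; exact Complex.exp_pi_mul_I
  simpa only [e, neg_one_mul] using this

instance : IsFiniteMeasure ν := by
  unfold ν
  infer_instance

theorem ae_norm : ∀ᵐ x ∂ν, ‖x‖ = 1 := by
  unfold ν
  rw [ae_map_iff E_meas.aemeasurable (measurableSet_eq_fun measurable_norm measurable_const)]
  exact Filter.Eventually.of_forall norm_E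

theorem lint_even {h : ℝ → ℝ≥0∞} (he : ∀ θ, h (-θ) = h θ) :
    ∫⁻ θ in Ioc (-π) (-π + 2 * π), h θ = 2 * ∫⁻ θ in Ioo 0 π, h θ := by
  have e : -π + 2 * π = π := by ring
  rw [e, ← Ioc_union_Ioc_eq_Ioc (by linarith [Real.pi_pos] : -π ≤ 0) Real.pi_pos.le,
    lintegral_union measurableSet_Ioc (Set.disjoint_left.2 fun x h1 h2 => by
      exact absurd h1.2 (not_le.2 h2.1)), setLIntegral_congr Ioo_ae_eq_Ioc.symm,
      setLIntegral_congr (Ioo_ae_eq_Ioc (a := 0) (b := π)).symm]
  have hmp := Measure.measurePreserving_neg (volume : Measure ℝ)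
  rw [← (hmp.setLIntegral_comp_preimage_emb (MeasurableEquiv.neg ℝ).measurableEmbedding
    h (Ioo (-π) 0))]
  have : Neg.neg ⁻¹' Ioo (-π) 0 = Ioo 0 π := by
    ext x
    simp [and_comm]
  rw [this]
  simp only [he]
  rw [two_mul]

/-- kernel `4/√(t(4-t))` -/
noncomputable def kap (t : ℝ) : ℝ := 4 / √(t * (4 - t))

theorem kap_meas : Measurable kap := by unfold kap; fun_prop

/-- density of the sum of two -/
noncomputable def K (z : ℂ) : ℝ≥0∞ := ENNReal.ofReal (kap (Complex.normSq z))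

theorem K_meas : Measurable K := by
  unfold K
  exact (kap_meas.comp Complex.continuous_normSq.measurable).ennreal_ofReal

theorem G_rot {Ψ : ℂ → ℝ≥0∞} (h : Measurable Ψ) (w : ℂ) :
    ∫⁻ x, Ψ (x * w) ∂ν = ∫⁻ x, Ψ (x * (‖w‖ : ℂ)) ∂ν := by
  have hw : w = (‖w‖ : ℂ) * E (Complex.arg w) := (Complex.norm_mul_exp_arg_mul_I w).symm
  have := lint_rot (Ψ := fun x => Ψ (x * (‖w‖ : ℂ))) (h.comp (measurable_mul_const _)) (Complex.arg w)
  rw [← this]
  congr 1
  ext x
  congr 1
  calc x * w = x * ((‖w‖ : ℂ) * E (Complex.arg w)) := by rw [← hw]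
    _ = _ := by ring

theorem norm_one_add_E {θ : ℝ} (h1 : -π ≤ θ) (h2 : θ ≤ π) : ‖1 + E θ‖ = 2 * Real.cos (θ / 2) := by
  have hc : 0 ≤ Real.cos (θ / 2) := Real.cos_nonneg_of_neg_pi_div_two_le_of_le (by linarith) (by linarith)
  rw [← abs_of_nonneg (by positivity : 0 ≤ 2 * Real.cos (θ / 2)), ← abs_of_nonneg (norm_nonneg (1 + E θ)),
    ← sq_eq_sq_iff_abs_eq_abs, ← Complex.normSq_eq_norm_sq, E_eq, Complex.normSq_apply]
  simp only [Complex.add_re, Complex.one_re, Complex.add_im, Complex.one_im, zero_add]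
  have e1 : Real.cos θ = 2 * Real.cos (θ / 2) ^ 2 - 1 := by rw [← Real.cos_two_mul]; ring_nf
  have e2 : Real.sin θ ^ 2 = 1 - Real.cos θ ^ 2 := Real.sin_sq θ
  nlinarith

theorem two_dens {Ψ : ℂ → ℝ≥0∞} (h : Measurable Ψ) :
    ∫⁻ x, ∫⁻ y, Ψ (x + y) ∂ν ∂ν = ∫⁻ z, Ψ z * K z := by
  -- the radial means
  set G : ℝ → ℝ≥0∞ := fun ρ => ∫⁻ x, Ψ (x * (ρ : ℂ)) ∂ν with hG
  have hGm : Measurable G := by
    apply Measurable.lintegral_prod_right' (f := fun p : ℝ × ℂ => Ψ (p.2 * (p.1 : ℂ)))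
    fun_prop
  have s1 : ∫⁻ x, ∫⁻ y, Ψ (x + y) ∂ν ∂ν = ∫⁻ u, G ‖1 + u‖ ∂ν := by
    have e1 : ∀ᵐ x ∂ν, ∫⁻ y, Ψ (x + y) ∂ν = ∫⁻ u, Ψ (x * (1 + u)) ∂ν := by
      filter_upwards [ae_norm] with x hx
      have := lint_rot (Ψ := fun y => Ψ (x + y)) (h.comp (measurable_const_add _)) (Complex.arg x)
      rw [E_arg hx] at this
      rw [← this]
      congr 1
      ext u
      congr 1
      ring
    rw [lintegral_congr_ae e1, lintegral_lintegral_swap]
    · congr 1
      ext u
      exact G_rot h (1 + u)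
    · refine Measurable.aemeasurable ?_
      simp only [Function.uncurry_def]
      fun_prop
  have s2 : ∫⁻ u, G ‖1 + u‖ ∂ν = 2 * ∫⁻ θ in Ioo 0 π, G (2 * Real.cos (θ / 2)) := by
    have hm : Measurable fun u : ℂ => G ‖1 + u‖ := hGm.comp (by fun_prop)
    rw [lint_ν_Ioc hm (-π)]
    rw [← lint_even (h := fun θ => G (2 * Real.cos (θ / 2)))]
    · refine setLIntegral_congr_fun measurableSet_Ioc fun θ hθ => ?_
      have : ‖1 + E θ‖ = 2 * Real.cos (θ / 2) :=
        norm_one_add_E hθ.1.le (by linarith [hθ.2])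
      beta_reduce
      rw [this]
    · intro θ
      rw [neg_div, Real.cos_neg]
  have s3 : ∫⁻ θ in Ioo 0 π, G (2 * Real.cos (θ / 2)) =
      ∫⁻ ρ in Ioo (0:ℝ) 2, G ρ * ENNReal.ofReal (2 / √(4 - ρ ^ 2)) := by
    have himg : (fun θ => 2 * Real.cos (θ / 2)) '' Ioo 0 π = Ioo (0:ℝ) 2 := by
      ext ρ
      simp only [mem_image, mem_Ioo]
      constructor
      · rintro ⟨θ, ⟨h0, h1⟩, rfl⟩
        have h2 : 0 < Real.cos (θ / 2) := Real.cos_pos_of_mem_Ioo ⟨by linarith, by linarith⟩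
        have h3 : Real.cos (θ / 2) < 1 := by
          have := Real.cos_lt_cos_of_nonneg_of_le_pi (x := 0) (y := θ / 2) le_rfl (by linarith)
            (by linarith)
          rwa [Real.cos_zero] at this
        constructor <;> linarith
      · rintro ⟨h0, h1⟩
        refine ⟨2 * Real.arccos (ρ / 2), ⟨?_, ?_⟩, ?_⟩
        · have : 0 < Real.arccos (ρ / 2) := Real.arccos_pos.2 (by linarith)
          linarith
        · have : Real.arccos (ρ / 2) < π / 2 := Real.arccos_lt_pi_div_two.2 (by linarith)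
          linarith
        · have : 2 * Real.arccos (ρ / 2) / 2 = Real.arccos (ρ / 2) := by ring
          rw [this, Real.cos_arccos (by linarith) (by linarith)]
          ring
    have hder : ∀ θ ∈ Ioo 0 π, HasDerivWithinAt (fun θ => 2 * Real.cos (θ / 2))
        (-Real.sin (θ / 2)) (Ioo 0 π) θ := by
      intro θ _
      have h1 : HasDerivAt (fun θ : ℝ => θ / 2) (1 / 2) θ := (hasDerivAt_id' θ).div_const 2
      have h2 := (h1.cos).const_mul 2
      exact (h2.congr_deriv (by ring)).hasDerivWithinAt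
    have hinj : InjOn (fun θ => 2 * Real.cos (θ / 2)) (Ioo 0 π) := by
      intro a ha b hb hab
      have : Real.cos (a / 2) = Real.cos (b / 2) := by
        simp only at hab
        linarith
      have := Real.injOn_cos ⟨by linarith [ha.1], by linarith [ha.2, Real.pi_pos]⟩
        ⟨by linarith [hb.1], by linarith [hb.2, Real.pi_pos]⟩ this
      linarith
    have := lintegral_image_eq_lintegral_abs_deriv_mul measurableSet_Ioo hder hinj
      (fun ρ => G ρ * ENNReal.ofReal (2 / √(4 - ρ ^ 2)))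
    rw [himg] at this
    rw [this]
    refine setLIntegral_congr_fun measurableSet_Ioo fun θ hθ => ?_
    beta_reduce
    have hs : 0 < Real.sin (θ / 2) := Real.sin_pos_of_pos_of_lt_pi (by linarith [hθ.1])
      (by linarith [hθ.2, Real.pi_pos])
    have e1 : √(4 - (2 * Real.cos (θ / 2)) ^ 2) = 2 * Real.sin (θ / 2) := by
      have : 4 - (2 * Real.cos (θ / 2)) ^ 2 = (2 * Real.sin (θ / 2)) ^ 2 := by
        have := Real.sin_sq_add_cos_sq (θ / 2)
        nlinarith
      rw [this, Real.sqrt_sq (by positivity)]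
    rw [e1, abs_neg, abs_of_pos hs, mul_comm (G _), ← mul_assoc, ← ENNReal.ofReal_mul hs.le]
    have : Real.sin (θ / 2) * (2 / (2 * Real.sin (θ / 2))) = 1 := by field_simp
    rw [this, ENNReal.ofReal_one, one_mul]
  have s4 : ∫⁻ z, Ψ z * K z = ∫⁻ ρ in Ioi (0:ℝ), ENNReal.ofReal (ρ * kap (ρ ^ 2)) * G ρ := by
    rw [← Complex.lintegral_comp_polarCoord_symm]
    simp only [Complex.polarCoord_symm_apply, polarCoord_target]
    rw [Measure.volume_eq_prod, ← Measure.prod_restrict, lintegral_prod]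
    · refine setLIntegral_congr_fun measurableSet_Ioi fun ρ hρ => ?_
      have hρ0 : (0:ℝ) < ρ := hρ
      beta_reduce
      simp only [hG]
      have hΨ : Measurable fun x : ℂ => Ψ (x * (ρ:ℂ)) := h.comp (measurable_mul_const _)
      rw [lint_ν_Ioc hΨ (-π), ← lintegral_const_mul _ (by
        exact hΨ.comp E_meas)]
      have e : -π + 2 * π = π := by ring
      rw [e, setLIntegral_congr Ioo_ae_eq_Ioc.symm]
      refine setLIntegral_congr_fun measurableSet_Ioo fun φ _ => ?_
      beta_reduce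
      have e2 : (ρ:ℂ) * (↑(Real.cos φ) + ↑(Real.sin φ) * Complex.I) = E φ * ρ := by
        rw [E_eq]
        apply Complex.ext <;> simp [mul_comm, -Complex.ofReal_cos, -Complex.ofReal_sin]
      have e3 : Complex.normSq (E φ * ρ) = ρ ^ 2 := by
        rw [Complex.normSq_eq_norm_sq, norm_mul, norm_E, Complex.norm_real, one_mul,
          Real.norm_eq_abs, sq_abs]
      rw [e2]
      unfold K
      rw [e3, ENNReal.ofReal_mul hρ0.le, smul_eq_mul]
      ring
    · refine Measurable.aemeasurable ?_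
      have := K_meas
      fun_prop
  rw [s1, s2, s3, s4, ← lintegral_const_mul' _ _ (by norm_num), ← Ioo_union_Ici_eq_Ioi (by norm_num : (0:ℝ) < 2),
    lintegral_union measurableSet_Ici (Set.disjoint_left.2 fun x h1 h2 => by
      exact absurd h1.2 (not_lt.2 h2))]
  have z0 : ∫⁻ ρ in Ici (2:ℝ), ENNReal.ofReal (ρ * kap (ρ ^ 2)) * G ρ = 0 := by
    rw [setLIntegral_congr_fun (g := fun _ => 0) measurableSet_Ici, lintegral_zero]
    intro ρ hρ
    have hρ2 : (2:ℝ) ≤ ρ := hρ
    have : kap (ρ ^ 2) = 0 := by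
      unfold kap
      rw [Real.sqrt_eq_zero_of_nonpos, div_zero]
      exact mul_nonpos_of_nonneg_of_nonpos (sq_nonneg _) (by nlinarith)
    simp [this]
  rw [z0, add_zero]
  refine setLIntegral_congr_fun measurableSet_Ioo fun ρ hρ => ?_
  have h0 : 0 < ρ := hρ.1
  have h2 : ρ < 2 := hρ.2
  have e1 : ρ * kap (ρ ^ 2) = 2 * (2 / √(4 - ρ ^ 2)) := by
    unfold kap
    rw [Real.sqrt_mul (by positivity), Real.sqrt_sq h0.le]
    have : 0 < √(4 - ρ ^ 2) := Real.sqrt_pos.2 (by nlinarith)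
    field_simp
    norm_num
  rw [e1, ENNReal.ofReal_mul (by norm_num)]
  norm_num
  ring

end Run7.h896
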