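import Mathlib
import Pool.Agent.Run7.h896.Dens

set_option autoImplicit false

/-! # The function on the circle and its half -/

open MeasureTheory Set Real Filter Topology
open scoped ENNReal

namespace Run7.h896

/-- the function as a function on the plane -/
noncomputable def ft (f : ℝ → ℝ) (x : ℂ) : ℝ := f (Complex.arg x)

/-- the component in the direction of `E c` -/
noncomputable def av (c : ℝ) (x : ℂ) : ℝ := (x * star (E c)).re

/-- the squared function on the positive half -/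
noncomputable def gg (f : ℝ → ℝ) (c : ℝ) (x : ℂ) : ℝ := if 0 < av c x then ft f x ^ 2 else 0

theorem ft_meas {f : ℝ → ℝ} (hf : Measurable f) : Measurable (ft f) := hf.comp Complex.measurable_arg

theorem av_meas (c : ℝ) : Measurable (av c) := by
  unfold av
  exact Complex.measurable_re.comp (measurable_mul_const _)

theorem gg_meas {f : ℝ → ℝ} (hf : Measurable f) (c : ℝ) : Measurable (gg f c) := by
  unfold gg
  exact Measurable.ite (measurableSet_lt measurable_const (av_meas c)) ((ft_meas hf).pow_const 2)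
    measurable_const

theorem ft_E {f : ℝ → ℝ} (hper : Function.Periodic f π) (θ : ℝ) : ft f (E θ) = f θ := by
  unfold ft E
  rw [Complex.arg_exp_mul_I]
  have h2 : Function.Periodic f (2 * π) := by
    have := hper.nat_mul 2
    simpa using this
  have h : toIocMod Real.two_pi_pos (-π) θ = θ - toIocDiv Real.two_pi_pos (-π) θ • (2 * π) := rfl
  rw [h]
  exact h2.sub_zsmul_eq _

theorem ft_neg {f : ℝ → ℝ} (hper : Function.Periodic f π) {x : ℂ} (hx : ‖x‖ = 1) :
    ft f (-x) = ft f x := by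
  have h1 : x = E (Complex.arg x) := (E_arg hx).symm
  rw [h1, ← E_pi, ft_E hper, ft_E hper]
  exact hper _

theorem av_neg (c : ℝ) (x : ℂ) : av c (-x) = - av c x := by
  unfold av; rw [neg_mul, Complex.neg_re]

theorem av_sum {ι : Type} (s : Finset ι) (c : ℝ) (x : ι → ℂ) : av c (∑ j ∈ s, x j) = ∑ j ∈ s, av c (x j) := by
  unfold av; rw [Finset.sum_mul, Complex.re_sum]

theorem av_le (c : ℝ) (x : ℂ) : |av c x| ≤ ‖x‖ := by
  unfold av
  refine (Complex.abs_re_le_norm _).trans ?_
  rw [norm_mul, norm_star, norm_E, mul_one]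

theorem av_E (c t : ℝ) : av c (E c * E t) = Real.cos t := by
  unfold av
  have : E c * E t * star (E c) = E t := by
    rw [← E_neg, ← E_add, ← E_add]
    congr 1
    ring
  rw [this, E_eq]

theorem supp_ft {f : ℝ → ℝ} {c : ℝ} (hs : ∀ θ, f θ ≠ 0 → ∃ k : ℤ, |θ - c - k * π| ≤ π / 4) {x : ℂ}
    (hx : ‖x‖ = 1) (h : ft f x ≠ 0) : ∃ t, |t| ≤ π / 4 ∧ (x = E c * E t ∨ x = -(E c * E t)) := by
  obtain ⟨k, hk⟩ := hs _ h
  refine ⟨_, hk, ?_⟩
  have h1 : x = E (Complex.arg x) := (E_arg hx).symm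
  have hk1 : E (k * π) = 1 ∨ E (k * π) = -1 := by
    rcases Int.even_or_odd k with he | ho
    · left
      obtain ⟨m, hm⟩ := he
      rw [hm, E_eq]
      push_cast
      have e : ((m:ℝ) + m) * π = m * (2 * π) := by ring
      rw [e]
      apply Complex.ext
      · simp [Real.cos_int_mul_two_pi]
      · have := Real.sin_int_mul_pi (2 * m)
        push_cast at this
        have e2 : (m:ℝ) * (2 * π) = 2 * m * π := by ring
        simp only [Complex.one_im]
        rw [e2, this]
    · right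
      obtain ⟨m, hm⟩ := ho
      rw [hm, E_eq]
      push_cast
      have e : (2 * (m:ℝ) + 1) * π = π + m * (2 * π) := by ring
      rw [e]
      apply Complex.ext
      · simp only [Complex.neg_re, Complex.one_re]
        rw [Real.cos_add_int_mul_two_pi, Real.cos_pi]
      · simp only [Complex.neg_im, Complex.one_im]
        rw [Real.sin_add_int_mul_two_pi, Real.sin_pi, neg_zero]
  have h2 : E (Complex.arg x) = E c * E (Complex.arg x - c - k * π) * E (k * π) := by
    rw [← E_add, ← E_add]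
    congr 1
    ring
  rcases hk1 with h3 | h3
  · left
    rw [h3, mul_one] at h2
    rw [← h2, ← h1]
  · right
    rw [h3, mul_neg_one] at h2
    rw [← h2, ← h1]

theorem cos_quarter {t : ℝ} (ht : |t| ≤ π / 4) : √2 / 2 ≤ Real.cos t := by
  rw [← Real.cos_abs, ← Real.cos_pi_div_four]
  exact Real.cos_le_cos_of_nonneg_of_le_pi (abs_nonneg t) (by linarith [Real.pi_pos]) ht

theorem av_big {f : ℝ → ℝ} {c : ℝ} (hs : ∀ θ, f θ ≠ 0 → ∃ k : ℤ, |θ - c - k * π| ≤ π / 4) {x : ℂ}
    (hx : ‖x‖ = 1) (h : ft f x ≠ 0) : √2 / 2 ≤ |av c x| := by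
  obtain ⟨t, ht, h1⟩ := supp_ft hs hx h
  have hc := cos_quarter ht
  have hp : 0 < √2 := by positivity
  rcases h1 with h1 | h1
  · rw [h1, av_E, abs_of_nonneg (by linarith)]
    exact hc
  · rw [h1, av_neg, av_E, abs_neg, abs_of_nonneg (by linarith)]
    exact hc

theorem gg_supp {f : ℝ → ℝ} {c : ℝ} (hs : ∀ θ, f θ ≠ 0 → ∃ k : ℤ, |θ - c - k * π| ≤ π / 4) {x : ℂ}
    (hx : ‖x‖ = 1) (h : gg f c x ≠ 0) : ∃ t, |t| ≤ π / 4 ∧ x = E c * E t := by
  unfold gg at h
  split_ifs at h with h0
  · have h2 : ft f x ≠ 0 := fun h3 => h (by rw [h3]; norm_num)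
    obtain ⟨t, ht, h1⟩ := supp_ft hs hx h2
    rcases h1 with h1 | h1
    · exact ⟨t, ht, h1⟩
    · exfalso
      rw [h1, av_neg, av_E] at h0
      have := cos_quarter ht
      have hp : 0 < √2 := by positivity
      linarith
  · exact absurd rfl h

theorem gg_nonneg (f : ℝ → ℝ) (c : ℝ) (x : ℂ) : 0 ≤ gg f c x := by
  unfold gg; split_ifs <;> positivity

theorem gg_le {f : ℝ → ℝ} {M : ℝ} (hM : ∀ θ, |f θ| ≤ M) (c : ℝ) (x : ℂ) : gg f c x ≤ M ^ 2 := by
  unfold gg
  split_ifs
  · unfold ft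
    rw [← sq_abs]
    have := hM (Complex.arg x)
    gcongr
  · positivity

theorem ft_sq {f : ℝ → ℝ} {c : ℝ} (hper : Function.Periodic f π)
    (hs : ∀ θ, f θ ≠ 0 → ∃ k : ℤ, |θ - c - k * π| ≤ π / 4) {x : ℂ}
    (hx : ‖x‖ = 1) : ft f x ^ 2 = gg f c x + gg f c (-x) := by
  by_cases h : ft f x = 0
  · unfold gg
    rw [ft_neg hper hx, h]
    simp
  · have hb := av_big hs hx h
    have hp : 0 < √2 := by positivity
    unfold gg
    rw [ft_neg hper hx, av_neg]
    rcases lt_trichotomy (av c x) 0 with h1 | h1 | h1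
    · rw [if_neg (by linarith), if_pos (by linarith), zero_add]
    · rw [h1, abs_zero] at hb
      linarith
    · rw [if_pos h1, if_neg (by linarith), add_zero]

theorem gg_pos {f : ℝ → ℝ} {c : ℝ} {x : ℂ} (h : 0 < av c x) : gg f c x = ft f x ^ 2 := by
  unfold gg; rw [if_pos h]

theorem gg_neg {f : ℝ → ℝ} {c : ℝ} (hper : Function.Periodic f π) {x : ℂ} (hx : ‖x‖ = 1)
    (h : av c x < 0) : gg f c (-x) = ft f x ^ 2 := by
  unfold gg; rw [av_neg, if_pos (by linarith), ft_neg hper hx]

end Run7.h896
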