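import Mathlib

set_option autoImplicit false

/-! # The complete elliptic integral `JJ A B = ∫_0^∞ dt / √((1+t²)(A+Bt²))` -/

open MeasureTheory Set Real

namespace Run7.h896

/-- the elliptic integral `∫_0^∞ dt / √((1+t²)(A+Bt²))` -/
noncomputable def JJ (A B : ℝ) : ℝ := ∫ t in Ioi (0:ℝ), 1 / √((1 + t ^ 2) * (A + B * t ^ 2))

theorem JJ_meas (A B : ℝ) : Measurable fun t : ℝ => 1 / √((1 + t ^ 2) * (A + B * t ^ 2)) := by
  fun_prop

theorem JJ_bound {A B m t : ℝ} (hm : 0 < m) (hA : m ≤ A) (hB : m ≤ B) :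
    1 / √((1 + t ^ 2) * (A + B * t ^ 2)) ≤ 1 / √m * (1 + t ^ 2)⁻¹ := by
  have h1 : 0 < 1 + t ^ 2 := by positivity
  have h2 : √m * (1 + t ^ 2) ≤ √((1 + t ^ 2) * (A + B * t ^ 2)) := by
    apply Real.le_sqrt_of_sq_le
    rw [mul_pow, Real.sq_sqrt hm.le]
    have : m * (1 + t ^ 2) ≤ A + B * t ^ 2 := by nlinarith [sq_nonneg t]
    nlinarith
  rw [← one_div, one_div_mul_one_div]
  exact one_div_le_one_div_of_le (by positivity) h2

theorem JJ_int {A B : ℝ} (hA : 0 < A) (hB : 0 < B) :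
    IntegrableOn (fun t : ℝ => 1 / √((1 + t ^ 2) * (A + B * t ^ 2))) (Ioi 0) := by
  have hm : 0 < min A B := lt_min hA hB
  refine ((integrable_inv_one_add_sq.const_mul (1 / √(min A B))).integrableOn).mono'
    (JJ_meas A B).aestronglyMeasurable (Filter.Eventually.of_forall fun t => ?_)
  rw [Real.norm_of_nonneg (by positivity)]
  exact JJ_bound hm (min_le_left _ _) (min_le_right _ _)

theorem JJ_pos {A B : ℝ} (hA : 0 < A) (hB : 0 < B) : 0 < JJ A B := by
  unfold JJ
  rw [setIntegral_pos_iff_support_of_nonneg_ae]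
  · have : Function.support (fun t : ℝ => 1 / √((1 + t ^ 2) * (A + B * t ^ 2))) ∩ Ioi 0 = Ioi 0 := by
      rw [Set.inter_eq_right]
      intro t ht
      simp only [Function.mem_support]
      have : 0 < (1 + t ^ 2) * (A + B * t ^ 2) := by positivity
      positivity
    rw [this]
    simp
  · exact Filter.Eventually.of_forall fun t => by simp only [Pi.zero_apply]; positivity
  · exact JJ_int hA hB

theorem JJ_anti {A B A' B' : ℝ} (hA : 0 < A) (hB : 0 < B) (h1 : A ≤ A') (h2 : B ≤ B') :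
    JJ A' B' ≤ JJ A B := by
  unfold JJ
  refine setIntegral_mono (JJ_int (hA.trans_le h1) (hB.trans_le h2)) (JJ_int hA hB) fun t => ?_
  have h0 : 0 < (1 + t ^ 2) * (A + B * t ^ 2) := by positivity
  refine one_div_le_one_div_of_le (Real.sqrt_pos.2 h0) (Real.sqrt_le_sqrt ?_)
  have : A + B * t ^ 2 ≤ A' + B' * t ^ 2 := by nlinarith [sq_nonneg t]
  have h3 : 0 < 1 + t ^ 2 := by positivity
  nlinarith

theorem JJ_scale {A B k : ℝ} (hk : 0 < k) : JJ (k ^ 2 * A) (k ^ 2 * B) = JJ A B / k := by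
  unfold JJ
  rw [div_eq_inv_mul, ← integral_const_mul]
  congr 1
  ext t
  have : (1 + t ^ 2) * (k ^ 2 * A + k ^ 2 * B * t ^ 2) = k ^ 2 * ((1 + t ^ 2) * (A + B * t ^ 2)) := by
    ring
  rw [this, Real.sqrt_mul (by positivity), Real.sqrt_sq hk.le]
  field_simp

/-- comparison -/
theorem JJ_le {A B A' B' k : ℝ} (hA : 0 < A) (hB : 0 < B) (hk : 0 < k) (h1 : A ≤ k ^ 2 * A')
    (h2 : B ≤ k ^ 2 * B') : JJ A' B' ≤ k * JJ A B := by
  have h3 : JJ (k ^ 2 * A') (k ^ 2 * B') ≤ JJ A B := JJ_anti hA hB h1 h2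
  rw [JJ_scale hk, div_le_iff₀ hk] at h3
  linarith

/-- the cubic transformation -/
theorem JJ_cubic {A B A' B' b β p q : ℝ} (hA : 0 < A) (hB : 0 < B) (hA' : 0 < A') (hB' : 0 < B')
    (hb : 0 < b) (hβ : 0 < β) (hp : 0 < p) (hq : 0 < q)
    (hA1 : 2 * b + 9 * A = A' + 2 * p) (hA2 : b ^ 2 + 6 * A * β = p ^ 2 + 2 * p * A')
    (hA3 : A * β ^ 2 = A' * p ^ 2)
    (hB1 : 2 * b + 9 * B = B' + 2 * q) (hB2 : b ^ 2 + 6 * B * β = q ^ 2 + 2 * q * B')
    (hB3 : B * β ^ 2 = B' * q ^ 2)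
    (h1 : p + q = β - b) (h2 : 3 * (p * q) = b * β) :
    ∫⁻ V in Ioi (0:ℝ), ENNReal.ofReal (1 / √((V ^ 2 + A) * (V ^ 2 + B))) =
      3 * ∫⁻ v in Ioi (0:ℝ), ENNReal.ofReal (1 / √((v ^ 2 + A') * (v ^ 2 + B'))) := by
  set F : ℝ → ℝ := fun v => v * (v ^ 2 + b) / (3 * v ^ 2 + β) with hF
  set F' : ℝ → ℝ := fun v => 3 * ((v ^ 2 + p) * (v ^ 2 + q)) / (3 * v ^ 2 + β) ^ 2 with hF'
  have hpos : ∀ v : ℝ, 0 < 3 * v ^ 2 + β := fun v => by positivity
  have hder : ∀ v : ℝ, HasDerivAt F (F' v) v := by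
    intro v
    have e1 : HasDerivAt (fun v : ℝ => v * (v ^ 2 + b)) (1 * (v ^ 2 + b) + v * (2 * v)) v := by
      have h := ((hasDerivAt_id' v).fun_mul (((hasDerivAt_id' v).fun_pow 2).add_const b))
      exact h.congr_deriv (by simp)
    have e2 : HasDerivAt (fun v : ℝ => 3 * v ^ 2 + β) (3 * (2 * v)) v := by
      have h := ((((hasDerivAt_id' v).fun_pow 2).const_mul 3).add_const β)
      exact h.congr_deriv (by simp)
    have e3 : HasDerivAt F (((1 * (v ^ 2 + b) + v * (2 * v)) * (3 * v ^ 2 + β) -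
        v * (v ^ 2 + b) * (3 * (2 * v))) / (3 * v ^ 2 + β) ^ 2) v := e1.div e2 (hpos v).ne'
    refine e3.congr_deriv ?_
    simp only [hF']
    have : β = p + q + b := by linarith
    have h2' : 3 * (p * q) = b * β := h2
    have key : 3 * ((v ^ 2 + p) * (v ^ 2 + q)) =
        (1 * (v ^ 2 + b) + v * (2 * v)) * (3 * v ^ 2 + β) - v * (v ^ 2 + b) * (3 * (2 * v)) := by
      linear_combination (3 * v ^ 2) * h1 + h2'
    rw [key]
  have hmono : StrictMonoOn F (Ioi 0) := by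
    apply strictMonoOn_of_hasDerivWithinAt_pos (convex_Ioi 0) (f' := F')
    · exact fun v _ => (hder v).continuousAt.continuousWithinAt
    · exact fun v _ => (hder v).hasDerivWithinAt
    · intro v _
      simp only [hF']
      positivity
  have himg : F '' Ioi 0 = Ioi 0 := by
    apply Set.Subset.antisymm
    · rintro _ ⟨v, hv, rfl⟩
      simp only [hF, mem_Ioi] at hv ⊢
      positivity
    · have hc : ContinuousOn F (Ici 0) := fun v _ => (hder v).continuousAt.continuousWithinAt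
      intro y hy
      have hy' : 0 < y := hy
      -- `F (0) = 0`, `F (3 y + β...)` large
      set T : ℝ := 3 * y + β / b * y + 1 with hT
      have hT0 : 0 < T := by positivity
      have hT1 : y ≤ F T := by
        simp only [hF]
        rw [le_div_iff₀ (hpos T)]
        have a1 : 3 * y ≤ T := by
          have : 0 ≤ β / b * y := by positivity
          linarith
        have a2 : β * y ≤ b * T := by
          have e : b * (β / b * y) = β * y := by field_simp
          have : b * T = 3 * b * y + β * y + b := by rw [hT]; linear_combination e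
          rw [this]
          nlinarith [mul_pos hb hy']
        nlinarith [mul_nonneg (sq_nonneg T) (sub_nonneg.2 a1), sq_nonneg T]
      have h0 : F 0 = 0 := by simp [hF]
      have := intermediate_value_Icc hT0.le (hc.mono Icc_subset_Ici_self)
      rw [h0] at this
      obtain ⟨v, hv, hvy⟩ := this ⟨hy'.le, hT1⟩
      refine ⟨v, ?_, hvy⟩
      rcases hv.1.lt_or_eq with h | h
      · exact h
      · exfalso
        rw [← h, h0] at hvy
        linarith
  have hmain := lintegral_image_eq_lintegral_abs_deriv_mul (s := Ioi (0:ℝ)) (f := F) (f' := F')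
    measurableSet_Ioi (fun v _ => (hder v).hasDerivWithinAt) hmono.injOn
    (fun V => ENNReal.ofReal (1 / √((V ^ 2 + A) * (V ^ 2 + B))))
  rw [himg] at hmain
  rw [hmain, ← lintegral_const_mul' _ _ (by norm_num)]
  refine setLIntegral_congr_fun measurableSet_Ioi fun v hv => ?_
  have hv0 : (0:ℝ) < v := hv
  have hF'0 : 0 < F' v := by simp only [hF']; positivity
  have e1 : F v ^ 2 + A = (v ^ 2 + A') * (v ^ 2 + p) ^ 2 / (3 * v ^ 2 + β) ^ 2 := by
    simp only [hF]
    rw [div_pow, div_add' _ _ _ (by positivity), div_left_inj' (by positivity)]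
    linear_combination (v ^ 4) * hA1 + (v ^ 2) * hA2 + hA3
  have e2 : F v ^ 2 + B = (v ^ 2 + B') * (v ^ 2 + q) ^ 2 / (3 * v ^ 2 + β) ^ 2 := by
    simp only [hF]
    rw [div_pow, div_add' _ _ _ (by positivity), div_left_inj' (by positivity)]
    linear_combination (v ^ 4) * hB1 + (v ^ 2) * hB2 + hB3
  have e3 : √((F v ^ 2 + A) * (F v ^ 2 + B)) =
      √((v ^ 2 + A') * (v ^ 2 + B')) * ((v ^ 2 + p) * (v ^ 2 + q) / (3 * v ^ 2 + β) ^ 2) := by
    rw [e1, e2]
    have : (v ^ 2 + A') * (v ^ 2 + p) ^ 2 / (3 * v ^ 2 + β) ^ 2 *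
        ((v ^ 2 + B') * (v ^ 2 + q) ^ 2 / (3 * v ^ 2 + β) ^ 2) =
        ((v ^ 2 + A') * (v ^ 2 + B')) * ((v ^ 2 + p) * (v ^ 2 + q) / (3 * v ^ 2 + β) ^ 2) ^ 2 := by
      field_simp
    rw [this, Real.sqrt_mul (by positivity), Real.sqrt_sq (by positivity)]
  have h3 : (3 : ENNReal) = ENNReal.ofReal 3 := by norm_num
  rw [h3, ← ENNReal.ofReal_mul (abs_nonneg _), ← ENNReal.ofReal_mul (by norm_num), e3,
    abs_of_pos hF'0]
  congr 1
  have hs : 0 < √((v ^ 2 + A') * (v ^ 2 + B')) := Real.sqrt_pos.2 (by positivity)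
  simp only [hF']
  field_simp

end Run7.h896
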