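import Mathlib
import Pool.Agent.Run7.h896.JJ

set_option autoImplicit false

/-! # The radial density `Φ` and its concavity -/

open MeasureTheory Set Real

namespace Run7.h896

/-- the polynomial under the root, as a function of `r` -/
noncomputable def PP (t r : ℝ) : ℝ := 16 * r ^ 3 + t ^ 2 * ((r - 1) * (r + 3) ^ 3)

theorem PP_pos {t r : ℝ} (hr : 1 ≤ r) : 0 < PP t r := by
  unfold PP
  have h1 : 0 ≤ (r - 1) * (r + 3) ^ 3 := mul_nonneg (by linarith) (by positivity)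
  have h2 : 0 < r := by linarith
  positivity

theorem PP_key {t r : ℝ} (hr : 1 < r) (hr3 : r ≤ 3) :
    0 ≤ 4 * PP t r * (24 * r + 2 * t ^ 2 * (r + 3) ^ 2) +
      2 * (r ^ 2 - 1) * PP t r * ((12 + 2 * t ^ 2 * (r + 3)) / r) -
      3 * (r ^ 2 - 1) * (24 * r + 2 * t ^ 2 * (r + 3) ^ 2) ^ 2 := by
  have hr0 : 0 < r := by linarith
  have e : 4 * PP t r * (24 * r + 2 * t ^ 2 * (r + 3) ^ 2) +
      2 * (r ^ 2 - 1) * PP t r * ((12 + 2 * t ^ 2 * (r + 3)) / r) -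
      3 * (r ^ 2 - 1) * (24 * r + 2 * t ^ 2 * (r + 3) ^ 2) ^ 2 =
      (r * (192 * r ^ 4 + 1344 * r ^ 2) +
        t ^ 2 * (8 * (r + 3) * (16 * r ^ 4 * (r + 3) + 12 * r ^ 2 * (r - 1) * (r + 3) ^ 2 +
          8 * r ^ 3 * (r ^ 2 - 1) + 3 * (r ^ 2 - 1) * (r - 1) * (r + 3) ^ 2 -
          36 * r ^ 2 * (r ^ 2 - 1) * (r + 3))) +
        t ^ 4 * ((r - 1) * (r + 3) ^ 4 * (12 * r - 4))) / r := by
    unfold PP
    field_simp
    ring
  rw [e]
  apply div_nonneg _ hr0.le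
  have h1 : 0 ≤ r * (192 * r ^ 4 + 1344 * r ^ 2) := by positivity
  have h2 : 0 ≤ 16 * r ^ 4 * (r + 3) + 12 * r ^ 2 * (r - 1) * (r + 3) ^ 2 +
          8 * r ^ 3 * (r ^ 2 - 1) + 3 * (r ^ 2 - 1) * (r - 1) * (r + 3) ^ 2 -
          36 * r ^ 2 * (r ^ 2 - 1) * (r + 3) := by
    obtain ⟨s, rfl⟩ : ∃ s, r = s + 1 := ⟨r - 1, by ring⟩
    have hs : 0 < s := by linarith
    have hs2 : s ≤ 2 := by linarith
    ring_nf
    nlinarith [mul_pos hs hs, mul_pos (mul_pos hs hs) hs, mul_nonneg hs.le (sub_nonneg.2 hs2),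
      mul_nonneg (mul_pos hs hs).le (sub_nonneg.2 hs2),
      mul_nonneg (mul_pos (mul_pos hs hs) hs).le (sub_nonneg.2 hs2),
      mul_nonneg (mul_pos (mul_pos hs hs) (mul_pos hs hs)).le (sub_nonneg.2 hs2)]
  have h3 : 0 ≤ (r - 1) * (r + 3) ^ 4 * (12 * r - 4) :=
    mul_nonneg (mul_nonneg (by linarith) (by positivity)) (by linarith)
  have h4 : 0 ≤ t ^ 2 * (8 * (r + 3) * (16 * r ^ 4 * (r + 3) + 12 * r ^ 2 * (r - 1) * (r + 3) ^ 2 +
          8 * r ^ 3 * (r ^ 2 - 1) + 3 * (r ^ 2 - 1) * (r - 1) * (r + 3) ^ 2 -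
          36 * r ^ 2 * (r ^ 2 - 1) * (r + 3))) :=
    mul_nonneg (sq_nonneg t) (mul_nonneg (by linarith) h2)
  have h5 : 0 ≤ t ^ 4 * ((r - 1) * (r + 3) ^ 4 * (12 * r - 4)) := mul_nonneg (by positivity) h3
  linarith

theorem hasDerivAt_g {P P1 : ℝ → ℝ} {P2 x : ℝ} (h : HasDerivAt P (P1 x) x) (hpos : 0 < P x) :
    HasDerivAt (fun x => x / √(P x)) ((2 * P x - x * P1 x) / (2 * P x * √(P x))) x := by
  have h1 := (hasDerivAt_id' x).fun_div (h.sqrt hpos.ne') (Real.sqrt_pos.2 hpos).ne'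
  refine h1.congr_deriv ?_
  have hs : 0 < √(P x) := Real.sqrt_pos.2 hpos
  have h2 : √(P x) ^ 2 = P x := Real.sq_sqrt hpos.le
  rw [h2, div_eq_div_iff (by positivity) (by positivity)]
  field_simp
  rw [h2]
  ring

theorem hasDerivAt_g' {P P1 : ℝ → ℝ} {P2 x : ℝ} (h : HasDerivAt P (P1 x) x)
    (h' : HasDerivAt P1 P2 x) (hpos : 0 < P x) :
    HasDerivAt (fun x => (2 * P x - x * P1 x) / (2 * P x * √(P x)))
      (-(4 * P x * P1 x + 2 * x * P x * P2 - 3 * x * P1 x ^ 2) / (4 * P x ^ 2 * √(P x))) x := by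
  have hs : 0 < √(P x) := Real.sqrt_pos.2 hpos
  have h2 : √(P x) ^ 2 = P x := Real.sq_sqrt hpos.le
  have h1 := ((h.const_mul 2).fun_sub ((hasDerivAt_id' x).fun_mul h')).fun_div
    ((h.const_mul 2).fun_mul (h.sqrt hpos.ne')) (by positivity)
  refine h1.congr_deriv ?_
  rw [div_eq_div_iff (by positivity) (by positivity)]
  field_simp
  ring_nf
  simp only [h2]
  ring

theorem hasDerivAt_r {x : ℝ} (hx : 0 < 1 + x) :
    HasDerivAt (fun x => √(1 + x)) (1 / (2 * √(1 + x))) x :=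
  ((hasDerivAt_id' x).const_add 1).sqrt hx.ne'

theorem hasDerivAt_P {t x : ℝ} (hx : 0 < 1 + x) :
    HasDerivAt (fun x => PP t √(1 + x)) (24 * √(1 + x) + 2 * t ^ 2 * (√(1 + x) + 3) ^ 2) x := by
  have hr := hasDerivAt_r hx
  have hs : 0 < √(1 + x) := Real.sqrt_pos.2 hx
  have h1 := ((hr.fun_pow 3).const_mul 16).fun_add
    (((hr.sub_const 1).fun_mul ((hr.add_const 3).fun_pow 3)).const_mul (t ^ 2))
  refine h1.congr_deriv ?_
  push_cast
  field_simp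
  ring

theorem hasDerivAt_P1 {t x : ℝ} (hx : 0 < 1 + x) :
    HasDerivAt (fun x => 24 * √(1 + x) + 2 * t ^ 2 * (√(1 + x) + 3) ^ 2)
      ((12 + 2 * t ^ 2 * (√(1 + x) + 3)) / √(1 + x)) x := by
  have hr := hasDerivAt_r hx
  have hs : 0 < √(1 + x) := Real.sqrt_pos.2 hx
  have h1 := (hr.const_mul 24).fun_add (((hr.add_const 3).fun_pow 2).const_mul (2 * t ^ 2))
  refine h1.congr_deriv ?_
  push_cast
  field_simp
  ring

theorem concave_g (t : ℝ) : ConcaveOn ℝ (Ioc (0:ℝ) 8) (fun x => x / √(PP t √(1 + x))) := by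
  have hbasic : ∀ x ∈ Ioc (0:ℝ) 8, 1 < √(1 + x) ∧ √(1 + x) ≤ 3 ∧ √(1 + x) ^ 2 = 1 + x := by
    intro x hx
    refine ⟨?_, ?_, Real.sq_sqrt (by linarith [hx.1])⟩
    · rw [Real.lt_sqrt (by norm_num)]
      linarith [hx.1]
    · rw [Real.sqrt_le_left (by norm_num)]
      linarith [hx.2]
  refine concaveOn_of_hasDerivWithinAt2_nonpos (convex_Ioc 0 8)
    (f' := fun x => (2 * PP t √(1 + x) - x * (24 * √(1 + x) + 2 * t ^ 2 * (√(1 + x) + 3) ^ 2)) /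
      (2 * PP t √(1 + x) * √(PP t √(1 + x))))
    (f'' := fun x => -(4 * PP t √(1 + x) * (24 * √(1 + x) + 2 * t ^ 2 * (√(1 + x) + 3) ^ 2) +
      2 * x * PP t √(1 + x) * ((12 + 2 * t ^ 2 * (√(1 + x) + 3)) / √(1 + x)) -
      3 * x * (24 * √(1 + x) + 2 * t ^ 2 * (√(1 + x) + 3) ^ 2) ^ 2) /
      (4 * PP t √(1 + x) ^ 2 * √(PP t √(1 + x)))) ?_ ?_ ?_ ?_
  · intro x hx
    exact (hasDerivAt_g (P := fun x => PP t √(1 + x))
      (P1 := fun x => 24 * √(1 + x) + 2 * t ^ 2 * (√(1 + x) + 3) ^ 2) (P2 := 0)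
      (hasDerivAt_P (by linarith [hx.1])) (PP_pos (hbasic x hx).1.le)).continuousAt.continuousWithinAt
  · intro x hx
    rw [interior_Ioc] at hx
    have hx' : x ∈ Ioc (0:ℝ) 8 := ⟨hx.1, hx.2.le⟩
    exact (hasDerivAt_g (P := fun x => PP t √(1 + x))
      (P1 := fun x => 24 * √(1 + x) + 2 * t ^ 2 * (√(1 + x) + 3) ^ 2) (P2 := 0)
      (hasDerivAt_P (by linarith [hx.1])) (PP_pos (hbasic x hx').1.le)).hasDerivWithinAt
  · intro x hx
    rw [interior_Ioc] at hx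
    have hx' : x ∈ Ioc (0:ℝ) 8 := ⟨hx.1, hx.2.le⟩
    exact (hasDerivAt_g' (P := fun x => PP t √(1 + x))
      (P1 := fun x => 24 * √(1 + x) + 2 * t ^ 2 * (√(1 + x) + 3) ^ 2)
      (hasDerivAt_P (by linarith [hx.1])) (hasDerivAt_P1 (by linarith [hx.1]))
      (PP_pos (hbasic x hx').1.le)).hasDerivWithinAt
  · intro x hx
    rw [interior_Ioc] at hx
    have hx' : x ∈ Ioc (0:ℝ) 8 := ⟨hx.1, hx.2.le⟩
    obtain ⟨h1, h2, h3⟩ := hbasic x hx'
    have hk := PP_key (t := t) h1 h2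
    have hx3 : √(1 + x) ^ 2 - 1 = x := by linarith
    rw [hx3] at hk
    have hP := PP_pos (t := t) h1.le
    rw [neg_div]
    exact neg_nonpos.2 (div_nonneg hk (by positivity))

/-- `Φ(w)`, for `0 < w ≤ 8` -/
noncomputable def Phi (w : ℝ) : ℝ :=
  48 * JJ (16 * √(1 + w) ^ 3) ((√(1 + w) - 1) * (√(1 + w) + 3) ^ 3)

theorem concave_Phi : ConcaveOn ℝ (Ioc (0:ℝ) 8) (fun x => x * Phi x) := by
  have hr1 : ∀ x ∈ Ioc (0:ℝ) 8, 1 < √(1 + x) := by
    intro x hx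
    rw [Real.lt_sqrt (by norm_num)]
    linarith [hx.1]
  have hint : ∀ x ∈ Ioc (0:ℝ) 8, IntegrableOn
      (fun t => 48 * (1 / √(1 + t ^ 2)) * (x / √(PP t √(1 + x)))) (Ioi 0) ∧
      x * Phi x = ∫ t in Ioi (0:ℝ), 48 * (1 / √(1 + t ^ 2)) * (x / √(PP t √(1 + x))) := by
    intro x hx
    have h1 := hr1 x hx
    have h0 : 0 < √(1 + x) := by linarith
    have e : ∀ t : ℝ, 48 * (1 / √(1 + t ^ 2)) * (x / √(PP t √(1 + x))) = 48 * x *
        (1 / √((1 + t ^ 2) * (16 * √(1 + x) ^ 3 + (√(1 + x) - 1) * (√(1 + x) + 3) ^ 3 * t ^ 2))) := by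
      intro t
      have e1 : 16 * √(1 + x) ^ 3 + (√(1 + x) - 1) * (√(1 + x) + 3) ^ 3 * t ^ 2 =
          PP t √(1 + x) := by unfold PP; ring
      rw [e1, Real.sqrt_mul (by positivity)]
      field_simp
    constructor
    · simp only [e]
      exact (JJ_int (by positivity) (mul_pos (by linarith) (by positivity))).const_mul _
    · simp only [e]
      rw [integral_const_mul]
      unfold Phi JJ
      ring
  refine ⟨convex_Ioc 0 8, fun x hx y hy a b ha hb hab => ?_⟩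
  have hz : a • x + b • y ∈ Ioc (0:ℝ) 8 := (convex_Ioc 0 8) hx hy ha hb hab
  obtain ⟨i1, e1⟩ := hint x hx
  obtain ⟨i2, e2⟩ := hint y hy
  obtain ⟨i3, e3⟩ := hint _ hz
  beta_reduce
  rw [e1, e2, e3, smul_eq_mul, smul_eq_mul, ← integral_const_mul, ← integral_const_mul,
    ← integral_add (i1.const_mul a) (i2.const_mul b)]
  refine setIntegral_mono ((i1.const_mul a).add (i2.const_mul b)) i3 fun t => ?_
  have h := (concave_g t).2 hx hy ha hb hab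
  beta_reduce at h
  rw [smul_eq_mul, smul_eq_mul] at h
  have h5 : 0 ≤ 48 * (1 / √(1 + t ^ 2)) := by positivity
  calc a * (48 * (1 / √(1 + t ^ 2)) * (x / √(PP t √(1 + x)))) +
        b * (48 * (1 / √(1 + t ^ 2)) * (y / √(PP t √(1 + y))))
      = 48 * (1 / √(1 + t ^ 2)) * (a * (x / √(PP t √(1 + x))) + b * (y / √(PP t √(1 + y)))) := by
        ring
    _ ≤ _ := mul_le_mul_of_nonneg_left h h5

end Run7.h896
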