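import Mathlib
import Pool.Agent.Run7.h896.Ell

set_option autoImplicit false

/-! # The vertex inequality -/

open MeasureTheory Set Real

namespace Run7.h896

/-- the polynomial `b` -/
noncomputable def bb (r : ℝ) : ℝ := (r - 1) * (r + 3) ^ 3

theorem bb_pos {r : ℝ} (h : 1 < r) : 0 < bb r := mul_pos (by linarith) (by positivity)

theorem ratio_mono {r1 r2 : ℝ} (h1 : 0 < r1) (h : r1 ≤ r2) :
    bb r1 * (16 * r2 ^ 3) ≤ bb r2 * (16 * r1 ^ 3) := by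
  have h2 : 0 < r2 := by linarith
  have e : bb r2 * (16 * r1 ^ 3) - bb r1 * (16 * r2 ^ 3) =
      16 * ((r2 - r1) * ((r1 * r2) * (r1 * r2 - 9) ^ 2 + 27 * (r1 - r2) ^ 2)) := by
    unfold bb; ring
  have h3 : 0 ≤ 16 * ((r2 - r1) * ((r1 * r2) * (r1 * r2 - 9) ^ 2 + 27 * (r1 - r2) ^ 2)) := by
    have : 0 ≤ r2 - r1 := by linarith
    positivity
  linarith

theorem cmpA {x1 x2 k : ℝ} (h1 : 0 < x1) (h : x1 ≤ x2) (hk : 0 < k)
    (hc : √(1 + x1) ^ 3 ≤ k ^ 2 * √(1 + x2) ^ 3) : Phi x2 ≤ k * Phi x1 := by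
  have hr1 : 1 < √(1 + x1) := by
    rw [Real.lt_sqrt (by norm_num)]
    linarith
  have hr : √(1 + x1) ≤ √(1 + x2) := Real.sqrt_le_sqrt (by linarith)
  have hm := ratio_mono (by linarith) hr
  set r1 := √(1 + x1)
  set r2 := √(1 + x2)
  have hr2 : 0 < r2 := by linarith
  have hb1 := bb_pos hr1
  have hb : bb r1 ≤ k ^ 2 * bb r2 := by
    have h2 : bb r1 * (16 * r2 ^ 3) ≤ k ^ 2 * bb r2 * (16 * r2 ^ 3) := by
      calc bb r1 * (16 * r2 ^ 3) ≤ bb r2 * (16 * r1 ^ 3) := hm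
        _ ≤ bb r2 * (16 * (k ^ 2 * r2 ^ 3)) := by
          have := (bb_pos (lt_of_lt_of_le hr1 hr)).le
          gcongr
        _ = _ := by ring
    exact le_of_mul_le_mul_right h2 (by positivity)
  have := JJ_le (A := 16 * r1 ^ 3) (B := bb r1) (A' := 16 * r2 ^ 3) (B' := bb r2) (k := k)
    (by positivity) hb1 hk (by nlinarith) hb
  unfold bb at this
  unfold Phi
  linarith

theorem cmpB {x1 x2 k : ℝ} (h1 : 0 < x1) (h : x1 ≤ x2) (hk : 0 < k)
    (hc : bb √(1 + x2) ≤ k ^ 2 * bb √(1 + x1)) : Phi x1 ≤ k * Phi x2 := by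
  have hr1 : 1 < √(1 + x1) := by
    rw [Real.lt_sqrt (by norm_num)]
    linarith
  have hr : √(1 + x1) ≤ √(1 + x2) := Real.sqrt_le_sqrt (by linarith)
  have hm := ratio_mono (by linarith) hr
  set r1 := √(1 + x1)
  set r2 := √(1 + x2)
  have hr2 : 1 < r2 := by linarith
  have hb1 := bb_pos hr1
  have hb2 := bb_pos hr2
  have ha : 16 * r2 ^ 3 ≤ k ^ 2 * (16 * r1 ^ 3) := by
    have h2 : bb r1 * (16 * r2 ^ 3) ≤ bb r1 * (k ^ 2 * (16 * r1 ^ 3)) := by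
      calc bb r1 * (16 * r2 ^ 3) ≤ bb r2 * (16 * r1 ^ 3) := hm
        _ ≤ (k ^ 2 * bb r1) * (16 * r1 ^ 3) := by gcongr
        _ = _ := by ring
    exact le_of_mul_le_mul_left h2 hb1
  have := JJ_le (A := 16 * r2 ^ 3) (B := bb r2) (A' := 16 * r1 ^ 3) (B' := bb r1) (k := k)
    (by positivity) hb2 hk ha hc
  unfold bb at this
  unfold Phi
  linarith

theorem Phi_pos {x : ℝ} (h : 0 < x) : 0 < Phi x := by
  have hr1 : 1 < √(1 + x) := by
    rw [Real.lt_sqrt (by norm_num)]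
    linarith
  exact mul_pos (by norm_num) (JJ_pos (by positivity) (bb_pos hr1))

theorem Phi_anti {x1 x2 : ℝ} (h1 : 0 < x1) (h : x1 ≤ x2) : Phi x2 ≤ Phi x1 := by
  have := cmpA (k := 1) h1 h one_pos (by
    rw [one_pow, one_mul]
    have hr : √(1 + x1) ≤ √(1 + x2) := Real.sqrt_le_sqrt (by linarith)
    gcongr)
  linarith

/-- comparison with `(1+x1)^3 ≤ k^4 (1+x2)^3` -/
theorem cmpA' {x1 x2 k : ℝ} (h1 : 0 < x1) (h : x1 ≤ x2) (hk : 0 < k)
    (hc : (1 + x1) ^ 3 ≤ k ^ 4 * (1 + x2) ^ 3) : Phi x2 ≤ k * Phi x1 := by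
  refine cmpA h1 h hk ?_
  have e1 : √(1 + x1) ^ 2 = 1 + x1 := Real.sq_sqrt (by linarith)
  have e2 : √(1 + x2) ^ 2 = 1 + x2 := Real.sq_sqrt (by linarith)
  refine le_of_sq_le_sq ?_ (by positivity)
  calc (√(1 + x1) ^ 3) ^ 2 = (√(1 + x1) ^ 2) ^ 3 := by ring
    _ = (1 + x1) ^ 3 := by rw [e1]
    _ ≤ k ^ 4 * (1 + x2) ^ 3 := hc
    _ = k ^ 4 * (√(1 + x2) ^ 2) ^ 3 := by rw [e2]
    _ = (k ^ 2 * √(1 + x2) ^ 3) ^ 2 := by ring

/-- `Φ(-z)` -/
noncomputable def Psi (z : ℝ) : ℝ :=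
  48 * JJ ((3 - √(1 - z)) ^ 3 * (1 + √(1 - z))) ((1 - √(1 - z)) * (3 + √(1 - z)) ^ 3)

/-- `(r+3)^3/(r+1)` is monotone -/
theorem cub_mono {r s : ℝ} (hr : 0 ≤ r) (h : r ≤ s) : (r + 3) ^ 3 / (r + 1) ≤ (s + 3) ^ 3 / (s + 1) := by
  have hs : 0 ≤ s := by linarith
  rw [div_le_div_iff₀ (by positivity) (by positivity)]
  have e : (s + 3) ^ 3 * (r + 1) - (r + 3) ^ 3 * (s + 1) =
      (s - r) * (r ^ 2 * s + r * s ^ 2 + r ^ 2 + s ^ 2 + 10 * r * s + 9 * r + 9 * s) := by ring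
  have : 0 ≤ (s - r) * (r ^ 2 * s + r * s ^ 2 + r ^ 2 + s ^ 2 + 10 * r * s + 9 * r + 9 * s) := by
    have : 0 ≤ s - r := by linarith
    positivity
  linarith

theorem bb_eq {r w : ℝ} (hr : 0 < r) (h : r ^ 2 = 1 + w) : bb r = w * ((r + 3) ^ 3 / (r + 1)) := by
  have : w = (r - 1) * (r + 1) := by linarith
  rw [this]
  unfold bb
  field_simp

theorem n0 {z : ℝ} (h0 : 0 < z) (h1 : z ≤ 21 / 25) :
    Psi z ≤ (1 + z / 2 * (1 - z / 4)) * Phi z := by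
  obtain ⟨r, hr, hr0⟩ : ∃ r, r = √(1 - z) ∧ 2 / 5 ≤ r := by
    refine ⟨_, rfl, ?_⟩
    rw [Real.le_sqrt (by norm_num) (by linarith)]
    linarith
  have hr2 : r ^ 2 = 1 - z := by rw [hr, Real.sq_sqrt (by linarith)]
  have hz : z = 1 - r ^ 2 := by linarith
  have hr1 : r < 1 := by nlinarith
  obtain ⟨ρ, hρ⟩ : ∃ ρ, ρ = √(1 + z) := ⟨_, rfl⟩
  have hρ2 : ρ ^ 2 = 1 + z := by rw [hρ, Real.sq_sqrt (by linarith)]
  have hρ0 : 0 ≤ ρ := by rw [hρ]; positivity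
  have hρ1 : 1 < ρ := by nlinarith
  set lam := 1 + z / 2 * (1 - z / 4) with hlam
  have hlam0 : 0 < lam := by
    have : 0 ≤ z / 2 * (1 - z / 4) := mul_nonneg (by linarith) (by linarith)
    linarith
  -- bound for ρ
  have hρA : ρ ≤ 1 + z / 2 - z ^ 2 / 8 + z ^ 3 / 16 := by
    refine le_of_sq_le_sq ?_ ?_
    · rw [hρ2]
      have : (1 + z / 2 - z ^ 2 / 8 + z ^ 3 / 16) ^ 2 - (1 + z) =
        z ^ 4 * (5 / 64 - z / 64 + z ^ 2 / 256) := by ring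
      have h3 : 0 ≤ z ^ 4 * (5 / 64 - z / 64 + z ^ 2 / 256) :=
        mul_nonneg (by positivity) (by nlinarith)
      linarith
    · nlinarith [mul_pos h0 h0, mul_pos (mul_pos h0 h0) h0]
  have hρB : ρ ≤ 1 + z / 2 := by
    refine le_of_sq_le_sq ?_ (by linarith)
    rw [hρ2]
    nlinarith [mul_pos h0 h0]
  have hs : 0 ≤ 1 - r := by linarith
  have hs1 : 1 - r ≤ 3 / 5 := by linarith
  -- A
  have hA : 16 * ρ ^ 3 ≤ lam ^ 2 * ((3 - r) ^ 3 * (1 + r)) := by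
    have h2 : 16 * ρ ^ 3 ≤ 16 * ((1 + z) * (1 + z / 2 - z ^ 2 / 8 + z ^ 3 / 16)) := by
      have : ρ ^ 3 = (1 + z) * ρ := by rw [← hρ2]; ring
      rw [this]
      gcongr
    refine h2.trans ?_
    rw [hlam, hz]
    obtain ⟨s, rfl⟩ : ∃ s, r = 1 - s := ⟨1 - r, by ring⟩
    have hs0 : 0 ≤ s := by linarith
    have hs2 : s ≤ 3 / 5 := by linarith
    have e : (1 + (1 - (1 - s) ^ 2) / 2 * (1 - (1 - (1 - s) ^ 2) / 4)) ^ 2 *
        ((3 - (1 - s)) ^ 3 * (1 + (1 - s))) -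
        16 * ((1 + (1 - (1 - s) ^ 2)) * (1 + (1 - (1 - s) ^ 2) / 2 - (1 - (1 - s) ^ 2) ^ 2 / 8 +
          (1 - (1 - s) ^ 2) ^ 3 / 16)) =
        s ^ 2 * ((16 - 4 * s - 31 * s ^ 2 + 16 * s ^ 3) + 32 * s ^ 3 * (1 - s) +
          8 * s ^ 5 + s ^ 6 / 2 * (1 - s) + s ^ 9 / 64 * (4 - s)) := by ring
    have h3 : 0 ≤ 16 - 4 * s - 31 * s ^ 2 + 16 * s ^ 3 := by nlinarith [pow_nonneg hs0 3]
    have h4 : 0 ≤ 32 * s ^ 3 * (1 - s) := mul_nonneg (by positivity) (by linarith)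
    have h5 : 0 ≤ s ^ 6 / 2 * (1 - s) := mul_nonneg (by positivity) (by linarith)
    have h6 : 0 ≤ s ^ 9 / 64 * (4 - s) := mul_nonneg (by positivity) (by linarith)
    have h7 : 0 ≤ 8 * s ^ 5 := by positivity
    have h8 : 0 ≤ s ^ 2 * ((16 - 4 * s - 31 * s ^ 2 + 16 * s ^ 3) + 32 * s ^ 3 * (1 - s) +
          8 * s ^ 5 + s ^ 6 / 2 * (1 - s) + s ^ 9 / 64 * (4 - s)) :=
      mul_nonneg (sq_nonneg s) (add_nonneg (add_nonneg (add_nonneg (add_nonneg h3 h4) h7) h5) h6)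
    rw [← sub_nonneg, e]
    exact h8
  have hB : bb ρ ≤ lam ^ 2 * ((1 - r) * (3 + r) ^ 3) := by
    rw [bb_eq (by linarith) hρ2]
    have h2 := cub_mono hρ0 hρB
    have h3 : z * ((ρ + 3) ^ 3 / (ρ + 1)) ≤ z * ((1 + z / 2 + 3) ^ 3 / (1 + z / 2 + 1)) := by
      gcongr
    refine h3.trans ?_
    rw [mul_div_assoc', div_le_iff₀ (by positivity)]
    rw [hlam, hz]
    obtain ⟨s, rfl⟩ : ∃ s, r = 1 - s := ⟨1 - r, by ring⟩
    have hs0 : 0 ≤ s := by linarith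
    have hs2 : s ≤ 3 / 5 := by linarith
    have e : (1 + (1 - (1 - s) ^ 2) / 2 * (1 - (1 - (1 - s) ^ 2) / 4)) ^ 2 *
        ((1 - (1 - s)) * (3 + (1 - s)) ^ 3) * (1 + (1 - (1 - s) ^ 2) / 2 + 1) -
        (1 - (1 - s) ^ 2) * (1 + (1 - (1 - s) ^ 2) / 2 + 3) ^ 3 =
        s ^ 2 / 8 * ((1536 - 1408 * s - 1312 * s ^ 2 + 1000 * s ^ 3) + s ^ 3 * (1872 - 1660 * s - 152 * s ^ 2) +
          s ^ 6 * (831 - 618 * s) + s ^ 8 * (265 - 74 * s) + s ^ 10 * (53 / 4 - 11 / 8 * s) +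
          s ^ 12 / 16) := by ring
    have h3 : 0 ≤ 1536 - 1408 * s - 1312 * s ^ 2 + 1000 * s ^ 3 := by nlinarith [pow_nonneg hs0 3]
    have h4 : 0 ≤ s ^ 3 * (1872 - 1660 * s - 152 * s ^ 2) :=
      mul_nonneg (by positivity) (by nlinarith)
    have h5 : 0 ≤ s ^ 6 * (831 - 618 * s) := mul_nonneg (by positivity) (by linarith)
    have h6 : 0 ≤ s ^ 8 * (265 - 74 * s) := mul_nonneg (by positivity) (by linarith)
    have h7 : 0 ≤ s ^ 10 * (53 / 4 - 11 / 8 * s) := mul_nonneg (by positivity) (by linarith)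
    have h9 : 0 ≤ s ^ 12 / 16 := by positivity
    have h8 : 0 ≤ s ^ 2 / 8 * ((1536 - 1408 * s - 1312 * s ^ 2 + 1000 * s ^ 3) + s ^ 3 * (1872 - 1660 * s - 152 * s ^ 2) +
          s ^ 6 * (831 - 618 * s) + s ^ 8 * (265 - 74 * s) + s ^ 10 * (53 / 4 - 11 / 8 * s) +
          s ^ 12 / 16) :=
      mul_nonneg (by positivity) (add_nonneg (add_nonneg (add_nonneg (add_nonneg (add_nonneg
        h3 h4) h5) h6) h7) h9)
    rw [← sub_nonneg, e]
    exact h8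
  have hfin := JJ_le (A := 16 * ρ ^ 3) (B := bb ρ) (A' := (3 - r) ^ 3 * (1 + r))
    (B' := (1 - r) * (3 + r) ^ 3) (k := lam) (by positivity) (bb_pos hρ1) hlam0 hA hB
  unfold Psi Phi
  rw [← hr, ← hρ]
  unfold bb at hfin
  linarith

theorem sqrt5_bd : bb √5 ≤ 1782 / 10 := by
  have h5 : √5 ^ 2 = 5 := Real.sq_sqrt (by norm_num)
  have h6 : √5 ≤ 2237 / 1000 := by
    rw [Real.sqrt_le_left (by norm_num)]
    norm_num
  have : bb √5 = 88 + 40 * √5 := by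
    unfold bb
    have h7 : √5 ^ 3 = 5 * √5 := by rw [pow_succ, h5]
    have h8 : √5 ^ 4 = 25 := by
      have : √5 ^ 4 = (√5 ^ 2) ^ 2 := by ring
      rw [this, h5]; norm_num
    linear_combination h8 + 8 * h7 + 18 * h5
  rw [this]
  linarith

/-- endpoint facts -/
theorem n1a {z : ℝ} (h0 : 0 < z) (h1 : z ≤ 83 / 100) : Phi (4 + z) ≤ 7 / 10 * Phi (3 * z) := by
  refine cmpA' (by linarith) (by linarith) (by norm_num) ?_
  have h2 : 1 + 3 * z ≤ 31 / 50 * (5 + z) := by linarith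
  calc (1 + 3 * z) ^ 3 ≤ (31 / 50 * (5 + z)) ^ 3 := by gcongr
    _ = 29791 / 125000 * (5 + z) ^ 3 := by ring
    _ ≤ (7 / 10) ^ 4 * (1 + (4 + z)) ^ 3 := by
      have : (1 + (4 + z)) = 5 + z := by ring
      rw [this]
      have : 0 ≤ (5 + z) ^ 3 := by positivity
      nlinarith

theorem n1b {z : ℝ} (h0 : 0 < z) (h1 : z ≤ 83 / 100) : Phi z ≤ 19 / 10 * Phi (3 * z) := by
  refine cmpB h0 (by linarith) (by norm_num) ?_
  obtain ⟨r1, hr1⟩ : ∃ r, r = √(1 + z) := ⟨_, rfl⟩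
  obtain ⟨r2, hr2⟩ : ∃ r, r = √(1 + 3 * z) := ⟨_, rfl⟩
  have e1 : r1 ^ 2 = 1 + z := by rw [hr1, Real.sq_sqrt (by linarith)]
  have e2 : r2 ^ 2 = 1 + 3 * z := by rw [hr2, Real.sq_sqrt (by linarith)]
  have p1 : 0 < r1 := by rw [hr1]; exact Real.sqrt_pos.2 (by linarith)
  have p2 : 0 < r2 := by rw [hr2]; exact Real.sqrt_pos.2 (by linarith)
  rw [← hr1, ← hr2, bb_eq p1 e1, bb_eq p2 e2]
  have q2 : r2 ≤ (389 + 300 * z) / 340 := by nlinarith [sq_nonneg (r2 - 17 / 10)]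
  have q1 : 1 + 42 / 100 * z ≤ r1 := by
    refine le_of_sq_le_sq ?_ p1.le
    rw [e1]
    nlinarith
  have m2 := cub_mono p2.le q2
  have m1 := cub_mono (by linarith : (0:ℝ) ≤ 1 + 42 / 100 * z) q1
  have key : 3 * (((389 + 300 * z) / 340 + 3) ^ 3 / ((389 + 300 * z) / 340 + 1)) ≤
      361 / 100 * ((1 + 42 / 100 * z + 3) ^ 3 / (1 + 42 / 100 * z + 1)) := by
    rw [mul_div_assoc', mul_div_assoc', div_le_div_iff₀ (by positivity) (by positivity)]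
    nlinarith [mul_pos h0 h0, mul_pos (mul_pos h0 h0) h0, mul_nonneg h0.le (sub_nonneg.2 h1),
      mul_nonneg (mul_pos h0 h0).le (sub_nonneg.2 h1),
      mul_nonneg (mul_pos (mul_pos h0 h0) h0).le (sub_nonneg.2 h1)]
  have : 3 * z * ((r2 + 3) ^ 3 / (r2 + 1)) ≤ z * (361 / 100 * ((r1 + 3) ^ 3 / (r1 + 1))) := by
    have h3 : 3 * ((r2 + 3) ^ 3 / (r2 + 1)) ≤ 361 / 100 * ((r1 + 3) ^ 3 / (r1 + 1)) := by linarith
    nlinarith
  linarith

theorem n2a {z : ℝ} (h0 : 0 < z) (h1 : z ≤ 83 / 100) :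
    (1 + 15 / 100 * z) * Phi 4 ≤ Phi (4 - z) := by
  have hk : 0 < 1 + 15 / 100 * z := by linarith
  have := cmpA' (x1 := 4 - z) (x2 := 4) (k := 1 / (1 + 15 / 100 * z)) (by linarith) (by linarith)
    (by positivity) (by
      rw [div_pow, one_pow, one_div_mul_eq_div, le_div_iff₀ (by positivity)]
      nlinarith [mul_pos h0 h0, mul_pos (mul_pos h0 h0) h0, mul_nonneg h0.le (sub_nonneg.2 h1),
        mul_nonneg (mul_pos h0 h0).le (sub_nonneg.2 h1), pow_pos h0 4, pow_pos h0 5, pow_pos h0 6,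
        mul_nonneg (pow_pos h0 3).le (sub_nonneg.2 h1), mul_nonneg (pow_pos h0 4).le (sub_nonneg.2 h1),
        mul_nonneg (pow_pos h0 5).le (sub_nonneg.2 h1)])
  rw [one_div_mul_eq_div, le_div_iff₀ hk] at this
  linarith

theorem n2b {z : ℝ} (h0 : 0 < z) (h1 : z ≤ 83 / 100) :
    Phi (4 + z) ≤ (1 - 12 / 100 * z) * Phi 4 := by
  refine cmpA' (by norm_num) (by linarith) (by linarith) ?_
  nlinarith [mul_pos h0 h0, mul_pos (mul_pos h0 h0) h0, mul_nonneg h0.le (sub_nonneg.2 h1),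
        mul_nonneg (mul_pos h0 h0).le (sub_nonneg.2 h1), pow_pos h0 4, pow_pos h0 5, pow_pos h0 6,
        mul_nonneg (pow_pos h0 3).le (sub_nonneg.2 h1), mul_nonneg (pow_pos h0 4).le (sub_nonneg.2 h1),
        mul_nonneg (pow_pos h0 5).le (sub_nonneg.2 h1)]

theorem n2c {z : ℝ} (h0 : 0 < z) (h1 : z ≤ 83 / 100) :
    √z * Phi z ≤ 236 / 100 * Phi 4 := by
  have hs : 0 < √z := Real.sqrt_pos.2 h0
  have hs2 : √z ^ 2 = z := Real.sq_sqrt h0.le
  have := cmpB (x1 := z) (x2 := 4) (k := 236 / 100 / √z) h0 (by linarith) (by positivity) (by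
    have e4 : (1 + 4 : ℝ) = 5 := by norm_num
    rw [e4]
    obtain ⟨r1, hr1⟩ : ∃ r, r = √(1 + z) := ⟨_, rfl⟩
    have e1 : r1 ^ 2 = 1 + z := by rw [hr1, Real.sq_sqrt (by linarith)]
    have p1 : 0 ≤ r1 := by rw [hr1]; positivity
    have p2 : 1 ≤ r1 := by nlinarith
    rw [← hr1, bb_eq (by linarith) e1, div_pow, hs2]
    have m1 := cub_mono (by norm_num : (0:ℝ) ≤ 1) p2
    have e5 : (236 / 100 : ℝ) ^ 2 / z * (z * ((r1 + 3) ^ 3 / (r1 + 1))) =
      (236 / 100) ^ 2 * ((r1 + 3) ^ 3 / (r1 + 1)) := by field_simp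
    rw [e5]
    have := sqrt5_bd
    norm_num at m1 ⊢
    linarith)
  rw [div_mul_eq_mul_div, le_div_iff₀ hs] at this
  linarith

/-- the vertex inequality -/
theorem vertex {x y z : ℝ} (hz : 0 < z) (hz1 : z ≤ 83 / 100) (hzx : z ≤ x) (hzy : z ≤ y)
    (h4 : x + y ≤ 4) (h4z : 4 * z ≤ x + y) :
    (x + y - z) * Phi (8 - (x + y - z)) + z * Psi z ≤ x * Phi x + y * Phi y := by
  obtain ⟨u, hu⟩ : ∃ u, u = x + y - z := ⟨_, rfl⟩
  have hu1 : 3 * z ≤ u := by linarith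
  have hu2 : u ≤ 4 - z := by linarith
  rw [← hu]
  -- step 1
  have c1 : z * Phi z + u * Phi u ≤ x * Phi x + y * Phi y := by
    have hzu : 0 < u - z := by linarith
    have mz : z ∈ Ioc (0:ℝ) 8 := ⟨hz, by linarith⟩
    have mu : u ∈ Ioc (0:ℝ) 8 := ⟨by linarith, by linarith⟩
    have a0 : 0 ≤ (u - x) / (u - z) := div_nonneg (by linarith) hzu.le
    have b0 : 0 ≤ (x - z) / (u - z) := div_nonneg (by linarith) hzu.le
    have ab : (u - x) / (u - z) + (x - z) / (u - z) = 1 := by field_simp; ring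
    have i1 := concave_Phi.2 mz mu a0 b0 ab
    have i2 := concave_Phi.2 mz mu b0 a0 (by rw [add_comm]; exact ab)
    simp only [smul_eq_mul] at i1 i2
    have ex : (u - x) / (u - z) * z + (x - z) / (u - z) * u = x := by field_simp; ring
    have ey : (x - z) / (u - z) * z + (u - x) / (u - z) * u = y := by
      have : y = u + z - x := by linarith
      rw [this]; field_simp; ring
    rw [ex] at i1
    rw [ey] at i2
    have : z * Phi z + u * Phi u = ((u - x) / (u - z) + (x - z) / (u - z)) * (z * Phi z) +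
        ((u - x) / (u - z) + (x - z) / (u - z)) * (u * Phi u) := by rw [ab]; ring
    rw [this]
    linarith
  have c2 : Phi (8 - u) ≤ Phi (4 + z) := Phi_anti (by linarith) (by linarith)
  have c3 : u * Phi (8 - u) ≤ u * Phi (4 + z) := mul_le_mul_of_nonneg_left c2 (by linarith)
  have c4 := n0 hz (by linarith)
  have c5 : z * Psi z ≤ z * ((1 + z / 2 * (1 - z / 4)) * Phi z) :=
    mul_le_mul_of_nonneg_left c4 hz.le
  -- the endpoint estimates
  set K := z * (z / 8 * (4 - z)) * Phi z with hK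
  have pz := Phi_pos hz
  have p4 := Phi_pos (by norm_num : (0:ℝ) < 4)
  have p3 := Phi_pos (by linarith : 0 < 3 * z)
  have k1 : K ≤ 3 * z * (Phi (3 * z) - Phi (4 + z)) := by
    have a1 := n1a hz hz1
    have a2 := n1b hz hz1
    have a3 : z / 8 * (4 - z) ≤ 33 / 100 := by nlinarith
    have a4 : K ≤ z * (33 / 100) * (19 / 10 * Phi (3 * z)) := by
      rw [hK]
      have : 0 ≤ z / 8 * (4 - z) := mul_nonneg (by linarith) (by linarith)
      gcongr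
    nlinarith [mul_pos hz p3]
  have k2 : K ≤ (4 - z) * (Phi (4 - z) - Phi (4 + z)) := by
    have a1 := n2a hz hz1
    have a2 := n2b hz hz1
    have a3 := n2c hz hz1
    have hs2 : √z * √z = z := Real.mul_self_sqrt hz.le
    have hs : 0 < √z := Real.sqrt_pos.2 hz
    have hs3 : √z ≤ 915 / 1000 := by
      rw [Real.sqrt_le_left (by norm_num)]
      linarith
    have a4 : K ≤ z * (4 - z) * (27 / 100 * Phi 4) := by
      calc K = z * (4 - z) * (√z / 8 * (√z * Phi z)) := by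
            rw [hK]; linear_combination (-(z * (4 - z) / 8 * Phi z)) * hs2
        _ ≤ z * (4 - z) * (√z / 8 * (236 / 100 * Phi 4)) := by
            have : 0 ≤ 4 - z := by linarith
            gcongr
        _ ≤ z * (4 - z) * (27 / 100 * Phi 4) := by
            have h1 : 0 ≤ z * (4 - z) := mul_nonneg hz.le (by linarith)
            apply mul_le_mul_of_nonneg_left _ h1
            nlinarith
    have a5 : z * (27 / 100 * Phi 4) ≤ Phi (4 - z) - Phi (4 + z) := by linarith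
    have a6 := mul_le_mul_of_nonneg_left a5 (by linarith : 0 ≤ 4 - z)
    linarith
  -- concavity of θ
  have c6 : K ≤ u * Phi u - u * Phi (4 + z) := by
    have hd : 0 < 4 - 4 * z := by linarith
    have m3 : 3 * z ∈ Ioc (0:ℝ) 8 := ⟨by linarith, by linarith⟩
    have m4 : 4 - z ∈ Ioc (0:ℝ) 8 := ⟨by linarith, by linarith⟩
    have a0 : 0 ≤ (4 - z - u) / (4 - 4 * z) := div_nonneg (by linarith) hd.le
    have b0 : 0 ≤ (u - 3 * z) / (4 - 4 * z) := div_nonneg (by linarith) hd.le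
    have ab : (4 - z - u) / (4 - 4 * z) + (u - 3 * z) / (4 - 4 * z) = 1 := by
      rw [← add_div, div_eq_one_iff_eq hd.ne']; ring
    have i1 := concave_Phi.2 m3 m4 a0 b0 ab
    simp only [smul_eq_mul] at i1
    have eu : (4 - z - u) / (4 - 4 * z) * (3 * z) + (u - 3 * z) / (4 - 4 * z) * (4 - z) = u := by
      rw [div_mul_eq_mul_div, div_mul_eq_mul_div, ← add_div, div_eq_iff hd.ne']; ring
    rw [eu] at i1
    have j1 := mul_le_mul_of_nonneg_left k1 a0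
    have j2 := mul_le_mul_of_nonneg_left k2 b0
    have j3 : K = (4 - z - u) / (4 - 4 * z) * K + (u - 3 * z) / (4 - 4 * z) * K := by
      rw [← add_mul, ab, one_mul]
    have j4 : u * Phi (4 + z) = ((4 - z - u) / (4 - 4 * z) * (3 * z) +
      (u - 3 * z) / (4 - 4 * z) * (4 - z)) * Phi (4 + z) := by rw [eu]
    rw [j3, j4]
    linarith
  have e7 : z * ((1 + z / 2 * (1 - z / 4)) * Phi z) = z * Phi z + K := by rw [hK]; ring
  linarith

end Run7.h896
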