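import Mathlib
import Pool.Agent.Run7.h896.Dens
import Pool.Agent.Run7.h896.VLem

set_option autoImplicit false

/-! # Three-fold density -/

open MeasureTheory Set Real
open scoped ENNReal

namespace Run7.h896

/-- density of the sum of three points -/
noncomputable def SE (z : ℂ) : ℝ≥0∞ := ∫⁻ x, K (z - x) ∂ν

theorem SE_meas : Measurable SE := by
  unfold SE
  apply Measurable.lintegral_prod_right' (f := fun p : ℂ × ℂ => K (p.1 - p.2))
  have := K_meas
  fun_prop

theorem three_dens {Ψ : ℂ → ℝ≥0∞} (h : Measurable Ψ) :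
    ∫⁻ c, ∫⁻ x, ∫⁻ y, Ψ (x + y + c) ∂ν ∂ν ∂ν = ∫⁻ z, Ψ z * SE z := by
  have hK := K_meas
  have e1 : ∀ c : ℂ, ∫⁻ x, ∫⁻ y, Ψ (x + y + c) ∂ν ∂ν = ∫⁻ z, Ψ z * K (z - c) := by
    intro c
    rw [two_dens (Ψ := fun z => Ψ (z + c)) (by fun_prop),
      ← lintegral_add_right_eq_self (fun z => Ψ z * K (z - c)) c]
    simp only [add_sub_cancel_right]
  simp only [e1]
  rw [lintegral_lintegral_swap]
  · congr 1
    ext z
    unfold SE
    rw [lintegral_const_mul _ (by fun_prop)]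
  · refine Measurable.aemeasurable ?_
    simp only [Function.uncurry_def]
    fun_prop

theorem K_rot (s : ℝ) (z : ℂ) : K (E s * z) = K z := by
  unfold K
  rw [Complex.normSq_mul, Complex.normSq_eq_norm_sq (E s), norm_E, one_pow, one_mul]

theorem SE_rot (s : ℝ) (z : ℂ) : SE (E s * z) = SE z := by
  unfold SE
  rw [← lint_rot (Ψ := fun x => K (E s * z - x)) (by have := K_meas; fun_prop) s]
  simp only [← mul_sub, K_rot]

theorem SE_neg (z : ℂ) : SE (-z) = SE z := by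
  have := SE_rot π z
  have e : E π = -1 := by
    unfold E; exact Complex.exp_pi_mul_I
  simpa only [e, neg_one_mul] using this

theorem SE_norm (z : ℂ) : SE z = SE (‖z‖ : ℂ) := by
  have hw : z = E (Complex.arg z) * (‖z‖ : ℂ) := by
    rw [mul_comm]; exact (Complex.norm_mul_exp_arg_mul_I z).symm
  conv_lhs => rw [hw]
  exact SE_rot _ _

theorem SE_real (r : ℝ) :
    SE (r : ℂ) = 2 * ∫⁻ θ in Ioo 0 π, ENNReal.ofReal (kap (r ^ 2 + 1 - 2 * r * Real.cos θ)) := by
  unfold SE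
  rw [lint_ν_Ioc (by have := K_meas; fun_prop) (-π),
    ← lint_even (h := fun θ => ENNReal.ofReal (kap (r ^ 2 + 1 - 2 * r * Real.cos θ)))]
  · congr 1
    ext θ
    unfold K
    congr 2
    rw [E_eq, Complex.normSq_apply]
    simp only [Complex.sub_re, Complex.ofReal_re, Complex.sub_im, Complex.ofReal_im]
    have := Real.sin_sq_add_cos_sq θ
    nlinarith
  · intro θ
    rw [Real.cos_neg]

/-- half-angle substitution -/
theorem half_angle (h : ℝ → ℝ≥0∞) :
    ∫⁻ θ in Ioo 0 π, h (Real.cos θ) =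
      ∫⁻ T in Ioi (0:ℝ), ENNReal.ofReal (2 / (1 + T ^ 2)) * h ((1 - T ^ 2) / (1 + T ^ 2)) := by
  have himg : (fun T => 2 * Real.arctan T) '' Ioi 0 = Ioo 0 π := by
    ext θ
    simp only [mem_image, mem_Ioi, mem_Ioo]
    constructor
    · rintro ⟨T, hT, rfl⟩
      have h1 : 0 < Real.arctan T := Real.arctan_pos.2 hT
      have h2 := Real.arctan_lt_pi_div_two T
      constructor <;> linarith
    · rintro ⟨h0, h1⟩
      refine ⟨Real.tan (θ / 2), Real.tan_pos_of_pos_of_lt_pi_div_two (by linarith) (by linarith), ?_⟩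
      rw [Real.arctan_tan (by linarith) (by linarith)]
      ring
  have hder : ∀ T ∈ Ioi (0:ℝ), HasDerivWithinAt (fun T => 2 * Real.arctan T)
      (2 / (1 + T ^ 2)) (Ioi 0) T := by
    intro T _
    exact (((Real.hasDerivAt_arctan T).const_mul 2).congr_deriv (by ring)).hasDerivWithinAt
  have hinj : InjOn (fun T => 2 * Real.arctan T) (Ioi 0) := by
    intro a _ b _ hab
    have : Real.arctan a = Real.arctan b := by
      simp only at hab
      linarith
    exact Real.arctan_injective this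
  have := lintegral_image_eq_lintegral_abs_deriv_mul measurableSet_Ioi hder hinj
    (fun θ => h (Real.cos θ))
  rw [himg] at this
  rw [this]
  refine setLIntegral_congr_fun measurableSet_Ioi fun T _ => ?_
  beta_reduce
  have h1 : 0 < 1 + T ^ 2 := by positivity
  have e1 : Real.cos (2 * Real.arctan T) = (1 - T ^ 2) / (1 + T ^ 2) := by
    rw [Real.cos_two_mul, Real.cos_sq_arctan]
    field_simp
    ring
  rw [e1, abs_of_pos (by positivity)]

theorem JJ_lint {A B : ℝ} (hA : 0 < A) (hB : 0 < B) :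
    ENNReal.ofReal (JJ A B) = ∫⁻ t in Ioi (0:ℝ), ENNReal.ofReal (1 / √((1 + t ^ 2) * (A + B * t ^ 2))) := by
  unfold JJ
  rw [ofReal_integral_eq_lintegral_ofReal (JJ_int hA hB)]
  exact Filter.Eventually.of_forall fun t => by simp only [Pi.zero_apply]; positivity

/-- linear substitution -/
theorem lint_scale {k : ℝ} (hk : 0 < k) (h : ℝ → ℝ≥0∞) :
    ∫⁻ t in Ioi (0:ℝ), h t = ∫⁻ u in Ioi (0:ℝ), ENNReal.ofReal k * h (k * u) := by
  have himg : (fun u => k * u) '' Ioi 0 = Ioi 0 := by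
    ext x
    simp only [mem_image, mem_Ioi]
    constructor
    · rintro ⟨u, hu, rfl⟩
      positivity
    · intro hx
      exact ⟨x / k, by positivity, by field_simp⟩
  have hder : ∀ u ∈ Ioi (0:ℝ), HasDerivWithinAt (fun u => k * u) k (Ioi 0) u := by
    intro u _
    exact (((hasDerivAt_id' u).const_mul k).congr_deriv (by ring)).hasDerivWithinAt
  have hinj : InjOn (fun u => k * u) (Ioi 0) := by
    intro a _ b _ hab
    simp only at hab
    exact mul_left_cancel₀ hk.ne' hab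
  have := lintegral_image_eq_lintegral_abs_deriv_mul measurableSet_Ioi hder hinj h
  rw [himg, abs_of_pos hk] at this
  exact this

theorem JJ_lint' {A B : ℝ} (hA : 0 < A) (hB : 0 < B) :
    ENNReal.ofReal (JJ A B) =
      ∫⁻ V in Ioi (0:ℝ), ENNReal.ofReal (1 / √((V ^ 2 + A) * (V ^ 2 + B))) := by
  have hk : 0 < √B := Real.sqrt_pos.2 hB
  rw [JJ_lint hA hB, lint_scale hk (fun V => ENNReal.ofReal (1 / √((V ^ 2 + A) * (V ^ 2 + B))))]
  refine setLIntegral_congr_fun measurableSet_Ioi fun t _ => ?_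
  beta_reduce
  rw [← ENNReal.ofReal_mul hk.le]
  congr 1
  have e : ((√B * t) ^ 2 + A) * ((√B * t) ^ 2 + B) = B * ((1 + t ^ 2) * (A + B * t ^ 2)) := by
    rw [mul_pow, Real.sq_sqrt hB.le]; ring
  rw [e, Real.sqrt_mul hB.le]
  have : 0 < √((1 + t ^ 2) * (A + B * t ^ 2)) := Real.sqrt_pos.2 (by positivity)
  field_simp

theorem kap_half (r T : ℝ) : kap (r ^ 2 + 1 - 2 * r * ((1 - T ^ 2) / (1 + T ^ 2))) =
    4 * (1 + T ^ 2) / √(((r - 1) ^ 2 + (r + 1) ^ 2 * T ^ 2) *
      ((3 - r) * (1 + r) - (3 + r) * (r - 1) * T ^ 2)) := by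
  unfold kap
  have h : 0 < 1 + T ^ 2 := by positivity
  have e : (r ^ 2 + 1 - 2 * r * ((1 - T ^ 2) / (1 + T ^ 2))) *
      (4 - (r ^ 2 + 1 - 2 * r * ((1 - T ^ 2) / (1 + T ^ 2)))) =
      (((r - 1) ^ 2 + (r + 1) ^ 2 * T ^ 2) *
      ((3 - r) * (1 + r) - (3 + r) * (r - 1) * T ^ 2)) / (1 + T ^ 2) ^ 2 := by
    field_simp
    ring
  rw [e, Real.sqrt_div' _ (by positivity), Real.sqrt_sq h.le]
  rw [div_div_eq_mul_div]

theorem SE_half (r : ℝ) : SE (r : ℂ) = ∫⁻ T in Ioi (0:ℝ), ENNReal.ofReal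
    (16 / √(((r - 1) ^ 2 + (r + 1) ^ 2 * T ^ 2) *
      ((3 - r) * (1 + r) - (3 + r) * (r - 1) * T ^ 2))) := by
  rw [SE_real, half_angle (fun c => ENNReal.ofReal (kap (r ^ 2 + 1 - 2 * r * c))),
    ← lintegral_const_mul' _ _ (by norm_num)]
  refine setLIntegral_congr_fun measurableSet_Ioi fun T _ => ?_
  beta_reduce
  have h2 : (2 : ℝ≥0∞) = ENNReal.ofReal 2 := by norm_num
  have h : 0 < 1 + T ^ 2 := by positivity
  rw [h2, ← ENNReal.ofReal_mul (by positivity), ← ENNReal.ofReal_mul (by norm_num), kap_half]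
  congr 1
  rw [mul_div_assoc', mul_div_assoc']
  congr 1
  field_simp
  norm_num

/-- inside the unit disc -/
theorem SE_in {r : ℝ} (h0 : 0 < r) (h1 : r < 1) : SE (r : ℂ) = ENNReal.ofReal (Psi (1 - r ^ 2)) := by
  have hA : 0 < (1 + r) ^ 3 * (3 - r) := mul_pos (by positivity) (by linarith)
  have hB : 0 < (1 - r) ^ 3 * (3 + r) := mul_pos (pow_pos (by linarith) 3) (by linarith)
  have hr1 : 0 < 1 + r := by linarith
  have hr2 : 0 < 1 - r := by linarith
  have hr3 : 0 < 3 - r := by linarith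
  have e1 : SE (r : ℂ) = ENNReal.ofReal 16 * ENNReal.ofReal (JJ ((1 + r) ^ 3 * (3 - r)) ((1 - r) ^ 3 * (3 + r))) := by
    have hk : 0 < (1 - r) / (1 + r) := div_pos (by linarith) (by linarith)
    rw [SE_half, lint_scale hk, JJ_lint hA hB, ← lintegral_const_mul' _ _ (by norm_num)]
    refine setLIntegral_congr_fun measurableSet_Ioi fun u hu => ?_
    have hu0 : (0:ℝ) < u := hu
    beta_reduce
    rw [← ENNReal.ofReal_mul hk.le, ← ENNReal.ofReal_mul (by norm_num)]
    congr 1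
    have e2 : ((r - 1) ^ 2 + (r + 1) ^ 2 * ((1 - r) / (1 + r) * u) ^ 2) *
        ((3 - r) * (1 + r) - (3 + r) * (r - 1) * ((1 - r) / (1 + r) * u) ^ 2) =
        ((1 - r) / (1 + r)) ^ 2 * ((1 + u ^ 2) * ((1 + r) ^ 3 * (3 - r) + (1 - r) ^ 3 * (3 + r) * u ^ 2)) := by
      field_simp
      ring
    rw [e2, Real.sqrt_mul (by positivity), Real.sqrt_sq hk.le]
    have : 0 < √((1 + u ^ 2) * ((1 + r) ^ 3 * (3 - r) + (1 - r) ^ 3 * (3 + r) * u ^ 2)) :=
      Real.sqrt_pos.2 (by positivity)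
    field_simp
  have hA' : 0 < (3 - r) ^ 3 * (1 + r) := by positivity
  have hB' : 0 < (1 - r) * (3 + r) ^ 3 := by positivity
  have hc := JJ_cubic (A := (1 + r) ^ 3 * (3 - r)) (B := (1 - r) ^ 3 * (3 + r))
    (A' := (3 - r) ^ 3 * (1 + r)) (B' := (1 - r) * (3 + r) ^ 3)
    (b := 3 * (9 - r ^ 2) * (1 - r ^ 2)) (β := (9 - r ^ 2) ^ 2)
    (p := (1 + r) * (3 - r) * (3 + r) ^ 2) (q := (1 - r) * (3 + r) * (3 - r) ^ 2) hA hB hA' hB'
    (by nlinarith [mul_pos (by nlinarith : 0 < 9 - r ^ 2) (by nlinarith : 0 < 1 - r ^ 2)])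
    (by have : 0 < 9 - r ^ 2 := by nlinarith
        positivity) (by positivity) (by positivity)
    (by ring) (by ring) (by ring) (by ring) (by ring) (by ring) (by ring) (by ring)
  rw [← JJ_lint' hA hB, ← JJ_lint' hA' hB'] at hc
  rw [e1, hc]
  unfold Psi
  have e3 : √(1 - (1 - r ^ 2)) = r := by
    rw [sub_sub_cancel, Real.sqrt_sq h0.le]
  rw [e3]
  have h3 : (3 : ℝ≥0∞) = ENNReal.ofReal 3 := by norm_num
  have hJ := (JJ_pos hA' hB').le
  rw [h3, ← ENNReal.ofReal_mul (by norm_num), ← ENNReal.ofReal_mul (by norm_num)]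
  congr 1
  ring

/-- the substitution for `1 < r < 3` -/
theorem lint_sub {r : ℝ} (h1 : 1 < r) (h3 : r < 3) (h : ℝ → ℝ≥0∞) :
    ∫⁻ T in {T : ℝ | 0 < T ∧ (3 + r) * (r - 1) * T ^ 2 < (r + 1) * (3 - r)}, h T =
      ∫⁻ v in Ioi (0:ℝ), ENNReal.ofReal (√((r + 1) * (3 - r)) * (4 * r) /
        ((4 * r + (r - 1) * (r + 3) * v ^ 2) * √(4 * r + (r - 1) * (r + 3) * v ^ 2))) *
        h (√((r + 1) * (3 - r)) * v / √(4 * r + (r - 1) * (r + 3) * v ^ 2)) := by
  obtain ⟨c, hc⟩ : ∃ c, c = (r + 1) * (3 - r) := ⟨_, rfl⟩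
  obtain ⟨d, hd⟩ : ∃ d, d = (r - 1) * (r + 3) := ⟨_, rfl⟩
  have hc0 : 0 < c := by rw [hc]; exact mul_pos (by linarith) (by linarith)
  have hd0 : 0 < d := by rw [hd]; exact mul_pos (by linarith) (by linarith)
  have hr0 : 0 < r := by linarith
  have hd' : (3 + r) * (r - 1) = d := by rw [hd]; ring
  rw [← hc, ← hd, hd']
  have hD : ∀ v : ℝ, 0 < 4 * r + d * v ^ 2 := fun v => by positivity
  have hder : ∀ v ∈ Ioi (0:ℝ), HasDerivWithinAt (fun v => √c * v / √(4 * r + d * v ^ 2))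
      (√c * (4 * r) / ((4 * r + d * v ^ 2) * √(4 * r + d * v ^ 2))) (Ioi 0) v := by
    intro v _
    have hs : 0 < √(4 * r + d * v ^ 2) := Real.sqrt_pos.2 (hD v)
    have e1 : HasDerivAt (fun v : ℝ => 4 * r + d * v ^ 2) (d * (2 * v)) v :=
      ((((hasDerivAt_id' v).fun_pow 2).const_mul d).const_add (4 * r)).congr_deriv (by simp)
    have e2 : HasDerivAt (fun v : ℝ => √c * v) (√c) v :=
      ((hasDerivAt_id' v).const_mul √c).congr_deriv (by simp)
    have e3 := e2.fun_div (e1.sqrt (hD v).ne') hs.ne'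
    refine (e3.congr_deriv ?_).hasDerivWithinAt
    have h2 : √(4 * r + d * v ^ 2) ^ 2 = 4 * r + d * v ^ 2 := Real.sq_sqrt (hD v).le
    rw [h2, div_eq_div_iff (hD v).ne' (mul_pos (hD v) hs).ne']
    field_simp
    rw [h2]
    ring
  have hsq : ∀ v : ℝ, (√c * v / √(4 * r + d * v ^ 2)) ^ 2 = c * v ^ 2 / (4 * r + d * v ^ 2) := by
    intro v
    rw [div_pow, mul_pow, Real.sq_sqrt hc0.le, Real.sq_sqrt (hD v).le]
  have hinj : InjOn (fun v => √c * v / √(4 * r + d * v ^ 2)) (Ioi 0) := by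
    intro a ha b hb hab
    have ha0 : 0 < a := ha
    have hb0 : 0 < b := hb
    simp only at hab
    have h5 := hsq a
    rw [hab, hsq b, div_eq_div_iff (hD b).ne' (hD a).ne'] at h5
    have h6 : a ^ 2 = b ^ 2 := by
      have : c * (4 * r) * (b ^ 2 - a ^ 2) = 0 := by linear_combination h5
      rcases mul_eq_zero.1 this with h7 | h7
      · exact absurd h7 (by positivity)
      · linarith
    exact (sq_eq_sq₀ ha0.le hb0.le).1 h6
  have himg : (fun v => √c * v / √(4 * r + d * v ^ 2)) '' Ioi 0 = {T : ℝ | 0 < T ∧ d * T ^ 2 < c} := by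
    ext T
    simp only [mem_image, mem_Ioi, mem_ofPred_eq]
    constructor
    · rintro ⟨v, hv, rfl⟩
      have hs : 0 < √(4 * r + d * v ^ 2) := Real.sqrt_pos.2 (hD v)
      have hsc : 0 < √c := Real.sqrt_pos.2 hc0
      refine ⟨by positivity, ?_⟩
      rw [hsq, mul_div_assoc', div_lt_iff₀ (hD v)]
      nlinarith [mul_pos hc0 hr0]
    · rintro ⟨h0, hT⟩
      have hp : 0 < 4 * r / (c - d * T ^ 2) := div_pos (by positivity) (by linarith)
      refine ⟨T * √(4 * r / (c - d * T ^ 2)), mul_pos h0 (Real.sqrt_pos.2 hp), ?_⟩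
      have hsc : 0 < √c := Real.sqrt_pos.2 hc0
      have hne : c - d * T ^ 2 ≠ 0 := by linarith
      have hne2 : c - T ^ 2 * d ≠ 0 := by rw [mul_comm (T ^ 2) d]; exact hne
      have hs := Real.sqrt_pos.2 (hD (T * √(4 * r / (c - d * T ^ 2))))
      rw [← sq_eq_sq₀ (by positivity) h0.le, hsq, mul_pow, Real.sq_sqrt hp.le]
      have h8 : 4 * r + d * (T ^ 2 * (4 * r / (c - d * T ^ 2))) = c * (4 * r) / (c - d * T ^ 2) := by
        field_simp
        ring
      rw [h8]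
      field_simp
  have hfin := lintegral_image_eq_lintegral_abs_deriv_mul measurableSet_Ioi hder hinj h
  rw [himg] at hfin
  rw [hfin]
  refine setLIntegral_congr_fun measurableSet_Ioi fun v _ => ?_
  have hs : 0 < √(4 * r + d * v ^ 2) := Real.sqrt_pos.2 (hD v)
  have hDv := hD v
  have : 0 ≤ √c * (4 * r) / ((4 * r + d * v ^ 2) * √(4 * r + d * v ^ 2)) := by positivity
  beta_reduce
  rw [abs_of_nonneg this]

/-- outside the unit disc -/
theorem SE_out {r : ℝ} (h1 : 1 < r) (h3 : r < 3) : SE (r : ℂ) = ENNReal.ofReal (Phi (r ^ 2 - 1)) := by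
  have hr0 : 0 < r := by linarith
  have hr1 : 0 < r - 1 := by linarith
  have hr3 : 0 < 3 - r := by linarith
  have hA : 0 < 16 * r := by positivity
  have hB : 0 < (r - 1) ^ 3 * (r + 3) := by positivity
  have hc0 : 0 < (r + 1) * (3 - r) := by positivity
  have hms : MeasurableSet {T : ℝ | 0 < T ∧ (3 + r) * (r - 1) * T ^ 2 < (r + 1) * (3 - r)} := by
    measurability
  have e0 : SE (r : ℂ) = ∫⁻ T in {T : ℝ | 0 < T ∧ (3 + r) * (r - 1) * T ^ 2 < (r + 1) * (3 - r)},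
      ENNReal.ofReal (16 / √(((r - 1) ^ 2 + (r + 1) ^ 2 * T ^ 2) *
      ((3 - r) * (1 + r) - (3 + r) * (r - 1) * T ^ 2))) := by
    rw [SE_half, ← lintegral_indicator measurableSet_Ioi, ← lintegral_indicator hms]
    congr 1
    ext T
    by_cases hT : 0 < T
    · by_cases hT2 : (3 + r) * (r - 1) * T ^ 2 < (r + 1) * (3 - r)
      · rw [indicator_of_mem (by exact hT), indicator_of_mem (by exact ⟨hT, hT2⟩)]
      · rw [indicator_of_mem (by exact hT), indicator_of_notMem (by exact fun h => hT2 h.2)]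
        rw [Real.sqrt_eq_zero_of_nonpos, div_zero, ENNReal.ofReal_zero]
        refine mul_nonpos_of_nonneg_of_nonpos (by positivity) ?_
        linarith
    · rw [indicator_of_notMem (by exact hT), indicator_of_notMem (by exact fun h => hT h.1)]
  have e1 : SE (r : ℂ) = ENNReal.ofReal 16 * ENNReal.ofReal (JJ (16 * r) ((r - 1) ^ 3 * (r + 3))) := by
    have hk : 0 < (r - 1) / 2 := by linarith
    rw [e0, lint_sub h1 h3, lint_scale hk, JJ_lint hA hB, ← lintegral_const_mul' _ _ (by norm_num)]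
    refine setLIntegral_congr_fun measurableSet_Ioi fun u hu => ?_
    have hu0 : (0:ℝ) < u := hu
    beta_reduce
    set v := (r - 1) / 2 * u with hv
    have hv0 : 0 < v := by positivity
    have hD : 0 < 4 * r + (r - 1) * (r + 3) * v ^ 2 := by positivity
    have hs : 0 < √(4 * r + (r - 1) * (r + 3) * v ^ 2) := Real.sqrt_pos.2 hD
    have hsc : 0 < √((r + 1) * (3 - r)) := Real.sqrt_pos.2 hc0
    rw [← ENNReal.ofReal_mul (by positivity), ← ENNReal.ofReal_mul hk.le,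
      ← ENNReal.ofReal_mul (by norm_num)]
    congr 1
    have e2 : (√((r + 1) * (3 - r)) * v / √(4 * r + (r - 1) * (r + 3) * v ^ 2)) ^ 2 =
        (r + 1) * (3 - r) * v ^ 2 / (4 * r + (r - 1) * (r + 3) * v ^ 2) := by
      rw [div_pow, mul_pow, Real.sq_sqrt hc0.le, Real.sq_sqrt hD.le]
    have e3 : ((r - 1) ^ 2 + (r + 1) ^ 2 * (√((r + 1) * (3 - r)) * v / √(4 * r + (r - 1) * (r + 3) * v ^ 2)) ^ 2) *
        ((3 - r) * (1 + r) - (3 + r) * (r - 1) * (√((r + 1) * (3 - r)) * v / √(4 * r + (r - 1) * (r + 3) * v ^ 2)) ^ 2) =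
        (4 * r) ^ 2 * (((r + 1) * (3 - r)) * ((r - 1) ^ 2 + 4 * v ^ 2)) /
          (4 * r + (r - 1) * (r + 3) * v ^ 2) ^ 2 := by
      rw [e2]
      field_simp
      ring
    rw [e3]
    clear e3 e2
    generalize (r + 1) * (3 - r) = c at hsc hc0
    have e4 : (r - 1) ^ 2 + 4 * v ^ 2 = (r - 1) ^ 2 * (1 + u ^ 2) := by rw [hv]; ring
    have e5 : 4 * r + (r - 1) * (r + 3) * v ^ 2 = (16 * r + (r - 1) ^ 3 * (r + 3) * u ^ 2) / 2 ^ 2 := by
      rw [hv]; ring
    have hAB : 0 < 16 * r + (r - 1) ^ 3 * (r + 3) * u ^ 2 := by positivity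
    rw [Real.sqrt_div (by positivity), Real.sqrt_mul (by positivity), Real.sqrt_mul hc0.le, e4,
      Real.sqrt_mul (by positivity), Real.sqrt_sq (by positivity), Real.sqrt_sq (by positivity),
      Real.sqrt_sq (by positivity), Real.sqrt_mul (by positivity)]
    have hs1 : 0 < √(1 + u ^ 2) := Real.sqrt_pos.2 (by positivity)
    have hs2 : 0 < √(16 * r + (r - 1) ^ 3 * (r + 3) * u ^ 2) := Real.sqrt_pos.2 hAB
    have e6 : √(4 * r + (r - 1) * (r + 3) * v ^ 2) = √(16 * r + (r - 1) ^ 3 * (r + 3) * u ^ 2) / 2 := by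
      rw [e5, Real.sqrt_div hAB.le, Real.sqrt_sq (by norm_num)]
    rw [e6]
    have hDne := hD.ne'
    field_simp
  have hA' : 0 < 16 * r ^ 3 := by positivity
  have hB' : 0 < (r - 1) * (r + 3) ^ 3 := by positivity
  have hc := JJ_cubic (A := 16 * r) (B := (r - 1) ^ 3 * (r + 3))
    (A' := 16 * r ^ 3) (B' := (r - 1) * (r + 3) ^ 3)
    (b := 12 * r * (r - 1) * (r + 3)) (β := 4 * r ^ 2 * (r + 3) ^ 2)
    (p := 4 * r * (r + 3) ^ 2) (q := 4 * r ^ 2 * (r - 1) * (r + 3)) hA hB hA' hB'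
    (by positivity) (by positivity) (by positivity) (by positivity)
    (by ring) (by ring) (by ring) (by ring) (by ring) (by ring) (by ring) (by ring)
  rw [← JJ_lint' hA hB, ← JJ_lint' hA' hB'] at hc
  rw [e1, hc]
  unfold Phi
  have e3 : √(1 + (r ^ 2 - 1)) = r := by
    rw [add_sub_cancel, Real.sqrt_sq hr0.le]
  rw [e3]
  have h3 : (3 : ℝ≥0∞) = ENNReal.ofReal 3 := by norm_num
  have hJ := (JJ_pos hA' hB').le
  rw [h3, ← ENNReal.ofReal_mul (by norm_num), ← ENNReal.ofReal_mul (by norm_num)]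
  congr 1
  ring

theorem SE_far {r : ℝ} (h3 : 3 ≤ r) : SE (r : ℂ) = 0 := by
  rw [SE_half, setLIntegral_congr_fun (g := fun _ => 0) measurableSet_Ioi, lintegral_zero]
  intro T _
  beta_reduce
  rw [Real.sqrt_eq_zero_of_nonpos, div_zero, ENNReal.ofReal_zero]
  refine mul_nonpos_of_nonneg_of_nonpos (by positivity) ?_
  have h1 : (3 - r) * (1 + r) ≤ 0 := mul_nonpos_of_nonpos_of_nonneg (by linarith) (by linarith)
  have h2 : 0 ≤ (3 + r) * (r - 1) * T ^ 2 :=
    mul_nonneg (mul_nonneg (by linarith) (by linarith)) (sq_nonneg _)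
  linarith

end Run7.h896
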