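import Mathlib
import Pool.Agent.Run7.h896.Dens2

set_option autoImplicit false

/-! # The density is square integrable -/

open MeasureTheory Set Real
open scoped ENNReal

namespace Run7.h896

theorem JJ_m_bound {A B m : ℝ} (hA : 0 < A) (hB : 0 < B) (hm : 0 < m) (h : m ^ 4 ≤ A * B) :
    JJ A B ≤ π / 2 / m := by
  have h1 : ENNReal.ofReal (JJ A B) ≤ ENNReal.ofReal (π / 2 / m) := by
    rw [JJ_lint' hA hB]
    have hAB : 2 * m ^ 2 ≤ A + B := by
      refine abs_le_of_sq_le_sq' ?_ (by positivity) |>.2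
      nlinarith [sq_nonneg (A - B)]
    calc ∫⁻ V in Ioi (0:ℝ), ENNReal.ofReal (1 / √((V ^ 2 + A) * (V ^ 2 + B)))
        ≤ ∫⁻ V in Ioi (0:ℝ), ENNReal.ofReal (1 / (V ^ 2 + m ^ 2)) := by
          refine lintegral_mono fun V => ENNReal.ofReal_le_ofReal ?_
          refine one_div_le_one_div_of_le (by positivity) ?_
          apply Real.le_sqrt_of_sq_le
          nlinarith [mul_nonneg (sq_nonneg V) (sub_nonneg.2 hAB)]
      _ = ∫⁻ u in Ioi (0:ℝ), ENNReal.ofReal (1 / m) * ENNReal.ofReal ((1 + u ^ 2)⁻¹) := by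
          rw [lint_scale hm]
          refine setLIntegral_congr_fun measurableSet_Ioi fun u _ => ?_
          beta_reduce
          rw [← ENNReal.ofReal_mul hm.le, ← ENNReal.ofReal_mul (by positivity)]
          congr 1
          field_simp
          ring
      _ = ENNReal.ofReal (1 / m) * ENNReal.ofReal (π / 2) := by
          rw [lintegral_const_mul' _ _ ENNReal.ofReal_ne_top]
          congr 1
          have h2 : ∫ x in Ioi (0:ℝ), (1 + x ^ 2)⁻¹ = π / 2 := by
            rw [integral_Ioi_inv_one_add_sq, Real.arctan_zero, sub_zero]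
          rw [← h2, ofReal_integral_eq_lintegral_ofReal integrable_inv_one_add_sq.integrableOn]
          exact Filter.Eventually.of_forall fun t => by simp only [Pi.zero_apply]; positivity
      _ = ENNReal.ofReal (π / 2 / m) := by
          rw [← ENNReal.ofReal_mul (by positivity)]
          congr 1
          ring
  exact (ENNReal.ofReal_le_ofReal_iff (by positivity)).1 h1

theorem SE_bound {r : ℝ} (h0 : 0 < r) (h1 : r ≠ 1) :
    SE (r : ℂ) ≤ ENNReal.ofReal (24 * π / √√|r - 1|) := by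
  have hd : 0 < |r - 1| := abs_pos.2 (sub_ne_zero.2 h1)
  have hm : 0 < √√|r - 1| := Real.sqrt_pos.2 (Real.sqrt_pos.2 hd)
  have hm4 : √√|r - 1| ^ 4 = |r - 1| := by
    have : √√|r - 1| ^ 4 = (√√|r - 1| ^ 2) ^ 2 := by ring
    rw [this, Real.sq_sqrt (Real.sqrt_nonneg _), Real.sq_sqrt hd.le]
  rcases lt_or_ge r 3 with h3 | h3
  · rcases lt_or_gt_of_ne h1 with h | h
    · rw [SE_in h0 h]
      refine ENNReal.ofReal_le_ofReal ?_
      unfold Psi
      have e3 : √(1 - (1 - r ^ 2)) = r := by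
        rw [sub_sub_cancel, Real.sqrt_sq h0.le]
      rw [e3]
      have hb := JJ_m_bound (A := (3 - r) ^ 3 * (1 + r)) (B := (1 - r) * (3 + r) ^ 3)
        (m := √√|r - 1|) (mul_pos (pow_pos (by linarith) 3) (by linarith))
        (mul_pos (by linarith) (by positivity)) hm (by
          rw [hm4, abs_of_neg (by linarith)]
          have a1 : 1 ≤ (3 - r) ^ 3 := one_le_pow₀ (by linarith)
          have a2 : 1 ≤ (3 + r) ^ 3 := one_le_pow₀ (by linarith)
          have a3 : 1 ≤ (3 - r) ^ 3 * (1 + r) := by nlinarith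
          have a4 : (1 - r) ≤ (1 - r) * (3 + r) ^ 3 := by nlinarith
          nlinarith)
      calc 48 * JJ ((3 - r) ^ 3 * (1 + r)) ((1 - r) * (3 + r) ^ 3)
          ≤ 48 * (π / 2 / √√|r - 1|) := by linarith
        _ = _ := by ring
    · rw [SE_out h h3]
      refine ENNReal.ofReal_le_ofReal ?_
      unfold Phi
      have e3 : √(1 + (r ^ 2 - 1)) = r := by
        rw [add_sub_cancel, Real.sqrt_sq h0.le]
      rw [e3]
      have hb := JJ_m_bound (A := 16 * r ^ 3) (B := (r - 1) * (r + 3) ^ 3)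
        (m := √√|r - 1|) (by positivity)
        (mul_pos (by linarith) (by positivity)) hm (by
          rw [hm4, abs_of_pos (by linarith)]
          have a1 : 1 ≤ r ^ 3 := one_le_pow₀ h.le
          have a2 : 1 ≤ (r + 3) ^ 3 := one_le_pow₀ (by linarith)
          have a4 : (r - 1) ≤ (r - 1) * (r + 3) ^ 3 := by nlinarith
          nlinarith)
      calc 48 * JJ (16 * r ^ 3) ((r - 1) * (r + 3) ^ 3)
          ≤ 48 * (π / 2 / √√|r - 1|) := by linarith
        _ = _ := by ring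
  · rw [SE_far h3]
    exact zero_le

theorem lint_sqrt : ∫⁻ x in Ioo (0:ℝ) 3, ENNReal.ofReal (1 / √|x - 1|) < ∞ := by
  have h0 : ∫⁻ x in Ioo (0:ℝ) 2, ENNReal.ofReal (1 / √|x|) < ∞ := by
    have h1 : IntegrableOn (fun x : ℝ => x ^ (-(1 / 2) : ℝ)) (Ioo 0 2) :=
      (intervalIntegral.integrableOn_Ioo_rpow_iff (by norm_num)).2 (by norm_num)
    have h2 := h1.lintegral_lt_top
    refine lt_of_eq_of_lt ?_ h2
    refine setLIntegral_congr_fun measurableSet_Ioo fun x hx => ?_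
    beta_reduce
    rw [Real.rpow_neg hx.1.le, ← Real.sqrt_eq_rpow, abs_of_pos hx.1, one_div]
  have h3 : ∫⁻ x in Ioo (-2:ℝ) 0, ENNReal.ofReal (1 / √|x|) < ∞ := by
    have hmp := Measure.measurePreserving_neg (volume : Measure ℝ)
    rw [← (hmp.setLIntegral_comp_preimage_emb (MeasurableEquiv.neg ℝ).measurableEmbedding
      _ (Ioo (-2:ℝ) 0))]
    have : Neg.neg ⁻¹' Ioo (-2:ℝ) 0 = Ioo 0 2 := by
      ext x
      simp [and_comm, neg_lt]
    rw [this]
    simpa only [abs_neg] using h0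
  have h4 : ∫⁻ x in Ioo (-2:ℝ) 2, ENNReal.ofReal (1 / √|x|) < ∞ := by
    rw [← Ioc_union_Ioo_eq_Ioo (b := 0) (by norm_num) (by norm_num)]
    refine (lintegral_union_le _ _ _).trans_lt ?_
    rw [setLIntegral_congr Ioo_ae_eq_Ioc.symm]
    exact ENNReal.add_lt_top.2 ⟨h3, h0⟩
  have hmp := measurePreserving_sub_right (volume : Measure ℝ) 1
  have h5 := hmp.setLIntegral_comp_preimage_emb (MeasurableEquiv.subRight (1:ℝ)).measurableEmbedding
      (fun x => ENNReal.ofReal (1 / √|x|)) (Ioo (-1:ℝ) 2)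
  have h6 : (fun x : ℝ => x - 1) ⁻¹' Ioo (-1:ℝ) 2 = Ioo 0 3 := by
    ext x
    simp only [mem_preimage, mem_Ioo]
    constructor <;> rintro ⟨a, b⟩ <;> constructor <;> linarith
  rw [h6] at h5
  rw [h5]
  exact (lintegral_mono_set (Ioo_subset_Ioo_left (by norm_num))).trans_lt h4

theorem SE_sq : ∫⁻ z, SE z ^ 2 < ∞ := by
  rw [← Complex.lintegral_comp_polarCoord_symm]
  simp only [Complex.polarCoord_symm_apply, polarCoord_target]
  have e1 : ∫⁻ p in Ioi (0:ℝ) ×ˢ Ioo (-π) π, ENNReal.ofReal p.1 •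
      SE (↑p.1 * (↑(Real.cos p.2) + ↑(Real.sin p.2) * Complex.I)) ^ 2 =
      ∫⁻ p in Ioi (0:ℝ) ×ˢ Ioo (-π) π, ENNReal.ofReal p.1 * SE (p.1 : ℂ) ^ 2 := by
    congr 1
    ext p
    have e2 : (p.1:ℂ) * (↑(Real.cos p.2) + ↑(Real.sin p.2) * Complex.I) = E p.2 * p.1 := by
      rw [E_eq]
      apply Complex.ext <;> simp [mul_comm, -Complex.ofReal_cos, -Complex.ofReal_sin]
    rw [e2, SE_rot, smul_eq_mul]
  have hS := SE_meas
  rw [e1, Measure.volume_eq_prod, ← Measure.prod_restrict, lintegral_prod _ (by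
    refine Measurable.aemeasurable ?_
    fun_prop)]
  simp only [lintegral_const]
  rw [lintegral_mul_const' _ _ (by simp)]
  refine ENNReal.mul_lt_top ?_ (by simp)
  have e3 : ∫⁻ ρ in Ioi (0:ℝ), ENNReal.ofReal ρ * SE (ρ : ℂ) ^ 2 =
      ∫⁻ ρ in Ioo (0:ℝ) 3, ENNReal.ofReal ρ * SE (ρ : ℂ) ^ 2 := by
    rw [← Ioo_union_Ici_eq_Ioi (by norm_num : (0:ℝ) < 3), lintegral_union measurableSet_Ici
      (Set.disjoint_left.2 fun x h1 h2 => by exact absurd h1.2 (not_lt.2 h2))]
    have : ∫⁻ ρ in Ici (3:ℝ), ENNReal.ofReal ρ * SE (ρ : ℂ) ^ 2 = 0 := by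
      rw [setLIntegral_congr_fun (g := fun _ => 0) measurableSet_Ici, lintegral_zero]
      intro ρ hρ
      beta_reduce
      rw [SE_far hρ]
      simp
    rw [this, add_zero]
  rw [e3]
  calc ∫⁻ ρ in Ioo (0:ℝ) 3, ENNReal.ofReal ρ * SE (ρ : ℂ) ^ 2
      ≤ ∫⁻ ρ in Ioo (0:ℝ) 3, ENNReal.ofReal (3 * (24 * π) ^ 2) * ENNReal.ofReal (1 / √|ρ - 1|) := by
        refine lintegral_mono_ae ?_
        have hne : ∀ᵐ x : ℝ ∂(volume.restrict (Ioo (0:ℝ) 3)), x ≠ 1 := by
          refine ae_restrict_of_ae ?_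
          exact Measure.ae_ne volume 1
        filter_upwards [hne, ae_restrict_mem measurableSet_Ioo] with ρ h1 h2
        have hb := SE_bound h2.1 h1
        have hd : 0 < |ρ - 1| := abs_pos.2 (sub_ne_zero.2 h1)
        calc ENNReal.ofReal ρ * SE (ρ : ℂ) ^ 2
            ≤ ENNReal.ofReal 3 * ENNReal.ofReal (24 * π / √√|ρ - 1|) ^ 2 := by
              gcongr
              exact h2.2.le
          _ = _ := by
              rw [← ENNReal.ofReal_pow (by positivity), ← ENNReal.ofReal_mul (by norm_num),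
                ← ENNReal.ofReal_mul (by positivity)]
              congr 1
              rw [div_pow, Real.sq_sqrt (Real.sqrt_nonneg _)]
              ring
    _ = ENNReal.ofReal (3 * (24 * π) ^ 2) * ∫⁻ ρ in Ioo (0:ℝ) 3, ENNReal.ofReal (1 / √|ρ - 1|) := by
        rw [lintegral_const_mul' _ _ ENNReal.ofReal_ne_top]
    _ < ∞ := ENNReal.mul_lt_top ENNReal.ofReal_lt_top lint_sqrt

end Run7.h896
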