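import Mathlib
import Pool.Agent.Run7.h896.L2

set_option autoImplicit false

/-! # The mollified density converges to the density -/

open MeasureTheory Set Real Filter Topology
open scoped ENNReal

namespace Run7.h896

/-- the real density -/
noncomputable def S (z : ℂ) : ℝ := (SE z).toReal

theorem S_nonneg (z : ℂ) : 0 ≤ S z := ENNReal.toReal_nonneg

theorem S_meas : Measurable S := SE_meas.ennreal_toReal

theorem S_neg (z : ℂ) : S (-z) = S z := by unfold S; rw [SE_neg]

theorem SE_lt_top : ∀ᵐ z : ℂ, SE z < ∞ := by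
  have h := ae_lt_top (SE_meas.pow_const 2) SE_sq.ne
  filter_upwards [h] with z hz
  by_contra hc
  rw [not_lt, top_le_iff] at hc
  rw [hc] at hz
  simp at hz

theorem ofReal_S : ∀ᵐ z : ℂ, ENNReal.ofReal (S z) = SE z := by
  filter_upwards [SE_lt_top] with z hz
  exact ENNReal.ofReal_toReal hz.ne

theorem S_memLp : MemLp S 2 (volume : Measure ℂ) := by
  refine ⟨S_meas.aestronglyMeasurable, ?_⟩
  rw [eLpNorm_eq_lintegral_rpow_enorm_toReal (by norm_num) (by norm_num)]
  refine ENNReal.rpow_lt_top_of_nonneg (by norm_num) (ne_of_lt ?_)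
  refine lt_of_eq_of_lt (lintegral_congr_ae ?_) SE_sq
  filter_upwards [ofReal_S] with z hz
  rw [← hz, Real.enorm_of_nonneg (S_nonneg z)]
  norm_num

/-- the translation modulus -/
noncomputable def GG (w : ℂ) : ℝ≥0∞ := ∫⁻ y : ℂ, ENNReal.ofReal |S (y - w) - S y| * SE y

theorem GG_meas : Measurable GG := by
  unfold GG
  apply Measurable.lintegral_prod_right'
    (f := fun p : ℂ × ℂ => ENNReal.ofReal |S (p.2 - p.1) - S p.2| * SE p.2)
  have := SE_meas
  have := S_meas
  have h : Measurable fun p : ℂ × ℂ => |S (p.2 - p.1) - S p.2| := by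
    have : Measurable fun p : ℂ × ℂ => S (p.2 - p.1) - S p.2 := by fun_prop
    exact this.abs
  fun_prop

/-- the `L²` norm of the density -/
noncomputable def NS : ℝ≥0∞ := eLpNorm S 2 (volume : Measure ℂ)

theorem GG_le (w : ℂ) : GG w ≤ eLpNorm (fun y => S (y - w) - S y) 2 (volume : Measure ℂ) * NS := by
  unfold GG NS
  have hm : Measurable fun y : ℂ => S (y - w) - S y := by
    have := S_meas
    fun_prop
  have h := ENNReal.lintegral_mul_le_Lp_mul_Lq (volume : Measure ℂ) Real.HolderConjugate.two_two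
    (f := fun y => ENNReal.ofReal |S (y - w) - S y|) (g := SE)
    (by exact hm.abs.ennreal_ofReal.aemeasurable) SE_meas.aemeasurable
  refine h.trans (le_of_eq ?_)
  rw [eLpNorm_eq_lintegral_rpow_enorm_toReal (by norm_num) (by norm_num),
    eLpNorm_eq_lintegral_rpow_enorm_toReal (by norm_num) (by norm_num)]
  have e2 : (2 : ℝ≥0∞).toReal = 2 := by norm_num
  rw [e2]
  congr 2
  · congr 1
    ext y
    rw [Real.enorm_eq_ofReal_abs]
  · refine lintegral_congr_ae ?_
    filter_upwards [ofReal_S] with z hz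
    rw [← hz, Real.enorm_of_nonneg (S_nonneg z)]

theorem trans_cont : Tendsto (fun w : ℂ => eLpNorm (fun y => S (y - w) - S y) 2 (volume : Measure ℂ))
    (𝓝 0) (𝓝 0) := by
  have hmp : ∀ w : ℂ, MeasurePreserving (fun y : ℂ => y - w) volume volume :=
    fun w => measurePreserving_sub_right volume w
  let g : ℂ → C(ℂ, ℂ) := fun w => ⟨fun y => y - w, by fun_prop⟩
  have hg : Continuous g := by
    refine ContinuousMap.continuous_of_continuous_uncurry g ?_
    simp only [g, Function.uncurry_def, ContinuousMap.coe_mk]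
    fun_prop
  have hT := Filter.Tendsto.compMeasurePreservingLp (μ := (volume : Measure ℂ))
    (ν := (volume : Measure ℂ)) (l := 𝓝 (0:ℂ)) (f := fun _ => S_memLp.toLp S)
    (f₀ := S_memLp.toLp S) (g := g) (g₀ := g 0) tendsto_const_nhds (hg.tendsto 0)
    hmp (hmp 0) (by norm_num)
  rw [tendsto_iff_norm_sub_tendsto_zero] at hT
  have e1 : ∀ w : ℂ, ‖(Lp.compMeasurePreserving (g w) (hmp w)) (S_memLp.toLp S) -
      (Lp.compMeasurePreserving (g 0) (hmp 0)) (S_memLp.toLp S)‖ =
      (eLpNorm (fun y => S (y - w) - S y) 2 (volume : Measure ℂ)).toReal := by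
    intro w
    rw [Lp.toLp_compMeasurePreserving, Lp.toLp_compMeasurePreserving, ← MemLp.toLp_sub,
      Lp.norm_toLp]
    congr 2
    ext y
    simp [g]
  simp only [e1] at hT
  have hfin : ∀ w : ℂ, eLpNorm (fun y => S (y - w) - S y) 2 (volume : Measure ℂ) ≠ ∞ := by
    intro w
    exact ((S_memLp.comp_measurePreserving (hmp w)).sub S_memLp).2.ne
  rw [← ENNReal.tendsto_toReal_iff (fun w => hfin w) (by simp)]
  simpa using hT

theorem GG_bdd (w : ℂ) : GG w ≤ 2 * NS * NS := by
  refine (GG_le w).trans ?_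
  gcongr
  have hmp := measurePreserving_sub_right (volume : Measure ℂ) w
  have h1 := eLpNorm_sub_le (p := 2) (μ := (volume : Measure ℂ)) (f := S ∘ fun y => y - w) (g := S)
    (S_memLp.comp_measurePreserving hmp).1 S_memLp.1 (by norm_num)
  rw [eLpNorm_comp_measurePreserving S_memLp.1 hmp, ← two_mul] at h1
  exact h1

theorem GG_small {κ : ℝ} (hκ : 0 < κ) : ∃ ρ : ℝ, 0 < ρ ∧ ∀ w : ℂ, ‖w‖ < ρ → GG w ≤ ENNReal.ofReal κ := by
  have h1 : Tendsto GG (𝓝 0) (𝓝 0) := by
    have h2 : Tendsto (fun w : ℂ => eLpNorm (fun y => S (y - w) - S y) 2 (volume : Measure ℂ) * NS)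
        (𝓝 0) (𝓝 (0 * NS)) :=
      ENNReal.Tendsto.mul_const trans_cont (Or.inr S_memLp.2.ne)
    rw [zero_mul] at h2
    exact tendsto_of_tendsto_of_tendsto_of_le_of_le tendsto_const_nhds h2 (fun _ => zero_le)
      (fun w => GG_le w)
  have h3 := h1.eventually (Iic_mem_nhds (ENNReal.ofReal_pos.2 hκ))
  obtain ⟨ρ, hρ, h4⟩ := Metric.eventually_nhds_iff.1 h3
  exact ⟨ρ, hρ, fun w hw => h4 (by rwa [dist_zero_right])⟩

end Run7.h896
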