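import Mathlib
import Pool.Agent.Run7.h896.Lim

set_option autoImplicit false

/-! # The mollified density converges to the density, part 2 -/

open MeasureTheory Set Real Filter Topology
open scoped ENNReal

namespace Run7.h896

/-- the Gaussian approximate identity -/
noncomputable def eta (ε : ℝ) (z : ℂ) : ℝ :=
  (1 / (π * ε ^ 2)) * Real.exp (-(Complex.normSq z) / ε ^ 2)

theorem eta_cont (ε : ℝ) : Continuous (eta ε) := by
  unfold eta
  have := Complex.continuous_normSq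
  fun_prop

theorem eta_nonneg (ε : ℝ) (z : ℂ) : 0 ≤ eta ε z := by unfold eta; positivity

theorem eta_le (ε : ℝ) (z : ℂ) : eta ε z ≤ 1 / (π * ε ^ 2) := by
  unfold eta
  have h : Real.exp (-(Complex.normSq z) / ε ^ 2) ≤ 1 := by
    rw [Real.exp_le_one_iff]
    exact div_nonpos_of_nonpos_of_nonneg (neg_nonpos.2 (Complex.normSq_nonneg z)) (sq_nonneg ε)
  have h2 : 0 ≤ 1 / (π * ε ^ 2) := by positivity
  nlinarith

theorem eta_neg (ε : ℝ) (z : ℂ) : eta ε (-z) = eta ε z := by unfold eta; rw [Complex.normSq_neg]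

theorem eta_lint {ε : ℝ} (hε : 0 < ε) : ∫⁻ w : ℂ, ENNReal.ofReal (eta ε w) = 1 := by
  have hb : 0 < 1 / ε ^ 2 := by positivity
  have h1 := GaussianFourier.integral_rexp_neg_mul_sq_norm (V := ℂ) hb
  rw [Complex.finrank_real_complex] at h1
  have e1 : π / (1 / ε ^ 2) = π * ε ^ 2 := by field_simp
  have e2 : ((2 : ℕ) : ℝ) / 2 = 1 := by norm_num
  rw [e1, e2, Real.rpow_one] at h1
  have hpos : 0 < π * ε ^ 2 := by positivity
  have hint : Integrable fun v : ℂ => Real.exp (-(1 / ε ^ 2) * ‖v‖ ^ 2) := by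
    by_contra hc
    rw [integral_undef hc] at h1
    linarith
  have e3 : ∀ w : ℂ, eta ε w = (1 / (π * ε ^ 2)) * Real.exp (-(1 / ε ^ 2) * ‖w‖ ^ 2) := by
    intro w
    unfold eta
    rw [Complex.normSq_eq_norm_sq]
    congr 2
    ring
  have e4 : ∫ w : ℂ, eta ε w = 1 := by
    simp only [e3]
    rw [integral_const_mul, h1]
    field_simp
  have hint2 : Integrable (eta ε) := by
    have := hint.const_mul (1 / (π * ε ^ 2))
    refine this.congr (Filter.Eventually.of_forall fun w => ?_)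
    exact (e3 w).symm
  rw [← ofReal_integral_eq_lintegral_ofReal hint2 (Filter.Eventually.of_forall fun w => eta_nonneg ε w),
    e4, ENNReal.ofReal_one]

theorem eta_tail {ε ρ : ℝ} (hε : 0 < ε) (hρ : 0 < ρ) {w : ℂ} (hw : ρ ≤ ‖w‖) :
    eta ε w ≤ 2 * Real.exp (-(ρ ^ 2 / 2) / ε ^ 2) * eta (√2 * ε) w := by
  unfold eta
  have e1 : (√2 * ε) ^ 2 = 2 * ε ^ 2 := by rw [mul_pow, Real.sq_sqrt (by norm_num)]
  rw [e1]
  have h1 : ρ ^ 2 ≤ Complex.normSq w := by
    rw [Complex.normSq_eq_norm_sq]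
    gcongr
  have h2 : Real.exp (-(Complex.normSq w) / ε ^ 2) ≤
      Real.exp (-(ρ ^ 2 / 2) / ε ^ 2) * Real.exp (-(Complex.normSq w) / (2 * ε ^ 2)) := by
    rw [← Real.exp_add, Real.exp_le_exp]
    have h3 : 0 < ε ^ 2 := by positivity
    have e2 : -(ρ ^ 2 / 2) / ε ^ 2 + -(Complex.normSq w) / (2 * ε ^ 2) =
      (-(ρ ^ 2) - Complex.normSq w) / (2 * ε ^ 2) := by field_simp; ring
    have e3 : -(Complex.normSq w) / ε ^ 2 = (-(Complex.normSq w) - Complex.normSq w) / (2 * ε ^ 2) := by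
      field_simp
      ring
    rw [e2, e3]
    gcongr
  calc 1 / (π * ε ^ 2) * Real.exp (-(Complex.normSq w) / ε ^ 2)
      ≤ 1 / (π * ε ^ 2) * (Real.exp (-(ρ ^ 2 / 2) / ε ^ 2) *
        Real.exp (-(Complex.normSq w) / (2 * ε ^ 2))) := by gcongr
    _ = _ := by
      field_simp

theorem exp_bd {ρ ε : ℝ} (hρ : 0 < ρ) (hε : 0 < ε) : Real.exp (-ρ / ε ^ 2) ≤ ε ^ 2 / ρ := by
  have h : 0 < ρ / ε ^ 2 := by positivity
  rw [neg_div, Real.exp_neg]
  calc (Real.exp (ρ / ε ^ 2))⁻¹ ≤ (ρ / ε ^ 2)⁻¹ := by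
        gcongr
        linarith [Real.add_one_le_exp (ρ / ε ^ 2)]
    _ = ε ^ 2 / ρ := by rw [inv_div]

theorem exp_bd2 {ρ ε : ℝ} (hρ : 0 < ρ) (hε : 0 < ε) :
    1 / ε ^ 2 * Real.exp (-ρ / ε ^ 2) ≤ 4 * ε ^ 2 / ρ ^ 2 := by
  have h := exp_bd (ρ := ρ / 2) (by positivity) hε
  have e : Real.exp (-ρ / ε ^ 2) = Real.exp (-(ρ / 2) / ε ^ 2) * Real.exp (-(ρ / 2) / ε ^ 2) := by
    rw [← Real.exp_add]; congr 1; ring
  have h0 := Real.exp_pos (-(ρ / 2) / ε ^ 2)
  rw [e]
  calc 1 / ε ^ 2 * (Real.exp (-(ρ / 2) / ε ^ 2) * Real.exp (-(ρ / 2) / ε ^ 2))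
      ≤ 1 / ε ^ 2 * (ε ^ 2 / (ρ / 2) * (ε ^ 2 / (ρ / 2))) := by gcongr
    _ = _ := by field_simp; ring

theorem lim_GG {κ : ℝ} (hκ : 0 < κ) : ∃ ε₀ : ℝ, 0 < ε₀ ∧ ∀ ε : ℝ, 0 < ε → ε < ε₀ →
    ∫⁻ w, ENNReal.ofReal (eta ε w) * GG w ≤ ENNReal.ofReal κ := by
  obtain ⟨ρ, hρ, hG⟩ := GG_small (κ := κ / 2) (by positivity)
  set C : ℝ := (2 * NS * NS).toReal with hC
  have hCtop : 2 * NS * NS ≠ ∞ := by
    have := S_memLp.2.ne
    unfold NS
    exact ENNReal.mul_ne_top (ENNReal.mul_ne_top (by norm_num) this) this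
  have hCC : ENNReal.ofReal C = 2 * NS * NS := ENNReal.ofReal_toReal hCtop
  have hC0 : 0 ≤ C := ENNReal.toReal_nonneg
  refine ⟨√(κ * ρ ^ 2 / (8 * (C + 1))), Real.sqrt_pos.2 (by positivity), fun ε hε hε2 => ?_⟩
  have hsq : ε ^ 2 < κ * ρ ^ 2 / (8 * (C + 1)) := by
    rwa [Real.lt_sqrt hε.le] at hε2
  have hx := exp_bd (ρ := ρ ^ 2 / 2) (by positivity) hε
  have hbig : C * (2 * Real.exp (-(ρ ^ 2 / 2) / ε ^ 2)) ≤ κ / 2 := by
    have h1 : ε ^ 2 / (ρ ^ 2 / 2) ≤ κ / (4 * (C + 1)) := by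
      rw [div_le_div_iff₀ (by positivity) (by positivity)]
      rw [lt_div_iff₀ (by positivity)] at hsq
      nlinarith
    have h2 : C * (2 * Real.exp (-(ρ ^ 2 / 2) / ε ^ 2)) ≤ (C + 1) * (2 * (κ / (4 * (C + 1)))) := by
      have := hx.trans h1
      gcongr
      linarith
    refine h2.trans (le_of_eq ?_)
    field_simp
    norm_num
  calc ∫⁻ w, ENNReal.ofReal (eta ε w) * GG w
      ≤ ∫⁻ w, (ENNReal.ofReal (κ / 2) * ENNReal.ofReal (eta ε w) +
        ENNReal.ofReal (C * (2 * Real.exp (-(ρ ^ 2 / 2) / ε ^ 2))) * ENNReal.ofReal (eta (√2 * ε) w)) := by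
        refine lintegral_mono fun w => ?_
        rcases lt_or_ge ‖w‖ ρ with h | h
        · calc ENNReal.ofReal (eta ε w) * GG w ≤ ENNReal.ofReal (eta ε w) * ENNReal.ofReal (κ / 2) := by
                gcongr
                exact hG w h
            _ = ENNReal.ofReal (κ / 2) * ENNReal.ofReal (eta ε w) := mul_comm _ _
            _ ≤ _ := le_self_add
        · calc ENNReal.ofReal (eta ε w) * GG w ≤
                ENNReal.ofReal (2 * Real.exp (-(ρ ^ 2 / 2) / ε ^ 2) * eta (√2 * ε) w) *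
                  ENNReal.ofReal C := by
                rw [hCC]
                gcongr
                · exact eta_tail hε hρ h
                · exact GG_bdd w
            _ = ENNReal.ofReal (C * (2 * Real.exp (-(ρ ^ 2 / 2) / ε ^ 2))) * ENNReal.ofReal (eta (√2 * ε) w) := by
                rw [← ENNReal.ofReal_mul (mul_nonneg (by positivity) (eta_nonneg _ _)),
                  ← ENNReal.ofReal_mul (by positivity)]
                congr 1
                ring
            _ ≤ _ := le_add_self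
    _ = ENNReal.ofReal (κ / 2) + ENNReal.ofReal (C * (2 * Real.exp (-(ρ ^ 2 / 2) / ε ^ 2))) := by
        rw [lintegral_add_left (by
            have := (eta_cont ε).measurable
            fun_prop), lintegral_const_mul' _ _ ENNReal.ofReal_ne_top,
          lintegral_const_mul' _ _ ENNReal.ofReal_ne_top, eta_lint hε, eta_lint (by positivity),
          mul_one, mul_one]
    _ ≤ ENNReal.ofReal (κ / 2) + ENNReal.ofReal (κ / 2) := by gcongr
    _ = ENNReal.ofReal κ := by
        rw [← ENNReal.ofReal_add (by positivity) (by positivity)]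
        congr 1
        ring

/-- product measure -/
noncomputable def μ3 : Measure (Fin 3 → ℂ) := Measure.pi fun _ => ν

instance : IsFiniteMeasure μ3 := by unfold μ3; infer_instance

theorem pi_succ {n : ℕ} {H : (Fin (n + 1) → ℂ) → ℝ≥0∞} (hH : Measurable H) :
    ∫⁻ a, H a ∂(Measure.pi fun _ : Fin (n + 1) => ν) =
      ∫⁻ x, ∫⁻ a', H (Fin.cons x a') ∂(Measure.pi fun _ : Fin n => ν) ∂ν := by
  have hmp := (measurePreserving_piFinSuccAbove (fun _ : Fin (n + 1) => ν) 0).symm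
  rw [← hmp.lintegral_comp_emb (MeasurableEquiv.measurableEmbedding _) H, lintegral_prod]
  · congr 1
    ext x
    congr 1
    ext a'
    congr 1
    simp only [MeasurableEquiv.piFinSuccAbove, Fin.insertNthEquiv_zero]
    rfl
  · exact (hH.comp (MeasurableEquiv.measurable _)).aemeasurable

theorem pi3 {H : ℂ → ℝ≥0∞} (hH : Measurable H) :
    ∫⁻ a, H (a 0 + a 1 + a 2) ∂μ3 = ∫⁻ z, H z * SE z := by
  rw [← three_dens hH]
  unfold μ3
  rw [pi_succ (by fun_prop)]
  congr 1
  ext x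
  rw [pi_succ (by fun_prop)]
  congr 1
  ext y
  rw [pi_succ (by fun_prop)]
  congr 1
  ext w
  rw [lintegral_unique]
  have e1 : (Measure.pi fun _ : Fin 0 => ν) univ = 1 := by simp
  rw [e1, mul_one]
  change H (x + y + w) = _
  congr 1
  ring

/-- the mollified density -/
noncomputable def Sig (ε : ℝ) (y : ℂ) : ℝ := ∫ b, eta ε (y + (b 0 + b 1 + b 2)) ∂μ3

theorem Sig_nonneg (ε : ℝ) (y : ℂ) : 0 ≤ Sig ε y := integral_nonneg fun _ => eta_nonneg _ _

theorem Sig_lint {ε : ℝ} (y : ℂ) :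
    ENNReal.ofReal (Sig ε y) = ∫⁻ w, ENNReal.ofReal (eta ε w) * SE (y - w) := by
  have hm := (eta_cont ε).measurable
  unfold Sig
  have hint : Integrable (fun b : Fin 3 → ℂ => eta ε (y + (b 0 + b 1 + b 2))) μ3 := by
    have hmb : Measurable (fun b : Fin 3 → ℂ => eta ε (y + (b 0 + b 1 + b 2))) := by fun_prop
    refine Integrable.of_bound hmb.aestronglyMeasurable (1 / (π * ε ^ 2))
      (Filter.Eventually.of_forall fun b => ?_)
    rw [Real.norm_of_nonneg (eta_nonneg _ _)]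
    exact eta_le _ _
  rw [ofReal_integral_eq_lintegral_ofReal hint (Filter.Eventually.of_forall fun b => eta_nonneg _ _),
    pi3 (H := fun z => ENNReal.ofReal (eta ε (y + z))) (by fun_prop)]
  calc ∫⁻ z, ENNReal.ofReal (eta ε (y + z)) * SE z
      = ∫⁻ z, ENNReal.ofReal (eta ε (y - z)) * SE z := by
        rw [← lintegral_neg_eq_self (μ := (volume : Measure ℂ)) (fun z => ENNReal.ofReal (eta ε (y + z)) * SE z)]
        congr 1
        ext z
        rw [SE_neg, sub_eq_add_neg]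
    _ = ∫⁻ w, ENNReal.ofReal (eta ε w) * SE (y - w) := by
        rw [← lintegral_sub_left_eq_self (μ := (volume : Measure ℂ))
          (fun w => ENNReal.ofReal (eta ε w) * SE (y - w)) y]
        simp only [sub_sub_cancel]

theorem Sig_meas (ε : ℝ) : Measurable (Sig ε) := by
  have hm := (eta_cont ε).measurable
  unfold Sig
  have h : StronglyMeasurable fun p : ℂ × (Fin 3 → ℂ) => eta ε (p.1 + (p.2 0 + p.2 1 + p.2 2)) := by
    apply Measurable.stronglyMeasurable
    fun_prop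
  exact h.integral_prod_right'.measurable

theorem Sig_neg (ε : ℝ) (y : ℂ) : Sig ε (-y) = Sig ε y := by
  have h1 := Sig_lint (ε := ε) (-y)
  have h2 := Sig_lint (ε := ε) y
  have h3 : ∫⁻ w, ENNReal.ofReal (eta ε w) * SE (-y - w) = ∫⁻ w, ENNReal.ofReal (eta ε w) * SE (y - w) := by
    rw [← lintegral_neg_eq_self (μ := (volume : Measure ℂ)) (fun w => ENNReal.ofReal (eta ε w) * SE (y - w))]
    congr 1
    ext z
    rw [eta_neg, ← SE_neg (-y - z)]
    congr 2
    ring
  rw [h3, ← h2] at h1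
  exact (ENNReal.ofReal_eq_ofReal_iff (Sig_nonneg _ _) (Sig_nonneg _ _)).1 h1

theorem ofReal_abs_sub_le {a b : ℝ} {A B D : ℝ≥0∞} (ha : ENNReal.ofReal a = A)
    (hb : ENNReal.ofReal b = B) (ha0 : 0 ≤ a) (hb0 : 0 ≤ b) (h1 : A ≤ B + D) (h2 : B ≤ A + D) :
    ENNReal.ofReal |a - b| ≤ D := by
  subst ha hb
  rcases le_total a b with h | h
  · rw [abs_of_nonpos (by linarith), neg_sub, ENNReal.ofReal_sub _ ha0, tsub_le_iff_left]
    exact h2
  · rw [abs_of_nonneg (by linarith), ENNReal.ofReal_sub _ hb0, tsub_le_iff_left]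
    exact h1

theorem Sig_sub {ε : ℝ} (hε : 0 < ε) {y : ℂ} (hy : SE y < ∞) :
    ENNReal.ofReal |Sig ε y - S y| ≤
      ∫⁻ w, ENNReal.ofReal (eta ε w) * ENNReal.ofReal |S (y - w) - S y| := by
  have hm := (eta_cont ε).measurable
  have hS := S_meas
  have hSy : ENNReal.ofReal (S y) = ∫⁻ w, ENNReal.ofReal (eta ε w) * ENNReal.ofReal (S y) := by
    rw [lintegral_mul_const' _ _ ENNReal.ofReal_ne_top, eta_lint hε, one_mul]
  have hae : ∀ᵐ w : ℂ, ENNReal.ofReal (S (y - w)) = SE (y - w) := by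
    have hmp : MeasurePreserving (fun w : ℂ => y - w) volume volume :=
      Measure.measurePreserving_sub_left volume y
    exact hmp.quasiMeasurePreserving.ae ofReal_S
  have hSig : ENNReal.ofReal (Sig ε y) = ∫⁻ w, ENNReal.ofReal (eta ε w) * ENNReal.ofReal (S (y - w)) := by
    rw [Sig_lint y]
    refine lintegral_congr_ae ?_
    filter_upwards [hae] with w hw
    rw [hw]
  have hmm : Measurable fun w : ℂ => |S (y - w) - S y| := by
    have : Measurable fun w : ℂ => S (y - w) - S y := by fun_prop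
    exact this.abs
  refine ofReal_abs_sub_le hSig hSy (Sig_nonneg _ _) (S_nonneg _) ?_ ?_
  · rw [← lintegral_add_left (by fun_prop)]
    refine lintegral_mono fun w => ?_
    rw [← mul_add, ← ENNReal.ofReal_add (S_nonneg _) (abs_nonneg _)]
    gcongr
    linarith [le_abs_self (S (y - w) - S y)]
  · rw [← lintegral_add_left (by fun_prop)]
    refine lintegral_mono fun w => ?_
    rw [← mul_add, ← ENNReal.ofReal_add (S_nonneg _) (abs_nonneg _)]
    gcongr
    linarith [neg_abs_le (S (y - w) - S y)]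

theorem limC {κ : ℝ} (hκ : 0 < κ) : ∃ ε₀ : ℝ, 0 < ε₀ ∧ ∀ ε : ℝ, 0 < ε → ε < ε₀ →
    ∫⁻ a, ENNReal.ofReal |Sig ε (a 0 + a 1 + a 2) - S (a 0 + a 1 + a 2)| ∂μ3 ≤ ENNReal.ofReal κ := by
  obtain ⟨ε₀, h0, h⟩ := lim_GG hκ
  refine ⟨ε₀, h0, fun ε hε hε2 => le_trans ?_ (h ε hε hε2)⟩
  have hm := (eta_cont ε).measurable
  have hS := S_meas
  have hSE := SE_meas
  have hSig := Sig_meas ε
  have hmm : Measurable fun z : ℂ => |Sig ε z - S z| := by
    have : Measurable fun z : ℂ => Sig ε z - S z := by fun_prop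
    exact this.abs
  have hm2 : Measurable fun p : ℂ × ℂ => |S (p.2 - p.1) - S p.2| := by
    have : Measurable fun p : ℂ × ℂ => S (p.2 - p.1) - S p.2 := by fun_prop
    exact this.abs
  rw [pi3 (H := fun z => ENNReal.ofReal |Sig ε z - S z|) (by fun_prop)]
  calc ∫⁻ z, ENNReal.ofReal |Sig ε z - S z| * SE z
      ≤ ∫⁻ z, ∫⁻ w, ENNReal.ofReal (eta ε w) * (ENNReal.ofReal |S (z - w) - S z| * SE z) := by
        refine lintegral_mono_ae ?_
        filter_upwards [SE_lt_top] with z hz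
        calc ENNReal.ofReal |Sig ε z - S z| * SE z
            ≤ (∫⁻ w, ENNReal.ofReal (eta ε w) * ENNReal.ofReal |S (z - w) - S z|) * SE z := by
              gcongr
              exact Sig_sub hε hz
          _ = _ := by
              rw [← lintegral_mul_const' _ _ hz.ne]
              simp only [mul_assoc]
    _ = ∫⁻ w, ∫⁻ z, ENNReal.ofReal (eta ε w) * (ENNReal.ofReal |S (z - w) - S z| * SE z) := by
        rw [lintegral_lintegral_swap]
        refine Measurable.aemeasurable ?_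
        have hm3 : Measurable fun p : ℂ × ℂ => |S (p.1 - p.2) - S p.1| := by
          have : Measurable fun p : ℂ × ℂ => S (p.1 - p.2) - S p.1 := by fun_prop
          exact this.abs
        simp only [Function.uncurry_def]
        fun_prop
    _ = ∫⁻ w, ENNReal.ofReal (eta ε w) * GG w := by
        congr 1
        ext w
        rw [lintegral_const_mul' _ _ ENNReal.ofReal_ne_top]
        rfl

end Run7.h896
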