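import Mathlib
import Pool.Agent.Run7.h896.Lim2

set_option autoImplicit false

/-! # Symmetries of the product measures -/

open MeasureTheory Set Real Filter Topology
open scoped ENNReal

namespace Run7.h896

/-- product of six -/
noncomputable def μ6 : Measure (Fin 6 → ℂ) := Measure.pi fun _ => ν

instance : IsFiniteMeasure μ6 := by unfold μ6; infer_instance

theorem ae_units6 : ∀ᵐ x ∂μ6, ∀ j, ‖x j‖ = 1 := by
  unfold μ6
  rw [ae_all_iff]
  intro j
  exact (Measure.tendsto_eval_ae_ae (μ := fun _ : Fin 6 => ν) (i := j)).eventually ae_norm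

theorem ae_units3 : ∀ᵐ x ∂μ3, ∀ j, ‖x j‖ = 1 := by
  unfold μ3
  rw [ae_all_iff]
  intro j
  exact (Measure.tendsto_eval_ae_ae (μ := fun _ : Fin 3 => ν) (i := j)).eventually ae_norm

theorem perm_mp (σ : Equiv.Perm (Fin 6)) : MeasurePreserving (fun (x : Fin 6 → ℂ) j => x (σ j)) μ6 μ6 := by
  have h := measurePreserving_piCongrLeft (α := fun _ : Fin 6 => ℂ) (fun _ => ν) σ.symm
  have e : (⇑(MeasurableEquiv.piCongrLeft (fun _ : Fin 6 => ℂ) σ.symm)) =
      (fun (x : Fin 6 → ℂ) j => x (σ j)) := by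
    ext x j
    rw [MeasurableEquiv.coe_piCongrLeft]
    have := Equiv.piCongrLeft_apply_apply (fun _ : Fin 6 => ℂ) σ.symm x (σ j)
    rw [Equiv.symm_apply_apply] at this
    exact this
  rw [e] at h
  exact h

theorem perm_int (σ : Equiv.Perm (Fin 6)) {H : (Fin 6 → ℂ) → ℝ} (hH : Measurable H) :
    ∫ x, H (fun j => x (σ j)) ∂μ6 = ∫ x, H x ∂μ6 := by
  have h := perm_mp σ
  conv_rhs => rw [← h.map_eq]
  rw [integral_map h.measurable.aemeasurable hH.aestronglyMeasurable]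

theorem neg6_mp : MeasurePreserving (fun (x : Fin 6 → ℂ) j => -x j) μ6 μ6 :=
  measurePreserving_pi (fun _ : Fin 6 => ν) (fun _ => ν) (fun _ => neg_mp)

theorem neg6_int {H : (Fin 6 → ℂ) → ℝ} (hH : Measurable H) :
    ∫ x, H (fun j => - x j) ∂μ6 = ∫ x, H x ∂μ6 := by
  have h := neg6_mp
  conv_rhs => rw [← h.map_eq]
  rw [integral_map h.measurable.aemeasurable hH.aestronglyMeasurable]

/-- sign changes -/
theorem sgn_mp (s : Fin 3 → Bool) :
    MeasurePreserving (fun (x : Fin 3 → ℂ) j => if s j then - x j else x j) μ3 μ3 := by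
  have : ∀ j : Fin 3, MeasurePreserving (fun x : ℂ => if s j then -x else x) ν ν := by
    intro j
    by_cases h : s j
    · simpa only [h, if_true] using neg_mp
    · simp only [h, Bool.false_eq_true, if_false]
      exact MeasurePreserving.id ν
  exact measurePreserving_pi (fun _ : Fin 3 => ν) (fun _ => ν) this

theorem sgn_int (s : Fin 3 → Bool) {H : (Fin 3 → ℂ) → ℝ} (hH : Measurable H) :
    ∫ x, H (fun j => if s j then - x j else x j) ∂μ3 = ∫ x, H x ∂μ3 := by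
  have h := sgn_mp s
  conv_rhs => rw [← h.map_eq]
  rw [integral_map h.measurable.aemeasurable hH.aestronglyMeasurable]

/-- gluing -/
def glue (p : (Fin 3 → ℂ) × (Fin 3 → ℂ)) : Fin 6 → ℂ := fun j => Sum.elim p.1 p.2 (finSumFinEquiv.symm j : Fin 3 ⊕ Fin 3)

theorem glue_mp : MeasurePreserving glue (μ3.prod μ3) μ6 := by
  have h1 := measurePreserving_sumPiEquivProdPi_symm (X := fun _ : Fin 3 ⊕ Fin 3 => ℂ) (fun _ => ν)
  have h2 := measurePreserving_piCongrLeft (α := fun _ : Fin 6 => ℂ) (fun _ => ν)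
    (finSumFinEquiv : Fin 3 ⊕ Fin 3 ≃ Fin 6)
  have h3 := h2.comp h1
  have e : (⇑(MeasurableEquiv.piCongrLeft (fun _ : Fin 6 => ℂ) (finSumFinEquiv : Fin 3 ⊕ Fin 3 ≃ Fin 6)) ∘
      ⇑(MeasurableEquiv.sumPiEquivProdPi fun _ : Fin 3 ⊕ Fin 3 => ℂ).symm) = glue := by
    ext p j
    simp only [Function.comp_apply]
    rw [MeasurableEquiv.coe_piCongrLeft]
    have := Equiv.piCongrLeft_apply_apply (fun _ : Fin 6 => ℂ) (finSumFinEquiv : Fin 3 ⊕ Fin 3 ≃ Fin 6)
      ((MeasurableEquiv.sumPiEquivProdPi fun _ : Fin 3 ⊕ Fin 3 => ℂ).symm p) (finSumFinEquiv.symm j)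
    rw [Equiv.apply_symm_apply] at this
    rw [this]
    unfold glue
    rcases h : (finSumFinEquiv.symm j : Fin 3 ⊕ Fin 3) with i | i
    · rfl
    · rfl
  rw [e] at h3
  exact h3

theorem glue_castAdd (p : (Fin 3 → ℂ) × (Fin 3 → ℂ)) (i : Fin 3) :
    glue p (Fin.castAdd 3 i) = p.1 i := by
  unfold glue
  rw [finSumFinEquiv_symm_apply_castAdd]
  rfl

theorem glue_natAdd (p : (Fin 3 → ℂ) × (Fin 3 → ℂ)) (i : Fin 3) :
    glue p (Fin.natAdd 3 i) = p.2 i := by
  unfold glue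
  rw [finSumFinEquiv_symm_apply_natAdd]
  rfl

theorem glue_sum (p : (Fin 3 → ℂ) × (Fin 3 → ℂ)) :
    ∑ j, glue p j = (p.1 0 + p.1 1 + p.1 2) + (p.2 0 + p.2 1 + p.2 2) := by
  have := Fin.sum_univ_add (a := 3) (b := 3) (glue p)
  refine this.trans ?_
  simp only [glue_castAdd, glue_natAdd, Fin.sum_univ_three]

theorem split_int {ε : ℝ} {k : (Fin 3 → ℂ) → ℝ} (hk : Measurable k) {C : ℝ}
    (hb : ∀ᵐ a ∂μ3, |k a| ≤ C) :
    ∫ x, k (fun i => x (Fin.castAdd 3 i)) * eta ε (∑ j, x j) ∂μ6 =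
      ∫ a, k a * Sig ε (a 0 + a 1 + a 2) ∂μ3 := by
  have hm := (eta_cont ε).measurable
  have hH : Measurable fun x : Fin 6 → ℂ => k (fun i => x (Fin.castAdd 3 i)) * eta ε (∑ j, x j) := by
    fun_prop
  rw [← glue_mp.map_eq, integral_map glue_mp.measurable.aemeasurable hH.aestronglyMeasurable]
  have e1 : ∀ p : (Fin 3 → ℂ) × (Fin 3 → ℂ), k (fun i => glue p (Fin.castAdd 3 i)) *
      eta ε (∑ j, glue p j) = k p.1 * eta ε ((p.1 0 + p.1 1 + p.1 2) + (p.2 0 + p.2 1 + p.2 2)) := by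
    intro p
    rw [glue_sum]
    simp only [glue_castAdd]
  simp only [e1]
  have hmF : Measurable fun p : (Fin 3 → ℂ) × (Fin 3 → ℂ) =>
      k p.1 * eta ε ((p.1 0 + p.1 1 + p.1 2) + (p.2 0 + p.2 1 + p.2 2)) := by
    fun_prop
  have hint : Integrable (fun p : (Fin 3 → ℂ) × (Fin 3 → ℂ) =>
      k p.1 * eta ε ((p.1 0 + p.1 1 + p.1 2) + (p.2 0 + p.2 1 + p.2 2))) (μ3.prod μ3) := by
    refine Integrable.of_bound hmF.aestronglyMeasurable (C * (1 / (π * ε ^ 2))) ?_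
    have h1 : ∀ᵐ p ∂(μ3.prod μ3), |k p.1| ≤ C := Measure.quasiMeasurePreserving_fst.ae hb
    filter_upwards [h1] with p hp
    rw [norm_mul, Real.norm_eq_abs, Real.norm_of_nonneg (eta_nonneg _ _)]
    exact mul_le_mul hp (eta_le _ _) (eta_nonneg _ _) ((abs_nonneg _).trans hp)
  rw [integral_prod _ hint]
  congr 1
  ext a
  simp only
  rw [integral_const_mul]
  rfl

/-- conversion of the angular integral -/
theorem int_conv {H : (Fin 6 → ℂ) → ℝ} (hH : Measurable H) :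
    ∫ θ in Set.pi univ (fun _ : Fin 6 => Icc (0:ℝ) (2 * π)), H (fun j => E (θ j)) = ∫ x, H x ∂μ6 := by
  have h1 : (volume : Measure (Fin 6 → ℝ)).restrict (Set.pi univ (fun _ : Fin 6 => Icc (0:ℝ) (2 * π))) =
      Measure.pi fun _ : Fin 6 => (volume : Measure ℝ).restrict (Icc (0:ℝ) (2 * π)) := by
    rw [volume_pi, Measure.restrict_pi_pi]
  rw [h1]
  have hmp : MeasurePreserving (fun (θ : Fin 6 → ℝ) j => E (θ j))
      (Measure.pi fun _ : Fin 6 => (volume : Measure ℝ).restrict (Icc (0:ℝ) (2 * π))) μ6 := by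
    refine measurePreserving_pi (fun _ : Fin 6 => (volume : Measure ℝ).restrict (Icc (0:ℝ) (2 * π)))
      (fun _ => ν) (fun _ => ⟨E_meas, rfl⟩)
  rw [← hmp.map_eq, integral_map hmp.measurable.aemeasurable hH.aestronglyMeasurable]

end Run7.h896
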