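import Mathlib
import Pool.Agent.Run7.h896.Fun
import Pool.Agent.Run7.h896.Sym

set_option autoImplicit false

/-! # Upper bound of the left-hand side -/

open MeasureTheory Set Real Filter Topology
open scoped ENNReal

namespace Run7.h896

/-- the six-linear integrand without weight -/
noncomputable def HH (f : ℝ → ℝ) (ε : ℝ) (x : Fin 6 → ℂ) : ℝ := eta ε (∑ j, x j) * ∏ j, ft f (x j)

theorem HH_meas {f : ℝ → ℝ} (hf : Measurable f) (ε : ℝ) : Measurable (HH f ε) := by
  unfold HH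
  have := ft_meas hf
  have := (eta_cont ε).measurable
  fun_prop

theorem HH_perm (f : ℝ → ℝ) (ε : ℝ) (σ : Equiv.Perm (Fin 6)) (x : Fin 6 → ℂ) :
    HH f ε (fun j => x (σ j)) = HH f ε x := by
  unfold HH
  rw [Equiv.sum_comp σ x, Equiv.prod_comp σ (fun j => ft f (x j))]

theorem HH_le {f : ℝ → ℝ} {M : ℝ} (hM : ∀ θ, |f θ| ≤ M) (ε : ℝ) (x : Fin 6 → ℂ) :
    |HH f ε x| ≤ M ^ 6 * eta ε (∑ j, x j) := by
  unfold HH
  rw [abs_mul, abs_of_nonneg (eta_nonneg _ _), Finset.abs_prod, mul_comm]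
  have : ∏ j : Fin 6, |ft f (x j)| ≤ ∏ _j : Fin 6, M :=
    Finset.prod_le_prod (fun _ _ => abs_nonneg _) (fun j _ => hM _)
  rw [Finset.prod_const, Finset.card_univ, Fintype.card_fin] at this
  exact mul_le_mul_of_nonneg_right this (eta_nonneg _ _)

/-- pair product -/
noncomputable def rr (i j : Fin 6) (x : Fin 6 → ℂ) : ℝ := (x i * star (x j)).re

theorem rr_meas (i j : Fin 6) : Measurable (rr i j) := by
  unfold rr
  have h : Continuous fun x : Fin 6 → ℂ => (x i * star (x j)).re := by fun_prop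
  exact h.measurable

theorem rr_le {i j : Fin 6} {x : Fin 6 → ℂ} (h : ∀ j, ‖x j‖ = 1) : |rr i j x| ≤ 1 := by
  unfold rr
  refine (Complex.abs_re_le_norm _).trans ?_
  rw [norm_mul, norm_star, h, h, mul_one]

theorem rrHH_int {f : ℝ → ℝ} (hf : Measurable f) {M : ℝ} (hM : ∀ θ, |f θ| ≤ M) (ε : ℝ) (i j : Fin 6) :
    Integrable (fun x => rr i j x * HH f ε x) μ6 := by
  have hM0 : 0 ≤ M := (abs_nonneg _).trans (hM 0)
  have hm : Measurable (fun x => rr i j x * HH f ε x) := (rr_meas i j).mul (HH_meas hf ε)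
  refine Integrable.of_bound hm.aestronglyMeasurable (1 * (M ^ 6 * (1 / (π * ε ^ 2)))) ?_
  filter_upwards [ae_units6] with x hx
  rw [norm_mul, Real.norm_eq_abs, Real.norm_eq_abs]
  have h1 : |HH f ε x| ≤ M ^ 6 * (1 / (π * ε ^ 2)) :=
    (HH_le hM ε x).trans (mul_le_mul_of_nonneg_left (eta_le _ _) (by positivity))
  exact mul_le_mul (rr_le hx) h1 (abs_nonneg _) zero_le_one

theorem exists_perm2 {i j : Fin 6} (h : i ≠ j) : ∃ σ : Equiv.Perm (Fin 6), σ 0 = i ∧ σ 1 = j := by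
  refine ⟨(Equiv.swap 0 i) * (Equiv.swap 1 (Equiv.swap 0 i j)), ?_, ?_⟩
  · rw [Equiv.Perm.mul_apply]
    have h1 : (0 : Fin 6) ≠ Equiv.swap 0 i j := by
      intro h2
      have h3 := congrArg (Equiv.swap (0 : Fin 6) i) h2
      rw [Equiv.swap_apply_left, Equiv.swap_apply_self] at h3
      exact h h3
    rw [Equiv.swap_apply_of_ne_of_ne (by decide) h1, Equiv.swap_apply_left]
  · rw [Equiv.Perm.mul_apply, Equiv.swap_apply_left, Equiv.swap_apply_self]

theorem rr_sym {f : ℝ → ℝ} (hf : Measurable f) (ε : ℝ) {i j : Fin 6} (h : i ≠ j) :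
    ∫ x, rr i j x * HH f ε x ∂μ6 = ∫ x, rr 0 1 x * HH f ε x ∂μ6 := by
  obtain ⟨σ, h0, h1⟩ := exists_perm2 h
  have hm : Measurable (fun x => rr 0 1 x * HH f ε x) := (rr_meas 0 1).mul (HH_meas hf ε)
  rw [← perm_int σ hm]
  congr 1
  ext x
  rw [HH_perm]
  unfold rr
  beta_reduce
  rw [h0, h1]

theorem rr_diag {f : ℝ → ℝ} (ε : ℝ) (i : Fin 6) :
    ∫ x, rr i i x * HH f ε x ∂μ6 = ∫ x, HH f ε x ∂μ6 := by
  refine integral_congr_ae ?_
  filter_upwards [ae_units6] with x hx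
  have : rr i i x = 1 := by
    unfold rr
    have h1 : x i * star (x i) = ((Complex.normSq (x i) : ℝ) : ℂ) := Complex.mul_conj (x i)
    rw [h1, Complex.ofReal_re, Complex.normSq_eq_norm_sq, hx i, one_pow]
  rw [this, one_mul]

theorem normSq_sum (T : Finset (Fin 6)) (x : Fin 6 → ℂ) :
    Complex.normSq (∑ j ∈ T, x j) = ∑ i ∈ T, ∑ j ∈ T, rr i j x := by
  have h1 : ((Complex.normSq (∑ j ∈ T, x j) : ℝ) : ℂ) = (∑ j ∈ T, x j) * star (∑ j ∈ T, x j) :=
    (Complex.mul_conj _).symm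
  have h2 : Complex.normSq (∑ j ∈ T, x j) = ((∑ j ∈ T, x j) * star (∑ j ∈ T, x j)).re := by
    rw [← h1, Complex.ofReal_re]
  rw [h2, star_sum, Finset.sum_mul_sum, Complex.re_sum]
  refine Finset.sum_congr rfl fun i _ => ?_
  rw [Complex.re_sum]
  rfl

theorem sum_ite_T (T : Finset (Fin 6)) (I q : ℝ) :
    ∑ i ∈ T, ∑ j ∈ T, (if i = j then I else q) = (T.card : ℝ) * I + ((T.card : ℝ) ^ 2 - T.card) * q := by
  have h1 : ∀ i j : Fin 6, (if i = j then I else q) = q + if i = j then (I - q) else 0 := by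
    intro i j
    split_ifs <;> ring
  simp only [h1, Finset.sum_add_distrib, Finset.sum_const, nsmul_eq_mul]
  have h2 : ∑ i ∈ T, ∑ j ∈ T, (if i = j then (I - q) else 0) = T.card * (I - q) := by
    have : ∀ i ∈ T, ∑ j ∈ T, (if i = j then (I - q) else 0) = I - q := by
      intro i hi
      rw [Finset.sum_ite_eq, if_pos hi]
    rw [Finset.sum_congr rfl this, Finset.sum_const, nsmul_eq_mul]
  rw [h2]
  ring

theorem normSq_HH {f : ℝ → ℝ} (hf : Measurable f) {M : ℝ} (hM : ∀ θ, |f θ| ≤ M) (ε : ℝ)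
    (T : Finset (Fin 6)) :
    ∫ x, Complex.normSq (∑ j ∈ T, x j) * HH f ε x ∂μ6 =
      (T.card : ℝ) * (∫ x, HH f ε x ∂μ6) +
        ((T.card : ℝ) ^ 2 - T.card) * ∫ x, rr 0 1 x * HH f ε x ∂μ6 := by
  have h1 : ∀ x : Fin 6 → ℂ, Complex.normSq (∑ j ∈ T, x j) * HH f ε x =
      ∑ i ∈ T, ∑ j ∈ T, rr i j x * HH f ε x := by
    intro x
    rw [normSq_sum, Finset.sum_mul]
    simp only [Finset.sum_mul]
  simp only [h1]
  rw [integral_finsetSum _ (fun i _ => integrable_finsetSum _ (fun j _ => rrHH_int hf hM ε i j))]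
  have h2 : ∀ i ∈ T, ∫ x, ∑ j ∈ T, rr i j x * HH f ε x ∂μ6 =
      ∑ j ∈ T, (if i = j then (∫ x, HH f ε x ∂μ6) else ∫ x, rr 0 1 x * HH f ε x ∂μ6) := by
    intro i _
    rw [integral_finsetSum _ (fun j _ => rrHH_int hf hM ε i j)]
    refine Finset.sum_congr rfl fun j _ => ?_
    split_ifs with h
    · rw [← h, rr_diag]
    · exact rr_sym hf ε h
  rw [Finset.sum_congr rfl h2, sum_ite_T]

theorem weight {f : ℝ → ℝ} (hf : Measurable f) {M : ℝ} (hM : ∀ θ, |f θ| ≤ M) (ε : ℝ) :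
    ∫ x, (Complex.normSq (x 0 + x 1 + x 2) - 1) * HH f ε x ∂μ6 =
      4 / 5 * (∫ x, HH f ε x ∂μ6) +
        1 / 5 * ∫ x, Complex.normSq (∑ j, x j) * HH f ε x ∂μ6 := by
  have h3 := normSq_HH hf hM ε {0, 1, 2}
  have h6 := normSq_HH hf hM ε Finset.univ
  have c3 : (({0, 1, 2} : Finset (Fin 6)).card : ℝ) = 3 := by
    have : ({0, 1, 2} : Finset (Fin 6)).card = 3 := by decide
    rw [this]; norm_num
  have c6 : ((Finset.univ : Finset (Fin 6)).card : ℝ) = 6 := by
    rw [Finset.card_univ, Fintype.card_fin]; norm_num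
  rw [c3] at h3
  rw [c6] at h6
  have e3 : ∀ x : Fin 6 → ℂ, ∑ j ∈ ({0, 1, 2} : Finset (Fin 6)), x j = x 0 + x 1 + x 2 := by
    intro x
    rw [Finset.sum_insert (by decide), Finset.sum_insert (by decide), Finset.sum_singleton]
    ring
  simp only [e3] at h3
  have hm : Measurable fun x : Fin 6 → ℂ => Complex.normSq (x 0 + x 1 + x 2) * HH f ε x := by
    have := HH_meas hf ε
    have := Complex.continuous_normSq.measurable
    fun_prop
  have hM0 : 0 ≤ M := (abs_nonneg _).trans (hM 0)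
  have hHb : ∀ x, |HH f ε x| ≤ M ^ 6 * (1 / (π * ε ^ 2)) := fun x =>
    (HH_le hM ε x).trans (mul_le_mul_of_nonneg_left (eta_le _ _) (by positivity))
  have i1 : Integrable (fun x : Fin 6 → ℂ => HH f ε x) μ6 :=
    Integrable.of_bound (HH_meas hf ε).aestronglyMeasurable _
      (Filter.Eventually.of_forall fun x => hHb x)
  have i2 : Integrable (fun x : Fin 6 → ℂ => Complex.normSq (x 0 + x 1 + x 2) * HH f ε x) μ6 := by
    have : (fun x : Fin 6 → ℂ => Complex.normSq (x 0 + x 1 + x 2) * HH f ε x) =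
        fun x => ∑ i ∈ ({0, 1, 2} : Finset (Fin 6)), ∑ j ∈ ({0, 1, 2} : Finset (Fin 6)),
          rr i j x * HH f ε x := by
      ext x
      rw [← e3, normSq_sum, Finset.sum_mul]
      simp only [Finset.sum_mul]
    rw [this]
    exact integrable_finsetSum _ (fun i _ => integrable_finsetSum _ (fun j _ => rrHH_int hf hM ε i j))
  have e : ∫ x, (Complex.normSq (x 0 + x 1 + x 2) - 1) * HH f ε x ∂μ6 =
      ∫ x, Complex.normSq (x 0 + x 1 + x 2) * HH f ε x ∂μ6 - ∫ x, HH f ε x ∂μ6 := by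
    rw [← integral_sub i2 i1]
    congr 1
    ext x
    ring
  rw [e, h3, h6]
  ring

/-- six-fold integrand with three squared factors -/
noncomputable def GB (f : ℝ → ℝ) (c ε : ℝ) (B : Finset (Fin 6)) (x : Fin 6 → ℂ) : ℝ :=
  eta ε (∑ j, x j) * ∏ j ∈ B, gg f c (x j)

theorem GB_meas {f : ℝ → ℝ} (hf : Measurable f) (c ε : ℝ) (B : Finset (Fin 6)) :
    Measurable (GB f c ε B) := by
  unfold GB
  have := gg_meas hf c
  have := (eta_cont ε).measurable
  fun_prop

theorem GB_nonneg (f : ℝ → ℝ) (c ε : ℝ) (B : Finset (Fin 6)) (x : Fin 6 → ℂ) : 0 ≤ GB f c ε B x :=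
  mul_nonneg (eta_nonneg _ _) (Finset.prod_nonneg fun _ _ => gg_nonneg _ _ _)

theorem GB_le {f : ℝ → ℝ} {M : ℝ} (hM : ∀ θ, |f θ| ≤ M) (c ε : ℝ) (B : Finset (Fin 6)) (x : Fin 6 → ℂ) :
    GB f c ε B x ≤ 1 / (π * ε ^ 2) * (M ^ 2) ^ B.card := by
  unfold GB
  have h : ∏ j ∈ B, gg f c (x j) ≤ ∏ _j ∈ B, M ^ 2 :=
    Finset.prod_le_prod (fun _ _ => gg_nonneg _ _ _) (fun j _ => gg_le hM c _)
  rw [Finset.prod_const] at h
  exact mul_le_mul (eta_le _ _) h (Finset.prod_nonneg fun _ _ => gg_nonneg _ _ _) (by positivity)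

theorem GB_int {f : ℝ → ℝ} (hf : Measurable f) {M : ℝ} (hM : ∀ θ, |f θ| ≤ M) (c ε : ℝ)
    (B : Finset (Fin 6)) : Integrable (GB f c ε B) μ6 := by
  refine Integrable.of_bound (GB_meas hf c ε B).aestronglyMeasurable
    (1 / (π * ε ^ 2) * (M ^ 2) ^ B.card) (Filter.Eventually.of_forall fun x => ?_)
  rw [Real.norm_of_nonneg (GB_nonneg _ _ _ _ _)]
  exact GB_le hM _ _ _ _

theorem GB_neg {f : ℝ → ℝ} (hf : Measurable f) (c ε : ℝ) (B : Finset (Fin 6)) :
    ∫ x, GB f c ε B (fun j => - x j) ∂μ6 = ∫ x, GB f c ε B x ∂μ6 := neg6_int (GB_meas hf c ε B)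

theorem exists_perm3 {B : Finset (Fin 6)} (h : B.card = 3) :
    ∃ σ : Equiv.Perm (Fin 6), B = ({0, 1, 2} : Finset (Fin 6)).map σ.toEmbedding := by
  have h3 : ({0, 1, 2} : Finset (Fin 6)).card = 3 := by decide
  have e : { x // x ∈ ({0, 1, 2} : Finset (Fin 6)) } ≃ { x // x ∈ B } :=
    Finset.equivOfCardEq (h3.trans h.symm)
  refine ⟨e.extendSubtype, ?_⟩
  symm
  apply Finset.eq_of_subset_of_card_le
  · intro x hx
    rw [Finset.mem_map] at hx
    obtain ⟨y, hy, rfl⟩ := hx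
    exact e.extendSubtype_mem y hy
  · rw [Finset.card_map, h, h3]

theorem GB_perm {f : ℝ → ℝ} (hf : Measurable f) (c ε : ℝ) {B : Finset (Fin 6)} (h : B.card = 3) :
    ∫ x, GB f c ε B x ∂μ6 = ∫ x, GB f c ε {0, 1, 2} x ∂μ6 := by
  obtain ⟨σ, hσ⟩ := exists_perm3 h
  rw [← perm_int σ (GB_meas hf c ε {0, 1, 2})]
  congr 1
  ext x
  unfold GB
  rw [Equiv.sum_comp σ x, hσ, Finset.prod_map]
  rfl

theorem far_set {f : ℝ → ℝ} {c : ℝ}
    (hs : ∀ θ, f θ ≠ 0 → ∃ k : ℤ, |θ - c - k * π| ≤ π / 4) {x : Fin 6 → ℂ}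
    (hx : ∀ j, ‖x j‖ = 1) (hne : ∀ j, ft f (x j) ≠ 0) {A : Finset (Fin 6)} (hA : 4 ≤ A.card)
    {s : ℝ} (hsg : |s| = 1) (hsA : ∀ j ∈ A, 0 ≤ s * av c (x j)) :
    1 / 2 ≤ Complex.normSq (∑ j, x j) := by
  have h2 : √2 ^ 2 = 2 := Real.sq_sqrt (by norm_num)
  have h2a : 1.41 ≤ √2 := by
    rw [Real.le_sqrt (by norm_num) (by norm_num)]
    norm_num
  have hb : ∀ j, √2 / 2 ≤ |av c (x j)| := fun j => av_big hs (hx j) (hne j)
  have hu : ∀ j, |s * av c (x j)| ≤ 1 := by
    intro j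
    rw [abs_mul, hsg, one_mul]
    have := av_le c (x j)
    rwa [hx j] at this
  have e1 : s * av c (∑ j, x j) = ∑ j ∈ A, s * av c (x j) + ∑ j ∈ Aᶜ, s * av c (x j) := by
    rw [Finset.sum_add_sum_compl, av_sum, Finset.mul_sum]
  have e2 : ∑ _j ∈ A, √2 / 2 ≤ ∑ j ∈ A, s * av c (x j) := by
    refine Finset.sum_le_sum fun j hj => ?_
    have h3 := hsA j hj
    rw [← abs_of_nonneg h3, abs_mul, hsg, one_mul]
    exact hb j
  have e3 : ∑ _j ∈ Aᶜ, (-1 : ℝ) ≤ ∑ j ∈ Aᶜ, s * av c (x j) :=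
    Finset.sum_le_sum fun j _ => (abs_le.1 (hu j)).1
  rw [Finset.sum_const, nsmul_eq_mul] at e2 e3
  have hc : (A.card : ℝ) + (Aᶜ.card : ℝ) = 6 := by
    have := Finset.card_add_card_compl A
    rw [Fintype.card_fin] at this
    exact_mod_cast this
  have hA' : (4 : ℝ) ≤ A.card := by exact_mod_cast hA
  have h4 : 0.8 ≤ s * av c (∑ j, x j) := by
    rw [e1]
    nlinarith
  have h5 : s * av c (∑ j, x j) ≤ ‖∑ j, x j‖ := by
    refine (le_abs_self _).trans ?_
    rw [abs_mul, hsg, one_mul]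
    exact av_le _ _
  rw [Complex.normSq_eq_norm_sq]
  nlinarith

theorem eta_far {ε : ℝ} {z : ℂ} (h : 1 / 2 ≤ Complex.normSq z) :
    eta ε z ≤ 1 / (π * ε ^ 2) * Real.exp (-(1 / 2) / ε ^ 2) := by
  unfold eta
  have h1 : -(Complex.normSq z) / ε ^ 2 ≤ -(1 / 2) / ε ^ 2 :=
    div_le_div_of_nonneg_right (by linarith) (sq_nonneg ε)
  have h2 := Real.exp_le_exp.2 h1
  exact mul_le_mul_of_nonneg_left h2 (by positivity)

theorem pointwise {f : ℝ → ℝ} {c M : ℝ} (hM : ∀ θ, |f θ| ≤ M)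
    (hper : Function.Periodic f π)
    (hs : ∀ θ, f θ ≠ 0 → ∃ k : ℤ, |θ - c - k * π| ≤ π / 4) {ε : ℝ} {x : Fin 6 → ℂ}
    (hx : ∀ j, ‖x j‖ = 1) :
    HH f ε x ≤ 1 / 2 * ∑ B ∈ Finset.powersetCard 3 (Finset.univ : Finset (Fin 6)),
      (GB f c ε B x + GB f c ε B (fun j => - x j)) +
      M ^ 6 * (1 / (π * ε ^ 2) * Real.exp (-(1 / 2) / ε ^ 2)) := by
  have hM0 : 0 ≤ M := (abs_nonneg _).trans (hM 0)
  have hsum0 : 0 ≤ ∑ B ∈ Finset.powersetCard 3 (Finset.univ : Finset (Fin 6)),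
      (GB f c ε B x + GB f c ε B (fun j => - x j)) :=
    Finset.sum_nonneg fun B _ => add_nonneg (GB_nonneg _ _ _ _ _) (GB_nonneg _ _ _ _ _)
  have herr : 0 ≤ M ^ 6 * (1 / (π * ε ^ 2) * Real.exp (-(1 / 2) / ε ^ 2)) := by positivity
  by_cases hz : ∃ j, ft f (x j) = 0
  · obtain ⟨j, hj⟩ := hz
    have : HH f ε x = 0 := by
      unfold HH
      rw [Finset.prod_eq_zero (Finset.mem_univ j) hj, mul_zero]
    rw [this]
    positivity
  · push Not at hz
    set A : Finset (Fin 6) := Finset.univ.filter (fun j => 0 < av c (x j)) with hA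
    have hfar : 1 / 2 ≤ Complex.normSq (∑ j, x j) → HH f ε x ≤
        M ^ 6 * (1 / (π * ε ^ 2) * Real.exp (-(1 / 2) / ε ^ 2)) := by
      intro h
      refine (le_abs_self _).trans ((HH_le hM ε x).trans ?_)
      exact mul_le_mul_of_nonneg_left (eta_far h) (by positivity)
    rcases lt_trichotomy A.card 3 with h3 | h3 | h3
    · have hc : 4 ≤ Aᶜ.card := by
        have := Finset.card_add_card_compl A
        rw [Fintype.card_fin] at this
        omega
      have := hfar (far_set hs hx hz hc (s := -1) (by norm_num) (fun j hj => by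
        rw [hA, Finset.mem_compl, Finset.mem_filter] at hj
        have : ¬ 0 < av c (x j) := fun h => hj ⟨Finset.mem_univ _, h⟩
        linarith))
      linarith
    · -- the main case
      have hc : Aᶜ.card = 3 := by
        have := Finset.card_add_card_compl A
        rw [Fintype.card_fin] at this
        omega
      have e1 : ∏ j ∈ A, gg f c (x j) = (∏ j ∈ A, |ft f (x j)|) ^ 2 := by
        rw [← Finset.prod_pow]
        refine Finset.prod_congr rfl fun j hj => ?_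
        rw [hA, Finset.mem_filter] at hj
        rw [gg_pos hj.2, sq_abs]
      have e2 : ∏ j ∈ Aᶜ, gg f c (-x j) = (∏ j ∈ Aᶜ, |ft f (x j)|) ^ 2 := by
        rw [← Finset.prod_pow]
        refine Finset.prod_congr rfl fun j hj => ?_
        rw [hA, Finset.mem_compl, Finset.mem_filter] at hj
        have h4 : ¬ 0 < av c (x j) := fun h => hj ⟨Finset.mem_univ _, h⟩
        have h5 := av_big hs (hx j) (hz j)
        have h6 : av c (x j) < 0 := by
          rcases lt_trichotomy (av c (x j)) 0 with h | h | h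
          · exact h
          · rw [h, abs_zero] at h5
            have : 0 < √2 := by positivity
            linarith
          · exact absurd h h4
        rw [gg_neg hper (hx j) h6, sq_abs]
      have e3 : |∏ j, ft f (x j)| ≤ 1 / 2 * (∏ j ∈ A, gg f c (x j) + ∏ j ∈ Aᶜ, gg f c (-x j)) := by
        rw [e1, e2, Finset.abs_prod, ← Finset.prod_mul_prod_compl A]
        nlinarith [sq_nonneg ((∏ j ∈ A, |ft f (x j)|) - ∏ j ∈ Aᶜ, |ft f (x j)|)]
      have hnegsum : eta ε (∑ j, - x j) = eta ε (∑ j, x j) := by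
        rw [Finset.sum_neg_distrib, eta_neg]
      have e4 : HH f ε x ≤ 1 / 2 * (GB f c ε A x + GB f c ε Aᶜ (fun j => - x j)) := by
        unfold HH GB
        rw [hnegsum]
        have h7 := mul_le_mul_of_nonneg_left ((le_abs_self _).trans e3) (eta_nonneg ε (∑ j, x j))
        linarith
      have hmA : A ∈ Finset.powersetCard 3 (Finset.univ : Finset (Fin 6)) := by
        rw [Finset.mem_powersetCard]; exact ⟨Finset.subset_univ _, h3⟩
      have hmAc : Aᶜ ∈ Finset.powersetCard 3 (Finset.univ : Finset (Fin 6)) := by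
        rw [Finset.mem_powersetCard]; exact ⟨Finset.subset_univ _, hc⟩
      have e5 : GB f c ε A x ≤ ∑ B ∈ Finset.powersetCard 3 (Finset.univ : Finset (Fin 6)), GB f c ε B x :=
        Finset.single_le_sum (f := fun B => GB f c ε B x) (fun B _ => GB_nonneg _ _ _ _ _) hmA
      have e6 : GB f c ε Aᶜ (fun j => - x j) ≤
          ∑ B ∈ Finset.powersetCard 3 (Finset.univ : Finset (Fin 6)), GB f c ε B (fun j => - x j) :=
        Finset.single_le_sum (f := fun B => GB f c ε B (fun j => - x j))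
          (fun B _ => GB_nonneg _ _ _ _ _) hmAc
      rw [Finset.sum_add_distrib]
      linarith
    · have := hfar (far_set hs hx hz (A := A) h3 (s := 1) (by norm_num) (fun j hj => by
        rw [hA, Finset.mem_filter] at hj
        linarith [hj.2]))
      linarith

theorem HH_int {f : ℝ → ℝ} (hf : Measurable f) {M : ℝ} (hM : ∀ θ, |f θ| ≤ M) (ε : ℝ) :
    Integrable (HH f ε) μ6 := by
  have hM0 : 0 ≤ M := (abs_nonneg _).trans (hM 0)
  exact Integrable.of_bound (HH_meas hf ε).aestronglyMeasurable (M ^ 6 * (1 / (π * ε ^ 2)))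
      (Filter.Eventually.of_forall fun x =>
        (HH_le hM ε x).trans (mul_le_mul_of_nonneg_left (eta_le _ _) (by positivity)))

theorem I_bound {f : ℝ → ℝ} {c M : ℝ} (hf : Measurable f) (hM : ∀ θ, |f θ| ≤ M)
    (hper : Function.Periodic f π)
    (hs : ∀ θ, f θ ≠ 0 → ∃ k : ℤ, |θ - c - k * π| ≤ π / 4) (ε : ℝ) :
    ∫ x, HH f ε x ∂μ6 ≤ 20 * (∫ x, GB f c ε {0, 1, 2} x ∂μ6) +
      μ6.real univ * (M ^ 6 * (1 / (π * ε ^ 2) * Real.exp (-(1 / 2) / ε ^ 2))) := by
  set er := M ^ 6 * (1 / (π * ε ^ 2) * Real.exp (-(1 / 2) / ε ^ 2)) with her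
  have i1 : ∀ B : Finset (Fin 6), Integrable (fun x => GB f c ε B x) μ6 := fun B => GB_int hf hM c ε B
  have i2 : ∀ B : Finset (Fin 6), Integrable (fun x => GB f c ε B (fun j => - x j)) μ6 := fun B =>
    neg6_mp.integrable_comp_of_integrable (i1 B)
  have i4 : ∀ B : Finset (Fin 6), Integrable (fun x => GB f c ε B x + GB f c ε B (fun j => - x j)) μ6 :=
    fun B => (i1 B).add (i2 B)
  have i3 : Integrable (fun x => ∑ B ∈ Finset.powersetCard 3 (Finset.univ : Finset (Fin 6)),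
      (GB f c ε B x + GB f c ε B (fun j => - x j))) μ6 :=
    integrable_finsetSum _ fun B _ => (i1 B).add (i2 B)
  have h1 : ∫ x, HH f ε x ∂μ6 ≤ ∫ x, (1 / 2 * ∑ B ∈ Finset.powersetCard 3 (Finset.univ : Finset (Fin 6)),
      (GB f c ε B x + GB f c ε B (fun j => - x j)) + er) ∂μ6 := by
    refine integral_mono_ae (HH_int hf hM ε) ((i3.const_mul (1 / 2)).add (integrable_const er)) ?_
    filter_upwards [ae_units6] with x hx
    exact pointwise hM hper hs hx
  refine h1.trans (le_of_eq ?_)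
  rw [integral_add (i3.const_mul (1 / 2)) (integrable_const er), integral_const_mul,
    integral_finsetSum _ (fun B _ => i4 B), integral_const, smul_eq_mul]
  have h2 : ∀ B ∈ Finset.powersetCard 3 (Finset.univ : Finset (Fin 6)),
      ∫ x, (GB f c ε B x + GB f c ε B (fun j => - x j)) ∂μ6 =
      2 * ∫ x, GB f c ε {0, 1, 2} x ∂μ6 := by
    intro B hB
    rw [Finset.mem_powersetCard] at hB
    rw [integral_add (i1 B) (i2 B), GB_neg hf, GB_perm hf c ε hB.2]
    ring
  rw [Finset.sum_congr rfl h2, Finset.sum_const, Finset.card_powersetCard, Finset.card_univ,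
    Fintype.card_fin]
  have h3 : Nat.choose 6 3 = 20 := by decide
  rw [h3, nsmul_eq_mul]
  push_cast
  ring

theorem P_eq {f : ℝ → ℝ} {M : ℝ} (hf : Measurable f) (hM : ∀ θ, |f θ| ≤ M) (c ε : ℝ) :
    ∫ x, GB f c ε {0, 1, 2} x ∂μ6 =
      ∫ a, (gg f c (a 0) * gg f c (a 1) * gg f c (a 2)) * Sig ε (a 0 + a 1 + a 2) ∂μ3 := by
  have hgm := gg_meas hf c
  have hm : Measurable fun a : Fin 3 → ℂ => gg f c (a 0) * gg f c (a 1) * gg f c (a 2) := by fun_prop
  rw [← split_int (ε := ε) hm (C := M ^ 2 * M ^ 2 * M ^ 2) (Filter.Eventually.of_forall fun a => by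
    rw [abs_mul, abs_mul, abs_of_nonneg (gg_nonneg f c (a 0)), abs_of_nonneg (gg_nonneg f c (a 1)),
      abs_of_nonneg (gg_nonneg f c (a 2))]
    have t1 := gg_le hM c (a 0)
    have t2 := gg_le hM c (a 1)
    have t3 := gg_le hM c (a 2)
    have u1 := gg_nonneg f c (a 0)
    have u2 := gg_nonneg f c (a 1)
    have u3 := gg_nonneg f c (a 2)
    gcongr)]
  congr 1
  ext x
  unfold GB
  rw [Finset.prod_insert (by decide), Finset.prod_insert (by decide), Finset.prod_singleton,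
    mul_comm, ← mul_assoc]
  rfl

/-- the weighted term -/
noncomputable def ZZ (ε : ℝ) : ℝ := ∫ x, Complex.normSq (∑ j, x j) * eta ε (∑ j, x j) ∂μ6

theorem t_exp_le {t ε : ℝ} (hε : 0 < ε) :
    t * ((1 / (π * ε ^ 2)) * Real.exp (-t / ε ^ 2)) ≤ 1 := by
  have h1 : t / ε ^ 2 * Real.exp (-t / ε ^ 2) ≤ 1 := by
    rw [neg_div, Real.exp_neg, ← div_eq_mul_inv, div_le_one (Real.exp_pos _)]
    linarith [Real.add_one_le_exp (t / ε ^ 2)]
  have h2 : t * ((1 / (π * ε ^ 2)) * Real.exp (-t / ε ^ 2)) =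
      1 / π * (t / ε ^ 2 * Real.exp (-t / ε ^ 2)) := by
    field_simp
  rw [h2]
  have h3 : 1 / π ≤ 1 := by
    rw [div_le_one Real.pi_pos]
    linarith [Real.pi_gt_three]
  have h4 : 0 < 1 / π := by positivity
  calc 1 / π * (t / ε ^ 2 * Real.exp (-t / ε ^ 2)) ≤ 1 / π * 1 := by gcongr
    _ ≤ 1 := by linarith

theorem ZZ_tendsto : Tendsto ZZ (𝓝[>] 0) (𝓝 0) := by
  have h : Tendsto (fun ε : ℝ => ∫ x, Complex.normSq (∑ j, x j) * eta ε (∑ j, x j) ∂μ6) (𝓝[>] 0)
      (𝓝 (∫ _x, (0:ℝ) ∂μ6)) := by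
    refine tendsto_integral_filter_of_dominated_convergence (fun _ => (1:ℝ)) ?_ ?_ ?_ ?_
    · refine Filter.Eventually.of_forall fun ε => ?_
      have := (eta_cont ε).measurable
      have := Complex.continuous_normSq.measurable
      have hm : Measurable fun x : Fin 6 → ℂ => Complex.normSq (∑ j, x j) * eta ε (∑ j, x j) := by
        fun_prop
      exact hm.aestronglyMeasurable
    · filter_upwards [self_mem_nhdsWithin] with ε hε
      refine Filter.Eventually.of_forall fun x => ?_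
      rw [Real.norm_of_nonneg (mul_nonneg (Complex.normSq_nonneg _) (eta_nonneg _ _))]
      unfold eta
      exact t_exp_le hε
    · exact integrable_const _
    · refine Filter.Eventually.of_forall fun x => ?_
      set t := Complex.normSq (∑ j, x j) with ht
      rcases (Complex.normSq_nonneg (∑ j, x j)).lt_or_eq with h0 | h0
      · have h1 : Tendsto (fun ε : ℝ => t * (4 * ε ^ 2 / t ^ 2)) (𝓝[>] 0) (𝓝 0) := by
          have h2 : Tendsto (fun ε : ℝ => t * (4 * ε ^ 2 / t ^ 2)) (𝓝 0) (𝓝 (t * (4 * 0 ^ 2 / t ^ 2))) := by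
            apply Continuous.tendsto
            fun_prop
          have h3 : t * (4 * (0:ℝ) ^ 2 / t ^ 2) = 0 := by norm_num
          rw [h3] at h2
          exact h2.mono_left nhdsWithin_le_nhds
        refine tendsto_of_tendsto_of_tendsto_of_le_of_le' tendsto_const_nhds h1 ?_ ?_
        · exact Filter.Eventually.of_forall fun ε => mul_nonneg (Complex.normSq_nonneg _) (eta_nonneg _ _)
        · filter_upwards [self_mem_nhdsWithin] with ε hε
          have hε0 : (0:ℝ) < ε := hε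
          have h4 := exp_bd2 (ρ := t) h0 hε0
          have h5 : eta ε (∑ j, x j) ≤ 1 / ε ^ 2 * Real.exp (-t / ε ^ 2) := by
            unfold eta
            rw [← ht]
            have : 1 / (π * ε ^ 2) ≤ 1 / ε ^ 2 := by
              apply one_div_le_one_div_of_le (by positivity)
              nlinarith [Real.pi_gt_three, sq_nonneg ε]
            exact mul_le_mul_of_nonneg_right this (Real.exp_pos _).le
          exact mul_le_mul_of_nonneg_left (h5.trans h4) h0.le
      · have : t = 0 := by rw [ht, ← h0]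
        simp only [this, zero_mul]
        exact tendsto_const_nhds
  rw [integral_zero] at h
  exact h

theorem Z_bound {f : ℝ → ℝ} (hf : Measurable f) {M : ℝ} (hM : ∀ θ, |f θ| ≤ M) {ε : ℝ} (hε : 0 < ε) :
    ∫ x, Complex.normSq (∑ j, x j) * HH f ε x ∂μ6 ≤ M ^ 6 * ZZ ε := by
  unfold ZZ
  rw [← integral_const_mul]
  have hM0 : 0 ≤ M := (abs_nonneg _).trans (hM 0)
  have hb : ∀ x : Fin 6 → ℂ, Complex.normSq (∑ j, x j) * eta ε (∑ j, x j) ≤ 1 := fun x => by
    unfold eta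
    exact t_exp_le hε
  have hb2 : ∀ x : Fin 6 → ℂ, |Complex.normSq (∑ j, x j) * HH f ε x| ≤
      M ^ 6 * (Complex.normSq (∑ j, x j) * eta ε (∑ j, x j)) := fun x => by
    rw [abs_mul, abs_of_nonneg (Complex.normSq_nonneg _)]
    have := mul_le_mul_of_nonneg_left (HH_le hM ε x) (Complex.normSq_nonneg (∑ j, x j))
    linarith
  have hm0 : Measurable fun x : Fin 6 → ℂ => Complex.normSq (∑ j, x j) * HH f ε x := by
    have := HH_meas hf ε
    have := Complex.continuous_normSq.measurable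
    fun_prop
  have hm : Measurable fun x : Fin 6 → ℂ => Complex.normSq (∑ j, x j) * eta ε (∑ j, x j) := by
    have := (eta_cont ε).measurable
    have := Complex.continuous_normSq.measurable
    fun_prop
  have i1 : Integrable (fun x : Fin 6 → ℂ => Complex.normSq (∑ j, x j) * HH f ε x) μ6 := by
    refine Integrable.of_bound hm0.aestronglyMeasurable (M ^ 6 * 1)
      (Filter.Eventually.of_forall fun x => ?_)
    exact (hb2 x).trans (mul_le_mul_of_nonneg_left (hb x) (by positivity))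
  have i2 : Integrable (fun x : Fin 6 → ℂ => Complex.normSq (∑ j, x j) * eta ε (∑ j, x j)) μ6 := by
    refine Integrable.of_bound hm.aestronglyMeasurable 1
      (Filter.Eventually.of_forall fun x => ?_)
    rw [Real.norm_of_nonneg (mul_nonneg (Complex.normSq_nonneg _) (eta_nonneg _ _))]
    exact hb x
  exact integral_mono i1 (i2.const_mul _) fun x => (le_abs_self _).trans (hb2 x)

end Run7.h896
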