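import Mathlib
import Pool.Agent.Run7.h896.Lim

set_option autoImplicit false

/-! # The pointwise inequality on a quarter arc -/

open MeasureTheory Set Real
open scoped ENNReal

namespace Run7.h896

theorem S_eq_Phi {z : ℂ} {w : ℝ} (h : Complex.normSq z = 1 + w) (h0 : 0 < w) (h8 : w < 8) :
    S z = Phi w := by
  have hr2 : ‖z‖ ^ 2 = 1 + w := by rw [← Complex.normSq_eq_norm_sq, h]
  have hr1 : 1 < ‖z‖ := by nlinarith [norm_nonneg z]
  have hr3 : ‖z‖ < 3 := by nlinarith [norm_nonneg z]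
  unfold S
  rw [SE_norm, SE_out hr1 hr3]
  have e : ‖z‖ ^ 2 - 1 = w := by linarith
  rw [e, ENNReal.toReal_ofReal (Phi_pos h0).le]

theorem Psi_pos {z : ℝ} (h0 : 0 < z) (h1 : z < 1) : 0 < Psi z := by
  have a1 : 0 ≤ √(1 - z) := Real.sqrt_nonneg _
  have a2 : √(1 - z) < 1 := by
    rw [Real.sqrt_lt' one_pos]
    linarith
  exact mul_pos (by norm_num) (JJ_pos (mul_pos (pow_pos (by linarith) 3) (by linarith))
    (mul_pos (by linarith) (by positivity)))

theorem S_eq_Psi {z : ℂ} {w : ℝ} (h : Complex.normSq z = 1 - w) (h0 : 0 < w) (h1 : w < 1) :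
    S z = Psi w := by
  have hr2 : ‖z‖ ^ 2 = 1 - w := by rw [← Complex.normSq_eq_norm_sq, h]
  have hr0 : 0 < ‖z‖ := by
    rcases (norm_nonneg z).lt_or_eq with h2 | h2
    · exact h2
    · rw [← h2] at hr2
      norm_num at hr2
      linarith
  have hr1 : ‖z‖ < 1 := by nlinarith [norm_nonneg z]
  unfold S
  rw [SE_norm, SE_in hr0 hr1]
  have e : 1 - ‖z‖ ^ 2 = w := by linarith
  rw [e, ENNReal.toReal_ofReal (Psi_pos h0 h1).le]

/-- weight times density -/
noncomputable def T (z : ℂ) : ℝ := (Complex.normSq z - 1) * S z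

/-- the combination of the four sign patterns -/
noncomputable def XX (a b c : ℂ) : ℝ :=
  (Complex.normSq (a + b + c) - 9) * S (a + b + c) + T (-a + b + c) + T (a - b + c) + T (a + b - c)

theorem nsq (c s t u : ℝ) (α β γ : ℝ) (hα : α ^ 2 = 1) (hβ : β ^ 2 = 1) (hγ : γ ^ 2 = 1) :
    Complex.normSq (α * (E c * E s) + β * (E c * E t) + γ * (E c * E u)) =
      3 + 2 * α * β * Real.cos (t - s) + 2 * β * γ * Real.cos (u - t) +
        2 * α * γ * Real.cos (u - s) := by
  have e : (α * (E c * E s) + β * (E c * E t) + γ * (E c * E u) : ℂ) =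
      E c * (α * E s + β * E t + γ * E u) := by ring
  rw [e, Complex.normSq_mul, Complex.normSq_eq_norm_sq (E c), norm_E, one_pow, one_mul,
    Complex.normSq_apply, E_eq, E_eq, E_eq, Real.cos_sub, Real.cos_sub, Real.cos_sub]
  simp only [Complex.add_re, Complex.mul_re, Complex.ofReal_re, Complex.ofReal_im, zero_mul,
    sub_zero, Complex.add_im, Complex.mul_im, add_zero]
  have h1 := Real.sin_sq_add_cos_sq s
  have h2 := Real.sin_sq_add_cos_sq t
  have h3 := Real.sin_sq_add_cos_sq u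
  linear_combination (Real.sin s ^ 2 + Real.cos s ^ 2) * hα + (Real.sin t ^ 2 + Real.cos t ^ 2) * hβ +
    (Real.sin u ^ 2 + Real.cos u ^ 2) * hγ + h1 + h2 + h3

theorem lem83 {C : ℝ} (h : 707 / 1000 ≤ C) (h1 : C ≤ 1) : 4 * (1 - C) * C ≤ 83 / 100 := by
  nlinarith

theorem lemz {C m : ℝ} (h : 0 < C) (h1 : 2 * m ≤ 1 - C) : 8 * m * C ≤ 4 * (1 - C) * C := by
  nlinarith

theorem lem4z {C D z : ℝ} (hz : z ≤ 4 * (1 - C) * C) (h1 : C ≤ 1) (h2 : C ^ 2 + D ^ 2 = 1) :
    4 * z ≤ 8 * D ^ 2 := by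
  have : D ^ 2 = 1 - C ^ 2 := by linarith
  rw [this]
  nlinarith [sq_nonneg (1 - C)]

theorem deg {A B : ℂ} {y : ℝ} (hA : Complex.normSq A = 1 + (8 - y)) (hB : Complex.normSq B = 1 + y)
    (h0 : 0 ≤ y) (h4 : y ≤ 4) : 0 ≤ y * S B - y * S A := by
  rcases h0.lt_or_eq with h | h
  · rw [S_eq_Phi hA (by linarith) (by linarith), S_eq_Phi hB h (by linarith)]
    have := Phi_anti h (by linarith : y ≤ 8 - y)
    nlinarith
  · rw [← h]
    simp

theorem XX_fin {A0 A1 A2 A3 : ℂ} {x y z : ℝ} (m0 : Complex.normSq A0 = 1 + (8 - (x + y - z)))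
    (m1 : Complex.normSq A1 = 1 + x) (m2 : Complex.normSq A2 = 1 - z)
    (m3 : Complex.normSq A3 = 1 + y) (hz0 : 0 ≤ z) (hz83 : z ≤ 83 / 100) (hzx : z ≤ x)
    (hzy : z ≤ y) (h4 : x + y ≤ 4) (h4z : 4 * z ≤ x + y) (hd : z = 0 → x = 0 ∨ y = 0) :
    0 ≤ (Complex.normSq A0 - 9) * S A0 + T A1 + T A2 + T A3 := by
  unfold T
  rw [m0, m1, m2, m3]
  rcases hz0.lt_or_eq with hzp | hz00
  · have v := vertex hzp hz83 hzx hzy h4 h4z
    rw [S_eq_Phi m0 (by linarith) (by linarith), S_eq_Phi m1 (by linarith) (by linarith),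
      S_eq_Psi m2 hzp (by linarith), S_eq_Phi m3 (by linarith) (by linarith)]
    linarith
  · rw [← hz00] at m0 ⊢
    rcases hd hz00.symm with hx0 | hy0
    · rw [hx0] at m0 h4 ⊢
      have := deg (y := y) (by rw [m0]; ring) m3 (by linarith) (by linarith)
      linarith
    · rw [hy0] at m0 h4 ⊢
      have := deg (y := x) (by rw [m0]; ring) m1 (by linarith) (by linarith)
      linarith

theorem XX_sorted {c s t u : ℝ} (h1 : s ≤ t) (h2 : t ≤ u) (h3 : u - s ≤ π / 2) :
    0 ≤ XX (E c * E s) (E c * E t) (E c * E u) := by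
  obtain ⟨a, ha⟩ : ∃ a, a = (t - s) / 2 := ⟨_, rfl⟩
  obtain ⟨b, hb⟩ : ∃ b, b = (u - t) / 2 := ⟨_, rfl⟩
  have ets : t - s = 2 * a := by rw [ha]; ring
  have eut : u - t = 2 * b := by rw [hb]; ring
  have eus : u - s = 2 * (a + b) := by rw [ha, hb]; ring
  have ha0 : 0 ≤ a := by rw [ha]; linarith
  have hb0 : 0 ≤ b := by rw [hb]; linarith
  have hab : a + b ≤ π / 4 := by linarith
  have hpi := Real.pi_pos
  have n0 := nsq c s t u 1 1 1 (by norm_num) (by norm_num) (by norm_num)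
  have n1 := nsq c s t u (-1) 1 1 (by norm_num) (by norm_num) (by norm_num)
  have n2 := nsq c s t u 1 (-1) 1 (by norm_num) (by norm_num) (by norm_num)
  have n3 := nsq c s t u 1 1 (-1) (by norm_num) (by norm_num) (by norm_num)
  rw [ets, eut, eus, Real.cos_two_mul, Real.cos_two_mul, Real.cos_two_mul, Real.cos_add] at n0 n1 n2 n3
  have hsa : 0 ≤ Real.sin a := Real.sin_nonneg_of_nonneg_of_le_pi ha0 (by linarith)
  have hsb : 0 ≤ Real.sin b := Real.sin_nonneg_of_nonneg_of_le_pi hb0 (by linarith)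
  have hca : 0 < Real.cos a := Real.cos_pos_of_mem_Ioo ⟨by linarith, by linarith⟩
  have hcb : 0 < Real.cos b := Real.cos_pos_of_mem_Ioo ⟨by linarith, by linarith⟩
  have hC : √2 / 2 ≤ Real.cos (a + b) := by
    rw [← Real.cos_pi_div_four]
    exact Real.cos_le_cos_of_nonneg_of_le_pi (by linarith) (by linarith) hab
  have hC1 : Real.cos (a + b) ≤ 1 := Real.cos_le_one _
  have hs2 : 1.414 ≤ √2 := by
    rw [Real.le_sqrt (by norm_num) (by norm_num)]
    norm_num
  have hD : Real.cos (a - b) ≤ 1 := Real.cos_le_one _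
  have pa := Real.sin_sq_add_cos_sq a
  have pb := Real.sin_sq_add_cos_sq b
  rw [Real.cos_add] at hC hC1
  rw [Real.cos_sub] at hD
  set p := Real.sin a
  set q := Real.cos a
  set v := Real.cos b
  set w := Real.sin b
  obtain ⟨C, hCd⟩ : ∃ C, C = q * v - p * w := ⟨_, rfl⟩
  obtain ⟨D, hDd⟩ : ∃ D, D = p * v + q * w := ⟨_, rfl⟩
  have hCD : C ^ 2 + D ^ 2 = 1 := by
    rw [hCd, hDd]
    linear_combination (v ^ 2 + w ^ 2) * pa + pb
  rw [← hCd] at hC hC1
  obtain ⟨x, hx⟩ : ∃ x, x = 8 * (p * v) * D := ⟨_, rfl⟩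
  obtain ⟨y, hy⟩ : ∃ y, y = 8 * (q * w) * D := ⟨_, rfl⟩
  obtain ⟨z, hz⟩ : ∃ z, z = 8 * (p * w) * C := ⟨_, rfl⟩
  have hC0 : 0 < C := by linarith
  have hD0 : 0 ≤ D := by rw [hDd]; positivity
  have exy : x + y = 8 * D ^ 2 := by rw [hx, hy, hDd]; ring
  -- the four squared norms
  have m0 : Complex.normSq (E c * E s + E c * E t + E c * E u) = 1 + (8 - (x + y - z)) := by
    have : (E c * E s + E c * E t + E c * E u : ℂ) =
      ((1:ℝ):ℂ) * (E c * E s) + ((1:ℝ):ℂ) * (E c * E t) + ((1:ℝ):ℂ) * (E c * E u) := by push_cast; ring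
    rw [this, n0, exy, hz, hDd, hCd]
    linear_combination (12 * w ^ 2 + 8 * v ^ 2) * pa + (12 - 4 * q ^ 2) * pb
  have m1 : Complex.normSq (-(E c * E s) + E c * E t + E c * E u) = 1 + x := by
    have : (-(E c * E s) + E c * E t + E c * E u : ℂ) =
      ((-1:ℝ):ℂ) * (E c * E s) + ((1:ℝ):ℂ) * (E c * E t) + ((1:ℝ):ℂ) * (E c * E u) := by push_cast; ring
    rw [this, n1, hx, hDd]
    linear_combination (-4 * w ^ 2 - 8 * v ^ 2) * pa + (4 * q ^ 2 - 4) * pb
  have m2 : Complex.normSq (E c * E s - E c * E t + E c * E u) = 1 - z := by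
    have : (E c * E s - E c * E t + E c * E u : ℂ) =
      ((1:ℝ):ℂ) * (E c * E s) + ((-1:ℝ):ℂ) * (E c * E t) + ((1:ℝ):ℂ) * (E c * E u) := by push_cast; ring
    rw [this, n2, hz, hCd]
    linear_combination (-4 * w ^ 2) * pa + (4 * q ^ 2 - 4) * pb
  have m3 : Complex.normSq (E c * E s + E c * E t - E c * E u) = 1 + y := by
    have : (E c * E s + E c * E t - E c * E u : ℂ) =
      ((1:ℝ):ℂ) * (E c * E s) + ((1:ℝ):ℂ) * (E c * E t) + ((-1:ℝ):ℂ) * (E c * E u) := by push_cast; ring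
    rw [this, n3, hy, hDd]
    linear_combination (-4 * w ^ 2) * pa + (-4 - 4 * q ^ 2) * pb
  have hpw : 2 * (p * w) ≤ 1 - C := by rw [hCd]; linarith
  have hzC : z ≤ 4 * (1 - C) * C := by
    rw [hz]
    exact lemz hC0 hpw
  have hC7 : 707 / 1000 ≤ C := by linarith
  have hC2 : 1 / 2 ≤ C ^ 2 := by
    have h5 : √2 ^ 2 = 2 := Real.sq_sqrt (by norm_num)
    have h6 : (√2 / 2) ^ 2 ≤ C ^ 2 := by gcongr
    have h7 : (√2 / 2) ^ 2 = 1 / 2 := by rw [div_pow, h5]; norm_num
    linarith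
  have hz83 : z ≤ 83 / 100 := hzC.trans (lem83 hC7 hC1)
  have h4 : x + y ≤ 4 := by rw [exy]; linarith
  have h4z : 4 * z ≤ x + y := by
    rw [exy]
    exact lem4z hzC hC1 hCD
  have hxz : x = z + 8 * p ^ 2 := by
    rw [hx, hz, hCd, hDd]
    linear_combination (8 * p ^ 2) * pb
  have hyz : y = z + 8 * w ^ 2 := by
    rw [hy, hz, hCd, hDd]
    linear_combination (8 * w ^ 2) * pa
  have hz0 : 0 ≤ z := by rw [hz]; positivity
  have hzx : z ≤ x := by rw [hxz]; exact le_add_of_nonneg_right (by positivity)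
  have hzy : z ≤ y := by rw [hyz]; exact le_add_of_nonneg_right (by positivity)
  unfold XX
  refine XX_fin m0 m1 m2 m3 hz0 hz83 hzx hzy h4 h4z fun hz00 => ?_
  have hpw0 : p * w = 0 := by
    have h9 : 8 * (p * w) * C = 0 := by rw [← hz]; exact hz00
    rcases mul_eq_zero.1 h9 with h10 | h10
    · rcases mul_eq_zero.1 h10 with h11 | h11
      · norm_num at h11
      · exact h11
    · exact absurd h10 hC0.ne'
  rcases mul_eq_zero.1 hpw0 with h10 | h10
  · left; rw [hxz, h10, hz00]; norm_num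
  · right; rw [hyz, h10, hz00]; norm_num

theorem XX_swap12 (a b c : ℂ) : XX b a c = XX a b c := by
  unfold XX
  have e0 : b + a + c = a + b + c := by ring
  have e1 : -b + a + c = a - b + c := by ring
  have e2 : b - a + c = -a + b + c := by ring
  have e3 : b + a - c = a + b - c := by ring
  rw [e0, e1, e2, e3]
  ring

theorem XX_swap23 (a b c : ℂ) : XX a c b = XX a b c := by
  unfold XX
  have e0 : a + c + b = a + b + c := by ring
  have e1 : -a + c + b = -a + b + c := by ring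
  have e2 : a - c + b = a + b - c := by ring
  have e3 : a + c - b = a - b + c := by ring
  rw [e0, e1, e2, e3]
  ring

theorem XX_nonneg {c s t u : ℝ} (hs : |s| ≤ π / 4) (ht : |t| ≤ π / 4) (hu : |u| ≤ π / 4) :
    0 ≤ XX (E c * E s) (E c * E t) (E c * E u) := by
  rw [abs_le] at hs ht hu
  rcases le_total s t with h1 | h1
  · rcases le_total t u with h2 | h2
    · exact XX_sorted h1 h2 (by linarith)
    · rw [← XX_swap23]
      rcases le_total s u with h3 | h3
      · exact XX_sorted h3 h2 (by linarith)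
      · rw [← XX_swap12]
        exact XX_sorted h3 h1 (by linarith)
  · rw [← XX_swap12]
    rcases le_total s u with h2 | h2
    · exact XX_sorted h1 h2 (by linarith)
    · rw [← XX_swap23]
      rcases le_total t u with h3 | h3
      · exact XX_sorted h3 h2 (by linarith)
      · rw [← XX_swap12]
        exact XX_sorted h3 h1 (by linarith)

end Run7.h896
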