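import Mathlib
import Pool.Agent.Run7.h896.Fun
import Pool.Agent.Run7.h896.Sym
import Pool.Agent.Run7.h896.Arc

set_option autoImplicit false

/-! # Lower bound of the right-hand side -/

open MeasureTheory Set Real Filter Topology
open scoped ENNReal

namespace Run7.h896

/-- flip of one coordinate -/
def fl (i : Fin 3) (a : Fin 3 → ℂ) : Fin 3 → ℂ := fun j => if decide (j = i) then - a j else a j

theorem fl_same (i : Fin 3) (a : Fin 3 → ℂ) : fl i a i = - a i := by simp [fl]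

theorem fl_ne {i j : Fin 3} (h : j ≠ i) (a : Fin 3 → ℂ) : fl i a j = a j := by simp [fl, h]

theorem fl_fl (i : Fin 3) (a : Fin 3 → ℂ) : fl i (fl i a) = a := by
  ext j
  unfold fl
  by_cases h : j = i <;> simp [h]

theorem fl_meas (i : Fin 3) : Measurable (fl i) := (sgn_mp (fun j => decide (j = i))).measurable

theorem fl_mp (i : Fin 3) : MeasurePreserving (fl i) μ3 μ3 := sgn_mp (fun j => decide (j = i))

theorem fl_int (i : Fin 3) {H : (Fin 3 → ℂ) → ℝ} (hH : Measurable H) :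
    ∫ x, H (fl i x) ∂μ3 = ∫ x, H x ∂μ3 := sgn_int (fun j => decide (j = i)) hH

theorem step {g : ℂ → ℝ} (hg : Measurable g) {M : ℝ} (hM : ∀ x, |g x| ≤ M) (i : Fin 3)
    {Q : (Fin 3 → ℂ) → ℝ} (hQ : Measurable Q) {C : ℝ} (hb : ∀ᵐ a ∂μ3, |Q a| ≤ C) :
    ∫ a, (g (a i) + g (-a i)) * Q a ∂μ3 = ∫ a, g (a i) * (Q a + Q (fl i a)) ∂μ3 := by
  have hfl := fl_meas i
  have hM0 : 0 ≤ M := (abs_nonneg _).trans (hM 0)
  have hb2 : ∀ᵐ a ∂μ3, |Q (fl i a)| ≤ C := (fl_mp i).quasiMeasurePreserving.ae hb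
  have h1 : Integrable (fun a : Fin 3 → ℂ => g (a i) * Q a) μ3 := by
    have hm : Measurable fun a : Fin 3 → ℂ => g (a i) * Q a := by fun_prop
    refine Integrable.of_bound hm.aestronglyMeasurable (M * C) ?_
    filter_upwards [hb] with a ha
    rw [norm_mul, Real.norm_eq_abs, Real.norm_eq_abs]
    exact mul_le_mul (hM _) ha (abs_nonneg _) hM0
  have h2 : Integrable (fun a : Fin 3 → ℂ => g (-a i) * Q a) μ3 := by
    have hm : Measurable fun a : Fin 3 → ℂ => g (-a i) * Q a := by fun_prop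
    refine Integrable.of_bound hm.aestronglyMeasurable (M * C) ?_
    filter_upwards [hb] with a ha
    rw [norm_mul, Real.norm_eq_abs, Real.norm_eq_abs]
    exact mul_le_mul (hM _) ha (abs_nonneg _) hM0
  have h3 : Integrable (fun a : Fin 3 → ℂ => g (a i) * Q (fl i a)) μ3 := by
    have hm : Measurable fun a : Fin 3 → ℂ => g (a i) * Q (fl i a) := by fun_prop
    refine Integrable.of_bound hm.aestronglyMeasurable (M * C) ?_
    filter_upwards [hb2] with a ha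
    rw [norm_mul, Real.norm_eq_abs, Real.norm_eq_abs]
    exact mul_le_mul (hM _) ha (abs_nonneg _) hM0
  have e1 : ∫ a, g (-a i) * Q a ∂μ3 = ∫ a, g (a i) * Q (fl i a) ∂μ3 := by
    have hm : Measurable fun a : Fin 3 → ℂ => g (a i) * Q (fl i a) := by fun_prop
    rw [← fl_int i hm]
    simp only [fl_fl, fl_same]
  simp only [add_mul, mul_add]
  rw [integral_add h1 h2, integral_add h1 h3, e1]

/-- weight times mollified density -/
noncomputable def k3 (ε : ℝ) (a b c : ℂ) : ℝ := (Complex.normSq (a + b + c) - 1) * Sig ε (a + b + c)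

theorem k3_neg (ε : ℝ) (a b c : ℂ) : k3 ε (-a) (-b) (-c) = k3 ε a b c := by
  unfold k3
  have : -a + -b + -c = -(a + b + c) := by ring
  rw [this, Sig_neg, Complex.normSq_neg]

theorem k3_meas (ε : ℝ) : Measurable fun p : ℂ × ℂ × ℂ => k3 ε p.1 p.2.1 p.2.2 := by
  unfold k3
  have := Sig_meas ε
  have := Complex.continuous_normSq.measurable
  fun_prop

theorem Sig_le (ε : ℝ) (y : ℂ) : Sig ε y ≤ 1 / (π * ε ^ 2) * μ3.real univ := by
  have h := norm_integral_le_of_norm_le_const (μ := μ3)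
    (f := fun b : Fin 3 → ℂ => eta ε (y + (b 0 + b 1 + b 2))) (C := 1 / (π * ε ^ 2))
    (Filter.Eventually.of_forall fun b => by
      rw [Real.norm_of_nonneg (eta_nonneg _ _)]
      exact eta_le _ _)
  exact (le_abs_self _).trans h

theorem normSq_le9 {a b c : ℂ} (ha : ‖a‖ = 1) (hb : ‖b‖ = 1) (hc : ‖c‖ = 1) :
    Complex.normSq (a + b + c) ≤ 9 := by
  rw [Complex.normSq_eq_norm_sq]
  have h : ‖a + b + c‖ ≤ 3 := by
    refine (norm_add₃_le).trans ?_
    rw [ha, hb, hc]; norm_num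
  nlinarith [norm_nonneg (a + b + c)]

theorem k3_le {ε : ℝ} {a b c : ℂ} (ha : ‖a‖ = 1) (hb : ‖b‖ = 1) (hc : ‖c‖ = 1) :
    |k3 ε a b c| ≤ 8 * (1 / (π * ε ^ 2) * μ3.real univ) := by
  unfold k3
  rw [abs_mul, abs_of_nonneg (Sig_nonneg _ _)]
  have h1 := normSq_le9 ha hb hc
  have h2 := Complex.normSq_nonneg (a + b + c)
  have h3 : |Complex.normSq (a + b + c) - 1| ≤ 8 := by
    rw [abs_le]; constructor <;> linarith
  exact mul_le_mul h3 (Sig_le _ _) (Sig_nonneg _ _) (by norm_num)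

/-- full expansion -/
theorem expand {g : ℂ → ℝ} (hg : Measurable g) {M : ℝ} (hM : ∀ x, |g x| ≤ M) (ε : ℝ) :
    ∫ a, ((g (a 0) + g (-a 0)) * (g (a 1) + g (-a 1)) * (g (a 2) + g (-a 2))) *
      k3 ε (a 0) (a 1) (a 2) ∂μ3 =
    ∫ a, 2 * ((g (a 0) * g (a 1) * g (a 2)) * (k3 ε (a 0) (a 1) (a 2) + k3 ε (-a 0) (a 1) (a 2) +
      k3 ε (a 0) (-a 1) (a 2) + k3 ε (a 0) (a 1) (-a 2))) ∂μ3 := by
  have hM0 : 0 ≤ M := (abs_nonneg _).trans (hM 0)
  have hM2 : ∀ x, |g x + g (-x)| ≤ 2 * M := fun x =>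
    (abs_add_le _ _).trans (by linarith [hM x, hM (-x)])
  have hk := k3_meas ε
  set B := 8 * (1 / (π * ε ^ 2) * μ3.real univ) with hB
  have hB0 : 0 ≤ B := by positivity
  have hkm : ∀ s t u : (Fin 3 → ℂ) → ℂ, Measurable s → Measurable t → Measurable u →
      Measurable fun a => k3 ε (s a) (t a) (u a) := fun s t u hs ht hu =>
    hk.comp (hs.prodMk (ht.prodMk hu))
  have m0 : Measurable fun a : Fin 3 → ℂ => a 0 := by fun_prop
  have m1 : Measurable fun a : Fin 3 → ℂ => a 1 := by fun_prop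
  have m2 : Measurable fun a : Fin 3 → ℂ => a 2 := by fun_prop
  -- step 0
  have s0 := step hg hM 0 (Q := fun a => (g (a 1) + g (-a 1)) * (g (a 2) + g (-a 2)) *
      k3 ε (a 0) (a 1) (a 2)) (C := (2 * M) * (2 * M) * B)
    (by have := hkm _ _ _ m0 m1 m2; fun_prop)
    (by
      filter_upwards [ae_units3] with a ha
      rw [abs_mul, abs_mul]
      have := k3_le (ε := ε) (ha 0) (ha 1) (ha 2)
      have h1 := hM2 (a 1)
      have h2 := hM2 (a 2)
      gcongr)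
  have s1 := step hg hM 1 (Q := fun a => g (a 0) * (g (a 2) + g (-a 2)) *
      (k3 ε (a 0) (a 1) (a 2) + k3 ε (-a 0) (a 1) (a 2))) (C := M * (2 * M) * (B + B))
    (by have := hkm _ _ _ m0 m1 m2; have := hkm _ _ _ m0.neg m1 m2; fun_prop)
    (by
      filter_upwards [ae_units3] with a ha
      rw [abs_mul, abs_mul]
      have h3 : |k3 ε (a 0) (a 1) (a 2) + k3 ε (-a 0) (a 1) (a 2)| ≤ B + B :=
        (abs_add_le _ _).trans (add_le_add (k3_le (ha 0) (ha 1) (ha 2))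
          (k3_le (by rw [norm_neg]; exact ha 0) (ha 1) (ha 2)))
      have h1 := hM (a 0)
      have h2 := hM2 (a 2)
      gcongr)
  have s2 := step hg hM 2 (Q := fun a => g (a 0) * g (a 1) *
      ((k3 ε (a 0) (a 1) (a 2) + k3 ε (-a 0) (a 1) (a 2)) +
       (k3 ε (a 0) (-a 1) (a 2) + k3 ε (-a 0) (-a 1) (a 2)))) (C := M * M * ((B + B) + (B + B)))
    (by
      have := hkm _ _ _ m0 m1 m2
      have := hkm _ _ _ m0.neg m1 m2
      have := hkm _ _ _ m0 m1.neg m2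
      have := hkm _ _ _ m0.neg m1.neg m2
      fun_prop)
    (by
      filter_upwards [ae_units3] with a ha
      rw [abs_mul, abs_mul]
      have n0 : ‖-a 0‖ = 1 := by rw [norm_neg]; exact ha 0
      have n1 : ‖-a 1‖ = 1 := by rw [norm_neg]; exact ha 1
      have h3 : |(k3 ε (a 0) (a 1) (a 2) + k3 ε (-a 0) (a 1) (a 2)) +
       (k3 ε (a 0) (-a 1) (a 2) + k3 ε (-a 0) (-a 1) (a 2))| ≤ (B + B) + (B + B) :=
        (abs_add_le _ _).trans (add_le_add ((abs_add_le _ _).trans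
          (add_le_add (k3_le (ha 0) (ha 1) (ha 2)) (k3_le n0 (ha 1) (ha 2))))
          ((abs_add_le _ _).trans
          (add_le_add (k3_le (ha 0) n1 (ha 2)) (k3_le n0 n1 (ha 2)))))
      have h1 := hM (a 0)
      have h2 := hM (a 1)
      gcongr)
  have f01 : ∀ a : Fin 3 → ℂ, fl 0 a 1 = a 1 := fun a => fl_ne (by decide) a
  have f02 : ∀ a : Fin 3 → ℂ, fl 0 a 2 = a 2 := fun a => fl_ne (by decide) a
  have f10 : ∀ a : Fin 3 → ℂ, fl 1 a 0 = a 0 := fun a => fl_ne (by decide) a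
  have f12 : ∀ a : Fin 3 → ℂ, fl 1 a 2 = a 2 := fun a => fl_ne (by decide) a
  have f20 : ∀ a : Fin 3 → ℂ, fl 2 a 0 = a 0 := fun a => fl_ne (by decide) a
  have f21 : ∀ a : Fin 3 → ℂ, fl 2 a 1 = a 1 := fun a => fl_ne (by decide) a
  simp only [fl_same, f01, f02] at s0
  simp only [fl_same, f10, f12] at s1
  simp only [fl_same, f20, f21] at s2
  calc ∫ a, ((g (a 0) + g (-a 0)) * (g (a 1) + g (-a 1)) * (g (a 2) + g (-a 2))) *
        k3 ε (a 0) (a 1) (a 2) ∂μ3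
      = ∫ a, (g (a 0) + g (-a 0)) * ((g (a 1) + g (-a 1)) * (g (a 2) + g (-a 2)) *
        k3 ε (a 0) (a 1) (a 2)) ∂μ3 := by congr 1; ext a; ring
    _ = _ := s0
    _ = ∫ a, (g (a 1) + g (-a 1)) * (g (a 0) * (g (a 2) + g (-a 2)) *
      (k3 ε (a 0) (a 1) (a 2) + k3 ε (-a 0) (a 1) (a 2))) ∂μ3 := by congr 1; ext a; ring
    _ = _ := s1
    _ = ∫ a, (g (a 2) + g (-a 2)) * (g (a 0) * g (a 1) *
      ((k3 ε (a 0) (a 1) (a 2) + k3 ε (-a 0) (a 1) (a 2)) +
       (k3 ε (a 0) (-a 1) (a 2) + k3 ε (-a 0) (-a 1) (a 2)))) ∂μ3 := by congr 1; ext a; ring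
    _ = _ := s2
    _ = _ := by
      congr 1
      ext a
      have e1 : k3 ε (-a 0) (-a 1) (a 2) = k3 ε (a 0) (a 1) (-a 2) := by
        rw [← k3_neg, neg_neg, neg_neg]
      have e2 : k3 ε (-a 0) (a 1) (-a 2) = k3 ε (a 0) (-a 1) (a 2) := by
        rw [← k3_neg, neg_neg, neg_neg]
      have e3 : k3 ε (a 0) (-a 1) (-a 2) = k3 ε (-a 0) (a 1) (a 2) := by
        rw [← k3_neg, neg_neg, neg_neg]
      have e4 : k3 ε (-a 0) (-a 1) (-a 2) = k3 ε (a 0) (a 1) (a 2) := k3_neg _ _ _ _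
      rw [e1, e2, e3, e4]
      ring

/-- distance of the densities -/
noncomputable def Del (ε : ℝ) (a b c : ℂ) : ℝ := |Sig ε (a + b + c) - S (a + b + c)|

theorem Del_meas (ε : ℝ) {s t u : (Fin 3 → ℂ) → ℂ} (hs : Measurable s) (ht : Measurable t)
    (hu : Measurable u) : Measurable fun a => Del ε (s a) (t a) (u a) := by
  unfold Del
  have := Sig_meas ε
  have := S_meas
  have h : Measurable fun a : Fin 3 → ℂ => Sig ε (s a + t a + u a) - S (s a + t a + u a) := by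
    fun_prop
  exact h.abs

theorem Del_int {ε κ : ℝ} (hκ : 0 ≤ κ)
    (h : ∫⁻ a, ENNReal.ofReal |Sig ε (a 0 + a 1 + a 2) - S (a 0 + a 1 + a 2)| ∂μ3 ≤ ENNReal.ofReal κ) :
    Integrable (fun a : Fin 3 → ℂ => Del ε (a 0) (a 1) (a 2)) μ3 ∧
      ∫ a, Del ε (a 0) (a 1) (a 2) ∂μ3 ≤ κ := by
  have hm : Measurable (fun a : Fin 3 → ℂ => Del ε (a 0) (a 1) (a 2)) :=
    Del_meas ε (measurable_pi_apply 0) (measurable_pi_apply 1) (measurable_pi_apply 2)
  have hnn : ∀ a : Fin 3 → ℂ, 0 ≤ Del ε (a 0) (a 1) (a 2) := fun a => abs_nonneg _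
  have hint : Integrable (fun a : Fin 3 → ℂ => Del ε (a 0) (a 1) (a 2)) μ3 := by
    refine ⟨hm.aestronglyMeasurable, ?_⟩
    rw [hasFiniteIntegral_iff_ofReal (Filter.Eventually.of_forall hnn)]
    exact h.trans_lt ENNReal.ofReal_lt_top
  refine ⟨hint, ?_⟩
  rw [← ENNReal.ofReal_le_ofReal_iff hκ, ofReal_integral_eq_lintegral_ofReal hint
    (Filter.Eventually.of_forall hnn)]
  exact h

/-- sum of the four distances -/
noncomputable def Del4 (ε : ℝ) (a b c : ℂ) : ℝ :=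
  Del ε a b c + Del ε (-a) b c + Del ε a (-b) c + Del ε a b (-c)

theorem Del_nonneg (ε : ℝ) (a b c : ℂ) : 0 ≤ Del ε a b c := abs_nonneg _

theorem Del4_nonneg (ε : ℝ) (a b c : ℂ) : 0 ≤ Del4 ε a b c := by
  unfold Del4
  have h1 := Del_nonneg ε a b c
  have h2 := Del_nonneg ε (-a) b c
  have h3 := Del_nonneg ε a (-b) c
  have h4 := Del_nonneg ε a b (-c)
  linarith

theorem mul_lower {w s t B : ℝ} (hw : |w| ≤ B) : w * t - B * |s - t| ≤ w * s := by
  have h1 : w * t - w * s ≤ |w| * |s - t| := by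
    have : w * t - w * s = -(w * (s - t)) := by ring
    rw [this, ← abs_mul]
    exact neg_le_abs _
  have h2 : |w| * |s - t| ≤ B * |s - t| := mul_le_mul_of_nonneg_right hw (abs_nonneg _)
  linarith

theorem bracket {ε : ℝ} {a b c : ℂ} (ha : ‖a‖ = 1) (hb : ‖b‖ = 1) (hc : ‖c‖ = 1) :
    XX a b c - 9 * Del4 ε a b c ≤ (Complex.normSq (a + b + c) - 9) * Sig ε (a + b + c) +
      k3 ε (-a) b c + k3 ε a (-b) c + k3 ε a b (-c) := by
  have na : ‖-a‖ = 1 := by rw [norm_neg]; exact ha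
  have nb : ‖-b‖ = 1 := by rw [norm_neg]; exact hb
  have nc : ‖-c‖ = 1 := by rw [norm_neg]; exact hc
  have hw : ∀ x y z : ℂ, ‖x‖ = 1 → ‖y‖ = 1 → ‖z‖ = 1 → |Complex.normSq (x + y + z) - 1| ≤ 9 := by
    intro x y z hx hy hz
    have h1 := normSq_le9 hx hy hz
    have h2 := Complex.normSq_nonneg (x + y + z)
    rw [abs_le]; constructor <;> linarith
  have w0 : |Complex.normSq (a + b + c) - 9| ≤ 9 := by
    have h1 := normSq_le9 ha hb hc
    have h2 := Complex.normSq_nonneg (a + b + c)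
    rw [abs_le]; constructor <;> linarith
  have l0 := mul_lower (s := Sig ε (a + b + c)) (t := S (a + b + c)) w0
  have l1 := mul_lower (s := Sig ε (-a + b + c)) (t := S (-a + b + c)) (hw _ _ _ na hb hc)
  have l2 := mul_lower (s := Sig ε (a + -b + c)) (t := S (a + -b + c)) (hw _ _ _ ha nb hc)
  have l3 := mul_lower (s := Sig ε (a + b + -c)) (t := S (a + b + -c)) (hw _ _ _ ha hb nc)
  have e2 : a - b + c = a + -b + c := by ring
  have e3 : a + b - c = a + b + -c := by ring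
  unfold XX T k3 Del4 Del
  rw [e2, e3]
  linarith

theorem rhs_bound {f : ℝ → ℝ} {c M : ℝ} (hf : Measurable f) (hM : ∀ θ, |f θ| ≤ M)
    (hper : Function.Periodic f π)
    (hs : ∀ θ, f θ ≠ 0 → ∃ k : ℤ, |θ - c - k * π| ≤ π / 4) {ε κ : ℝ} (hκ : 0 ≤ κ)
    (h : ∫⁻ a, ENNReal.ofReal |Sig ε (a 0 + a 1 + a 2) - S (a 0 + a 1 + a 2)| ∂μ3 ≤
      ENNReal.ofReal κ) :
    16 * (∫ a, (gg f c (a 0) * gg f c (a 1) * gg f c (a 2)) * Sig ε (a 0 + a 1 + a 2) ∂μ3) -
        72 * M ^ 6 * κ ≤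
      ∫ a, (ft f (a 0) ^ 2 * ft f (a 1) ^ 2 * ft f (a 2) ^ 2 *
        (Complex.normSq (a 0 + a 1 + a 2) - 1)) * Sig ε (a 0 + a 1 + a 2) ∂μ3 := by
  obtain ⟨hDi, hDk⟩ := Del_int hκ h
  have hM0 : 0 ≤ M := (abs_nonneg _).trans (hM 0)
  have hgm := gg_meas hf c
  have hg0 := gg_nonneg f c
  have hgM := gg_le hM c
  have hgabs : ∀ x, |gg f c x| ≤ M ^ 2 := fun x => by rw [abs_of_nonneg (hg0 x)]; exact hgM x
  have hx := expand hgm hgabs ε
  have e0 : ∫ a, (ft f (a 0) ^ 2 * ft f (a 1) ^ 2 * ft f (a 2) ^ 2 *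
        (Complex.normSq (a 0 + a 1 + a 2) - 1)) * Sig ε (a 0 + a 1 + a 2) ∂μ3 =
      ∫ a, ((gg f c (a 0) + gg f c (-a 0)) * (gg f c (a 1) + gg f c (-a 1)) *
        (gg f c (a 2) + gg f c (-a 2))) * k3 ε (a 0) (a 1) (a 2) ∂μ3 := by
    refine integral_congr_ae ?_
    filter_upwards [ae_units3] with a ha
    rw [ft_sq hper hs (ha 0), ft_sq hper hs (ha 1), ft_sq hper hs (ha 2)]
    unfold k3
    ring
  rw [e0, hx]
  have m0 : Measurable fun a : Fin 3 → ℂ => a 0 := measurable_pi_apply 0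
  have m1 : Measurable fun a : Fin 3 → ℂ => a 1 := measurable_pi_apply 1
  have m2 : Measurable fun a : Fin 3 → ℂ => a 2 := measurable_pi_apply 2
  have hk := k3_meas ε
  have hkm : ∀ s t u : (Fin 3 → ℂ) → ℂ, Measurable s → Measurable t → Measurable u →
      Measurable fun a => k3 ε (s a) (t a) (u a) := fun s t u hs ht hu =>
    hk.comp (hs.prodMk (ht.prodMk hu))
  have k000 := hkm _ _ _ m0 m1 m2
  have k100 := hkm _ _ _ m0.neg m1 m2
  have k010 := hkm _ _ _ m0 m1.neg m2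
  have k001 := hkm _ _ _ m0 m1 m2.neg
  have hSig := Sig_meas ε
  -- integrability
  have iU : Integrable (fun a : Fin 3 → ℂ => 2 * ((gg f c (a 0) * gg f c (a 1) * gg f c (a 2)) *
      (k3 ε (a 0) (a 1) (a 2) + k3 ε (-a 0) (a 1) (a 2) +
      k3 ε (a 0) (-a 1) (a 2) + k3 ε (a 0) (a 1) (-a 2)))) μ3 := by
    set B := 8 * (1 / (π * ε ^ 2) * μ3.real univ) with hB
    have hm : Measurable (fun a : Fin 3 → ℂ => 2 * ((gg f c (a 0) * gg f c (a 1) * gg f c (a 2)) *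
      (k3 ε (a 0) (a 1) (a 2) + k3 ε (-a 0) (a 1) (a 2) +
      k3 ε (a 0) (-a 1) (a 2) + k3 ε (a 0) (a 1) (-a 2)))) := by fun_prop
    refine Integrable.of_bound hm.aestronglyMeasurable
      (2 * ((M ^ 2 * M ^ 2 * M ^ 2) * (B + B + B + B))) ?_
    filter_upwards [ae_units3] with a ha
    have n0 : ‖-a 0‖ = 1 := by rw [norm_neg]; exact ha 0
    have n1 : ‖-a 1‖ = 1 := by rw [norm_neg]; exact ha 1
    have n2 : ‖-a 2‖ = 1 := by rw [norm_neg]; exact ha 2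
    have b0 := k3_le (ε := ε) (ha 0) (ha 1) (ha 2)
    have b1 := k3_le (ε := ε) n0 (ha 1) (ha 2)
    have b2 := k3_le (ε := ε) (ha 0) n1 (ha 2)
    have b3 := k3_le (ε := ε) (ha 0) (ha 1) n2
    rw [← hB] at b0 b1 b2 b3
    have hB0 : 0 ≤ B := by positivity
    rw [norm_mul, norm_mul, norm_mul, norm_mul]
    simp only [Real.norm_eq_abs]
    have t1 := hgabs (a 0)
    have t2 := hgabs (a 1)
    have t3 := hgabs (a 2)
    have t4 : |k3 ε (a 0) (a 1) (a 2) + k3 ε (-a 0) (a 1) (a 2) +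
      k3 ε (a 0) (-a 1) (a 2) + k3 ε (a 0) (a 1) (-a 2)| ≤ B + B + B + B := by
      rw [abs_le] at b0 b1 b2 b3 ⊢
      constructor <;> linarith
    have t5 : |(2:ℝ)| = 2 := abs_of_pos (by norm_num)
    rw [t5]
    gcongr
  have iV : Integrable (fun a : Fin 3 → ℂ => (gg f c (a 0) * gg f c (a 1) * gg f c (a 2)) *
      Sig ε (a 0 + a 1 + a 2)) μ3 := by
    have hm : Measurable (fun a : Fin 3 → ℂ => (gg f c (a 0) * gg f c (a 1) * gg f c (a 2)) *
      Sig ε (a 0 + a 1 + a 2)) := by fun_prop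
    refine Integrable.of_bound hm.aestronglyMeasurable
      ((M ^ 2 * M ^ 2 * M ^ 2) * (1 / (π * ε ^ 2) * μ3.real univ)) ?_
    refine Filter.Eventually.of_forall fun a => ?_
    rw [norm_mul, norm_mul, norm_mul]
    simp only [Real.norm_eq_abs]
    rw [abs_of_nonneg (Sig_nonneg ε (a 0 + a 1 + a 2))]
    have t1 := hgabs (a 0)
    have t2 := hgabs (a 1)
    have t3 := hgabs (a 2)
    have t4 := Sig_le ε (a 0 + a 1 + a 2)
    have t5 := Sig_nonneg ε (a 0 + a 1 + a 2)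
    gcongr
  have hDm := Del_meas ε m0 m1 m2
  have iD : ∀ i : Fin 3, Integrable (fun a : Fin 3 → ℂ => Del ε (fl i a 0) (fl i a 1) (fl i a 2)) μ3 ∧
      ∫ a, Del ε (fl i a 0) (fl i a 1) (fl i a 2) ∂μ3 ≤ κ := by
    intro i
    constructor
    · exact (fl_mp i).integrable_comp_of_integrable hDi
    · rw [fl_int i hDm]
      exact hDk
  have f01 : ∀ a : Fin 3 → ℂ, fl 0 a 1 = a 1 := fun a => fl_ne (by decide) a
  have f02 : ∀ a : Fin 3 → ℂ, fl 0 a 2 = a 2 := fun a => fl_ne (by decide) a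
  have f10 : ∀ a : Fin 3 → ℂ, fl 1 a 0 = a 0 := fun a => fl_ne (by decide) a
  have f12 : ∀ a : Fin 3 → ℂ, fl 1 a 2 = a 2 := fun a => fl_ne (by decide) a
  have f20 : ∀ a : Fin 3 → ℂ, fl 2 a 0 = a 0 := fun a => fl_ne (by decide) a
  have f21 : ∀ a : Fin 3 → ℂ, fl 2 a 1 = a 1 := fun a => fl_ne (by decide) a
  have d0 := iD 0
  have d1 := iD 1
  have d2 := iD 2
  simp only [fl_same, f01, f02] at d0
  simp only [fl_same, f10, f12] at d1
  simp only [fl_same, f20, f21] at d2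
  have iW : Integrable (fun a : Fin 3 → ℂ => Del4 ε (a 0) (a 1) (a 2)) μ3 :=
    ((hDi.add d0.1).add d1.1).add d2.1
  have hW : ∫ a, Del4 ε (a 0) (a 1) (a 2) ∂μ3 ≤ 4 * κ := by
    have : ∫ a, Del4 ε (a 0) (a 1) (a 2) ∂μ3 = ∫ a, Del ε (a 0) (a 1) (a 2) ∂μ3 +
        ∫ a, Del ε (-a 0) (a 1) (a 2) ∂μ3 + ∫ a, Del ε (a 0) (-a 1) (a 2) ∂μ3 +
        ∫ a, Del ε (a 0) (a 1) (-a 2) ∂μ3 := by
      unfold Del4
      have j1 : Integrable (fun a : Fin 3 → ℂ => Del ε (a 0) (a 1) (a 2) +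
        Del ε (-a 0) (a 1) (a 2)) μ3 := hDi.add d0.1
      have j2 : Integrable (fun a : Fin 3 → ℂ => Del ε (a 0) (a 1) (a 2) +
        Del ε (-a 0) (a 1) (a 2) + Del ε (a 0) (-a 1) (a 2)) μ3 := j1.add d1.1
      rw [integral_add j2 d2.1, integral_add j1 d1.1, integral_add hDi d0.1]
    rw [this]
    linarith [d0.2, d1.2, d2.2]
  have hmono : ∫ a, (16 * ((gg f c (a 0) * gg f c (a 1) * gg f c (a 2)) *
      Sig ε (a 0 + a 1 + a 2)) - 18 * M ^ 6 * Del4 ε (a 0) (a 1) (a 2)) ∂μ3 ≤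
      ∫ a, 2 * ((gg f c (a 0) * gg f c (a 1) * gg f c (a 2)) *
      (k3 ε (a 0) (a 1) (a 2) + k3 ε (-a 0) (a 1) (a 2) +
      k3 ε (a 0) (-a 1) (a 2) + k3 ε (a 0) (a 1) (-a 2))) ∂μ3 := by
    refine integral_mono_ae ((iV.const_mul 16).sub (iW.const_mul (18 * M ^ 6))) iU ?_
    filter_upwards [ae_units3] with a ha
    have hD4 := Del4_nonneg ε (a 0) (a 1) (a 2)
    by_cases hz : gg f c (a 0) * gg f c (a 1) * gg f c (a 2) = 0
    · rw [hz, zero_mul, zero_mul, mul_zero, mul_zero]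
      have : 0 ≤ 18 * M ^ 6 * Del4 ε (a 0) (a 1) (a 2) := by positivity
      linarith
    · have h0 : gg f c (a 0) ≠ 0 := fun h => hz (by rw [h]; ring)
      have h1 : gg f c (a 1) ≠ 0 := fun h => hz (by rw [h]; ring)
      have h2 : gg f c (a 2) ≠ 0 := fun h => hz (by rw [h]; ring)
      obtain ⟨t0, ht0, e0⟩ := gg_supp hs (ha 0) h0
      obtain ⟨t1, ht1, e1⟩ := gg_supp hs (ha 1) h1
      obtain ⟨t2, ht2, e2⟩ := gg_supp hs (ha 2) h2
      have hXX : 0 ≤ XX (a 0) (a 1) (a 2) := by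
        rw [e0, e1, e2]
        exact XX_nonneg ht0 ht1 ht2
      have hbr := bracket (ε := ε) (ha 0) (ha 1) (ha 2)
      have hP0 : 0 ≤ gg f c (a 0) * gg f c (a 1) * gg f c (a 2) :=
        mul_nonneg (mul_nonneg (hg0 _) (hg0 _)) (hg0 _)
      have hPM : gg f c (a 0) * gg f c (a 1) * gg f c (a 2) ≤ M ^ 6 := by
        calc gg f c (a 0) * gg f c (a 1) * gg f c (a 2) ≤ M ^ 2 * M ^ 2 * M ^ 2 := by
              have t1 := hgM (a 0)
              have t2 := hgM (a 1)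
              have t3 := hgM (a 2)
              have u1 := hg0 (a 0)
              have u2 := hg0 (a 1)
              have u3 := hg0 (a 2)
              gcongr
          _ = M ^ 6 := by ring
      have key : 2 * ((gg f c (a 0) * gg f c (a 1) * gg f c (a 2)) *
        (k3 ε (a 0) (a 1) (a 2) + k3 ε (-a 0) (a 1) (a 2) +
        k3 ε (a 0) (-a 1) (a 2) + k3 ε (a 0) (a 1) (-a 2))) -
        16 * ((gg f c (a 0) * gg f c (a 1) * gg f c (a 2)) * Sig ε (a 0 + a 1 + a 2)) =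
        2 * ((gg f c (a 0) * gg f c (a 1) * gg f c (a 2)) *
          ((Complex.normSq (a 0 + a 1 + a 2) - 9) * Sig ε (a 0 + a 1 + a 2) +
      k3 ε (-a 0) (a 1) (a 2) + k3 ε (a 0) (-a 1) (a 2) + k3 ε (a 0) (a 1) (-a 2))) := by
        unfold k3
        ring
      generalize gg f c (a 0) * gg f c (a 1) * gg f c (a 2) = P at hP0 hPM key ⊢
      generalize (Complex.normSq (a 0 + a 1 + a 2) - 9) * Sig ε (a 0 + a 1 + a 2) +
        k3 ε (-a 0) (a 1) (a 2) + k3 ε (a 0) (-a 1) (a 2) + k3 ε (a 0) (a 1) (-a 2) = Y at hbr key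
      generalize Del4 ε (a 0) (a 1) (a 2) = D at hbr hD4 ⊢
      have q1 : P * (-(9 * D)) ≤ P * Y := mul_le_mul_of_nonneg_left (by linarith) hP0
      have q2 : P * (9 * D) ≤ M ^ 6 * (9 * D) := mul_le_mul_of_nonneg_right hPM (by linarith)
      nlinarith
  rw [integral_sub (iV.const_mul 16) (iW.const_mul (18 * M ^ 6)), integral_const_mul,
    integral_const_mul] at hmono
  have h18 : 18 * M ^ 6 * ∫ a, Del4 ε (a 0) (a 1) (a 2) ∂μ3 ≤ 18 * M ^ 6 * (4 * κ) := by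
    have : 0 ≤ 18 * M ^ 6 := by positivity
    exact mul_le_mul_of_nonneg_left hW this
  linarith

end Run7.h896
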