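import Mathlib
import Pool.Agent.Run7.h896.Lhs
import Pool.Agent.Run7.h896.Rhs

set_option autoImplicit false

/-! # Main theorem -/

open MeasureTheory Set Real Filter Topology
open scoped ENNReal

namespace Run7.h896

theorem eta_E (ε : ℝ) (θ : Fin 6 → ℝ) :
    eta ε (∑ j, E (θ j)) = (1 / (Real.pi * ε ^ 2)) *
                Real.exp (-((∑ k : Fin 6, Real.cos (θ k)) ^ 2
                    + (∑ k : Fin 6, Real.sin (θ k)) ^ 2) / ε ^ 2) := by
  unfold eta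
  rw [Complex.normSq_apply, Complex.re_sum, Complex.im_sum]
  simp only [E_eq]
  rw [← sq, ← sq]

theorem w_E (θ : Fin 6 → ℝ) :
    Complex.normSq (E (θ 0) + E (θ 1) + E (θ 2)) - 1 =
      ((Real.cos (θ 0) + Real.cos (θ 1) + Real.cos (θ 2)) ^ 2
                + (Real.sin (θ 0) + Real.sin (θ 1) + Real.sin (θ 2)) ^ 2 - 1) := by
  rw [Complex.normSq_apply]
  simp only [E_eq, Complex.add_re, Complex.add_im]
  rw [← sq, ← sq]

theorem main_thm (L : ℝ → (Fin 6 → ℝ → ℝ) → ℝ)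
    (hL : ∀ (ε : ℝ) (g : Fin 6 → ℝ → ℝ),
        L ε g = (1 / 2 : ℝ) ^ 6 *
          ∫ θ in Set.pi Set.univ (fun _ : Fin 6 => Set.Icc (0 : ℝ) (2 * Real.pi)),
            ((Real.cos (θ 0) + Real.cos (θ 1) + Real.cos (θ 2)) ^ 2
                + (Real.sin (θ 0) + Real.sin (θ 1) + Real.sin (θ 2)) ^ 2 - 1)
            * ((1 / (Real.pi * ε ^ 2)) *
                Real.exp (-((∑ k : Fin 6, Real.cos (θ k)) ^ 2
                    + (∑ k : Fin 6, Real.sin (θ k)) ^ 2) / ε ^ 2))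
            * ∏ j : Fin 6, g j (θ j))
    (f : ℝ → ℝ) (hf : Measurable f) (M : ℝ) (hM : ∀ θ, |f θ| ≤ M)
    (hper : Function.Periodic f Real.pi) (c : ℝ)
    (hs : ∀ θ, f θ ≠ 0 → ∃ k : ℤ, |θ - c - k * Real.pi| ≤ Real.pi / 4)
    (δ : ℝ) (hδ : 0 < δ) :
    ∃ ε₀ : ℝ, 0 < ε₀ ∧ ∀ ε : ℝ, 0 < ε → ε < ε₀ →
      L ε (fun _ => f) ≤ L ε (fun j t => if (j : ℕ) < 3 then f t ^ 2 else 1) + δ := by
  have hM0 : 0 ≤ M := (abs_nonneg _).trans (hM 0)
  have hM6 : 0 ≤ M ^ 6 := by positivity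
  -- the first form
  have h1 : ∀ ε, L ε (fun _ => f) = (1 / 2 : ℝ) ^ 6 *
      ∫ x, (Complex.normSq (x 0 + x 1 + x 2) - 1) * HH f ε x ∂μ6 := by
    intro ε
    rw [hL]
    have hm : Measurable fun x : Fin 6 → ℂ =>
        (Complex.normSq (x 0 + x 1 + x 2) - 1) * HH f ε x := by
      have := HH_meas hf ε
      have := Complex.continuous_normSq.measurable
      fun_prop
    rw [← int_conv hm]
    congr 2
    ext θ
    unfold HH
    rw [w_E, eta_E]
    simp only [ft_E hper]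
    ring
  -- the second form
  have h2 : ∀ ε, L ε (fun j t => if (j : ℕ) < 3 then f t ^ 2 else 1) = (1 / 2 : ℝ) ^ 6 *
      ∫ a, (ft f (a 0) ^ 2 * ft f (a 1) ^ 2 * ft f (a 2) ^ 2 *
        (Complex.normSq (a 0 + a 1 + a 2) - 1)) * Sig ε (a 0 + a 1 + a 2) ∂μ3 := by
    intro ε
    rw [hL]
    have hmf := ft_meas hf
    have hmn := Complex.continuous_normSq.measurable
    have hme := (eta_cont ε).measurable
    have hk : Measurable fun a : Fin 3 → ℂ => ft f (a 0) ^ 2 * ft f (a 1) ^ 2 * ft f (a 2) ^ 2 *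
        (Complex.normSq (a 0 + a 1 + a 2) - 1) := by
      fun_prop
    have hb : ∀ᵐ a ∂μ3, |ft f (a 0) ^ 2 * ft f (a 1) ^ 2 * ft f (a 2) ^ 2 *
        (Complex.normSq (a 0 + a 1 + a 2) - 1)| ≤ M ^ 2 * M ^ 2 * M ^ 2 * 8 := by
      filter_upwards [ae_units3] with a ha
      have n1 := normSq_le9 (ha 0) (ha 1) (ha 2)
      have n2 := Complex.normSq_nonneg (a 0 + a 1 + a 2)
      have n3 : |Complex.normSq (a 0 + a 1 + a 2) - 1| ≤ 8 := by
        rw [abs_le]; constructor <;> linarith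
      have hq : ∀ x : ℂ, |ft f x ^ 2| ≤ M ^ 2 := by
        intro x
        rw [abs_pow]
        have : |ft f x| ≤ M := hM _
        gcongr
      have q0 := hq (a 0)
      have q1 := hq (a 1)
      have q2 := hq (a 2)
      rw [abs_mul, abs_mul, abs_mul]
      gcongr
    rw [← split_int hk hb]
    have hm : Measurable fun x : Fin 6 → ℂ =>
        (ft f (x 0) ^ 2 * ft f (x 1) ^ 2 * ft f (x 2) ^ 2 *
        (Complex.normSq (x 0 + x 1 + x 2) - 1)) * eta ε (∑ j, x j) := by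
      fun_prop
    have e : ∫ x : Fin 6 → ℂ, (ft f (x (Fin.castAdd 3 0)) ^ 2 * ft f (x (Fin.castAdd 3 1)) ^ 2 *
        ft f (x (Fin.castAdd 3 2)) ^ 2 * (Complex.normSq (x (Fin.castAdd 3 0) +
        x (Fin.castAdd 3 1) + x (Fin.castAdd 3 2)) - 1)) * eta ε (∑ j, x j) ∂μ6 =
        ∫ x : Fin 6 → ℂ, (ft f (x 0) ^ 2 * ft f (x 1) ^ 2 * ft f (x 2) ^ 2 *
        (Complex.normSq (x 0 + x 1 + x 2) - 1)) * eta ε (∑ j, x j) ∂μ6 := rfl
    rw [e, ← int_conv hm]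
    congr 2
    ext θ
    rw [w_E, eta_E]
    simp only [ft_E hper]
    rw [Fin.prod_univ_six]
    norm_num
    ring
  -- choice of the parameters
  obtain ⟨ε₁, hε₁, hlim⟩ := limC (κ := δ / (72 * (M ^ 6 + 1))) (by positivity)
  have hz := ZZ_tendsto.eventually (Iio_mem_nhds (show (0:ℝ) < δ / (M ^ 6 + 1) by positivity))
  obtain ⟨ε₂, hε₂, hzz⟩ := mem_nhdsGT_iff_exists_Ioo_subset.1 hz
  have hε₂' : 0 < ε₂ := hε₂
  set m := μ6.real univ with hm
  have hm0 : 0 ≤ m := by positivity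
  refine ⟨min (min ε₁ ε₂) √(δ / (16 * (M ^ 6 * m + 1))), lt_min (lt_min hε₁ hε₂')
    (Real.sqrt_pos.2 (by positivity)), fun ε hε hlt => ?_⟩
  have l1 : ε < ε₁ := hlt.trans_le ((min_le_left _ _).trans (min_le_left _ _))
  have l2 : ε < ε₂ := hlt.trans_le ((min_le_left _ _).trans (min_le_right _ _))
  have l3 : ε < √(δ / (16 * (M ^ 6 * m + 1))) := hlt.trans_le (min_le_right _ _)
  have hz3 : ZZ ε < δ / (M ^ 6 + 1) := hzz ⟨hε, l2⟩
  rw [Real.lt_sqrt hε.le, lt_div_iff₀ (by positivity)] at l3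
  have hR := rhs_bound hf hM hper hs (ε := ε) (by positivity) (hlim ε hε l1)
  have hI := I_bound hf hM hper hs ε
  have hZ := Z_bound hf hM hε
  have hW := weight hf hM ε
  rw [P_eq hf hM] at hI
  have hexp := exp_bd2 (ρ := 1 / 2) (by norm_num) hε
  have herr : m * (M ^ 6 * (1 / (π * ε ^ 2) * Real.exp (-(1 / 2) / ε ^ 2))) ≤ δ := by
    have g1 : 1 / (π * ε ^ 2) * Real.exp (-(1 / 2) / ε ^ 2) ≤ 16 * ε ^ 2 := by
      have : 1 / (π * ε ^ 2) ≤ 1 / ε ^ 2 := by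
        apply one_div_le_one_div_of_le (by positivity)
        nlinarith [Real.pi_gt_three, sq_nonneg ε]
      have g2 := mul_le_mul_of_nonneg_right this (Real.exp_pos (-(1 / 2) / ε ^ 2)).le
      have g3 : 4 * ε ^ 2 / (1 / 2) ^ 2 = 16 * ε ^ 2 := by ring
      linarith
    have g4 : m * (M ^ 6 * (1 / (π * ε ^ 2) * Real.exp (-(1 / 2) / ε ^ 2))) ≤
        m * (M ^ 6 * (16 * ε ^ 2)) := by gcongr
    nlinarith [sq_nonneg ε]
  have hk : 72 * M ^ 6 * (δ / (72 * (M ^ 6 + 1))) ≤ δ := by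
    have : 72 * M ^ 6 * (δ / (72 * (M ^ 6 + 1))) = δ * (M ^ 6 / (M ^ 6 + 1)) := by
      field_simp
    rw [this]
    have h3 : M ^ 6 / (M ^ 6 + 1) ≤ 1 := by
      rw [div_le_one (by positivity)]
      linarith
    nlinarith
  have hz4 : M ^ 6 * ZZ ε ≤ δ := by
    have h4 : M ^ 6 * ZZ ε ≤ M ^ 6 * (δ / (M ^ 6 + 1)) := mul_le_mul_of_nonneg_left hz3.le hM6
    have h5 : M ^ 6 * (δ / (M ^ 6 + 1)) = δ * (M ^ 6 / (M ^ 6 + 1)) := by
      field_simp
    have h3 : M ^ 6 / (M ^ 6 + 1) ≤ 1 := by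
      rw [div_le_one (by positivity)]
      linarith
    nlinarith
  rw [h1, h2, hW]
  linarith

end Run7.h896
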